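import Mathlib

/-!
The inequality of Caro and Wei, and a tangent inequality.
-/

set_option autoImplicit false

namespace Pool.Agent.H155.QX

/-- the inequality of Caro and Wei; `B` is reflexive and symmetric, `I` is independent -/
theorem caro_wei {α : Type} [DecidableEq α] (B : α → α → Prop) [∀ a b, Decidable (B a b)]
    (hrefl : ∀ a, B a a) (hsymm : ∀ a b, B a b → B b a) (A : Finset α) :
    ∃ I ⊆ A, (∀ v ∈ I, ∀ w ∈ I, v ≠ w → ¬ B v w) ∧
      ∑ v ∈ A, (1 : ℝ) / ((A.filter (B v)).card : ℝ) ≤ (I.card : ℝ) := by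
  induction A using Finset.strongInduction with
  | _ A ih =>
    rcases A.eq_empty_or_nonempty with rfl | hne
    · exact ⟨∅, Finset.Subset.refl _, by simp, by simp⟩
    obtain ⟨v, hv, hmin⟩ := Finset.exists_min_image A (fun v => (A.filter (B v)).card) hne
    obtain ⟨A', hA'⟩ : ∃ A', A' = A \ A.filter (B v) := ⟨_, rfl⟩
    have hsub : A' ⊆ A := by rw [hA']; exact Finset.sdiff_subset
    have hvA' : v ∉ A' := by
      rw [hA', Finset.mem_sdiff]
      rintro ⟨_, h⟩
      exact h (Finset.mem_filter.2 ⟨hv, hrefl v⟩)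
    have hss : A' ⊂ A := ⟨hsub, fun h => hvA' (h hv)⟩
    obtain ⟨I, hIA, hI, hsum⟩ := ih A' hss
    refine ⟨insert v I, ?_, ?_, ?_⟩
    · intro i hi
      rw [Finset.mem_insert] at hi
      rcases hi with rfl | hi
      · exact hv
      · exact hsub (hIA hi)
    · have h1 : ∀ w ∈ I, ¬ B v w := by
        intro w hw hB
        have h2 := hIA hw
        rw [hA', Finset.mem_sdiff] at h2
        exact h2.2 (Finset.mem_filter.2 ⟨h2.1, hB⟩)
      intro a ha b hb hab
      rw [Finset.mem_insert] at ha hb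
      rcases ha with rfl | ha <;> rcases hb with rfl | hb
      · exact absurd rfl hab
      · exact h1 b hb
      · exact fun h => h1 a ha (hsymm _ _ h)
      · exact hI a ha b hb hab
    · have hvI : v ∉ I := fun h => hvA' (hIA h)
      rw [Finset.card_insert_of_notMem hvI]
      push_cast
      have hpos : ∀ w ∈ A, (0 : ℝ) < ((A.filter (B w)).card : ℝ) := by
        intro w hw
        have : 0 < (A.filter (B w)).card :=
          Finset.card_pos.2 ⟨w, Finset.mem_filter.2 ⟨hw, hrefl w⟩⟩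
        exact_mod_cast this
      have h1 : ∑ w ∈ A, (1 : ℝ) / ((A.filter (B w)).card : ℝ) =
          ∑ w ∈ A', (1 : ℝ) / ((A.filter (B w)).card : ℝ) +
          ∑ w ∈ A.filter (B v), (1 : ℝ) / ((A.filter (B w)).card : ℝ) := by
        rw [hA']
        exact (Finset.sum_sdiff (Finset.filter_subset _ _)).symm
      have h2 : ∑ w ∈ A', (1 : ℝ) / ((A.filter (B w)).card : ℝ) ≤
          ∑ w ∈ A', (1 : ℝ) / ((A'.filter (B w)).card : ℝ) := by
        refine Finset.sum_le_sum fun w hw => ?_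
        have h3 : (A'.filter (B w)).card ≤ (A.filter (B w)).card :=
          Finset.card_le_card (Finset.filter_subset_filter _ hsub)
        have h4 : 0 < (A'.filter (B w)).card :=
          Finset.card_pos.2 ⟨w, Finset.mem_filter.2 ⟨hw, hrefl w⟩⟩
        apply one_div_le_one_div_of_le
        · exact_mod_cast h4
        · exact_mod_cast h3
      have h5 : ∑ w ∈ A.filter (B v), (1 : ℝ) / ((A.filter (B w)).card : ℝ) ≤ 1 := by
        calc ∑ w ∈ A.filter (B v), (1 : ℝ) / ((A.filter (B w)).card : ℝ)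
            ≤ ∑ w ∈ A.filter (B v), (1 : ℝ) / ((A.filter (B v)).card : ℝ) := by
              refine Finset.sum_le_sum fun w hw => ?_
              apply one_div_le_one_div_of_le (hpos v hv)
              exact_mod_cast hmin w (Finset.mem_filter.1 hw).1
          _ = 1 := by
              rw [Finset.sum_const, nsmul_eq_mul]
              have := hpos v hv
              field_simp
      linarith

/-- `(1 - δ)^s (1 + s δ) ≤ 1` -/
lemma bern1 {δ : ℝ} (h0 : 0 ≤ δ) (h1 : δ ≤ 1) (s : ℕ) : (1 - δ) ^ s * (1 + s * δ) ≤ 1 := by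
  have h2 : 1 + s * δ ≤ (1 + δ) ^ s := one_add_mul_le_pow (by linarith) s
  calc (1 - δ) ^ s * (1 + s * δ) ≤ (1 - δ) ^ s * (1 + δ) ^ s :=
        mul_le_mul_of_nonneg_left h2 (pow_nonneg (by linarith) s)
    _ = (1 - δ ^ 2) ^ s := by rw [← mul_pow]; ring
    _ ≤ 1 := pow_le_one₀ (by nlinarith) (by nlinarith [sq_nonneg δ])

/-- `(1 + δ)^s (1 - s δ) ≤ 1` -/
lemma bern2 {δ : ℝ} (h0 : 0 ≤ δ) (h1 : δ ≤ 1) (s : ℕ) : (1 + δ) ^ s * (1 - s * δ) ≤ 1 := by
  have h2 : 1 - s * δ ≤ (1 - δ) ^ s := by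
    have := one_add_mul_le_pow (a := -δ) (by linarith) s
    rw [← sub_eq_add_neg] at this
    linarith
  calc (1 + δ) ^ s * (1 - s * δ) ≤ (1 + δ) ^ s * (1 - δ) ^ s :=
        mul_le_mul_of_nonneg_left h2 (pow_nonneg (by linarith) s)
    _ = (1 - δ ^ 2) ^ s := by rw [← mul_pow]; ring
    _ ≤ 1 := pow_le_one₀ (by nlinarith) (by nlinarith [sq_nonneg δ])

/-- the tangent inequality -/
lemma tangent {N y : ℝ} {s : ℕ} (hN : (s : ℝ) + 1 ≤ N) (hN1 : 1 < N) (hy : 1 ≤ y) :
    (1 - 1 / y) ^ s ≤ (1 - 1 / N) ^ s * (1 + s * (y - N) / (N * (N - 1))) := by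
  rcases Nat.eq_zero_or_pos s with rfl | hs
  · simp
  have hs1 : (1 : ℝ) ≤ s := by exact_mod_cast hs
  have hy0 : 0 < y := by linarith
  have hN0 : 0 < N := by linarith
  have hN10 : 0 < N - 1 := by linarith
  have hb : 0 < 1 - 1 / N := by
    have : 1 / N < 1 := by rw [div_lt_one hN0]; exact hN1
    linarith
  have e1 : 1 - 1 / y = (1 - 1 / N) * (1 + (y - N) / (y * (N - 1))) := by
    field_simp
    ring
  rw [e1, mul_pow]
  apply mul_le_mul_of_nonneg_left _ (by positivity)
  rcases le_total N y with h | h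
  · obtain ⟨δ, hδ⟩ : ∃ δ, δ = (y - N) / (y * (N - 1)) := ⟨_, rfl⟩
    rw [← hδ]
    have hδ0 : 0 ≤ δ := by rw [hδ]; exact div_nonneg (by linarith) (by positivity)
    have hδe : δ * (y * (N - 1)) = y - N := by rw [hδ]; field_simp
    have hsδ : s * δ ≤ (y - N) / y := by
      rw [le_div_iff₀ hy0]
      have : (s : ℝ) ≤ N - 1 := by linarith
      nlinarith [mul_nonneg hδ0 hy0.le]
    have hlt : (y - N) / y < 1 := by rw [div_lt_one hy0]; linarith
    have hδ1 : δ ≤ 1 := by nlinarith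
    have h2 := bern2 hδ0 hδ1 s
    have h3 : 0 < 1 - s * δ := by linarith
    have h4 : (1 + δ) ^ s ≤ 1 / (1 - s * δ) := by rw [le_div_iff₀ h3]; exact h2
    refine h4.trans ?_
    rw [div_le_iff₀ h3]
    have key : (1 + s * (y - N) / (N * (N - 1))) * (1 - s * δ) - 1 =
        s * (y - N) ^ 2 * (N - 1 - s) / (N * y * (N - 1) ^ 2) := by
      rw [hδ]
      field_simp
      ring
    have h5 : 0 ≤ s * (y - N) ^ 2 * (N - 1 - s) / (N * y * (N - 1) ^ 2) := by
      apply div_nonneg _ (by positivity)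
      exact mul_nonneg (by positivity) (by linarith)
    linarith
  · obtain ⟨δ, hδ⟩ : ∃ δ, δ = (N - y) / (y * (N - 1)) := ⟨_, rfl⟩
    have hδn : (y - N) / (y * (N - 1)) = -δ := by rw [hδ, ← neg_div]; ring
    rw [hδn, ← sub_eq_add_neg]
    have hδ0 : 0 ≤ δ := by rw [hδ]; exact div_nonneg (by linarith) (by positivity)
    have hδ1 : δ ≤ 1 := by
      rw [hδ, div_le_one (by positivity)]
      nlinarith
    have h2 := bern1 hδ0 hδ1 s
    have h3 : 0 < 1 + s * δ := by positivity
    have h4 : (1 - δ) ^ s ≤ 1 / (1 + s * δ) := by rw [le_div_iff₀ h3]; exact h2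
    refine h4.trans ?_
    rw [div_le_iff₀ h3]
    have key : (1 + s * (y - N) / (N * (N - 1))) * (1 + s * δ) - 1 =
        s * (y - N) ^ 2 * (N - 1 - s) / (N * y * (N - 1) ^ 2) := by
      rw [hδ]
      field_simp
      ring
    have h5 : 0 ≤ s * (y - N) ^ 2 * (N - 1 - s) / (N * y * (N - 1) ^ 2) := by
      apply div_nonneg _ (by positivity)
      exact mul_nonneg (by positivity) (by linarith)
    linarith

end Pool.Agent.H155.QX
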