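import Mathlib

/-!
Quantum extremal numbers: definitions.
-/

set_option autoImplicit false

open Matrix

namespace Pool.Agent.H155.QX

/-- The configuration in `{0,1}^n` (`ZMod 2` is the set `{0, 1}`) with the values `a` on `A` and `b`
on the complement of `A`. -/
def glue {n : ℕ} (A : Finset (Fin n)) (a : {i : Fin n // i ∈ A} → ZMod 2)
    (b : {i : Fin n // i ∉ A} → ZMod 2) : Fin n → ZMod 2 :=
  fun i => if h : i ∈ A then a ⟨i, h⟩ else b ⟨i, h⟩

/-- The matrix `M_A` with the entries `ψ(a, b)`. -/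
def M {n : ℕ} (ψ : (Fin n → ZMod 2) → ℂ) (A : Finset (Fin n)) :
    Matrix ({i : Fin n // i ∈ A} → ZMod 2) ({i : Fin n // i ∉ A} → ZMod 2) ℂ :=
  Matrix.of fun a b => ψ (glue A a b)

/-- `ψ` is maximally mixed on `A`: the reduced density matrix `M_A M_A^*` is `2^(-|A|)` times the
identity matrix. -/
def MaxMixed {n : ℕ} (ψ : (Fin n → ZMod 2) → ℂ) (A : Finset (Fin n)) : Prop :=
  M ψ A * (M ψ A)ᴴ = ((2 : ℂ) ^ A.card)⁻¹ • (1 : Matrix _ _ ℂ)

/-- `m_k(ψ)`: the number of `k`-element sets on which `ψ` is maximally mixed. -/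
noncomputable def m {n : ℕ} (k : ℕ) (ψ : (Fin n → ZMod 2) → ℂ) : ℕ :=
  {A : Finset (Fin n) | A.card = k ∧ MaxMixed ψ A}.ncard

/-- The quantum extremal number `Q_ex(n, k)`: the maximum (over a set of numbers at most `2^n`, see
`bdd`) of `m_k(ψ)` over all normalised states `ψ` of `n` qubits. -/
noncomputable def Qex (n k : ℕ) : ℕ :=
  sSup {j : ℕ | ∃ ψ : (Fin n → ZMod 2) → ℂ, ∑ x, ‖ψ x‖ ^ 2 = 1 ∧ m k ψ = j}

lemma m_le {n : ℕ} (k : ℕ) (ψ : (Fin n → ZMod 2) → ℂ) : m k ψ ≤ 2 ^ n := by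
  unfold m
  calc _ ≤ (Set.univ : Set (Finset (Fin n))).ncard := Set.ncard_le_ncard (Set.subset_univ _)
    _ = 2 ^ n := by rw [Set.ncard_univ, Nat.card_eq_fintype_card, Fintype.card_finset,
        Fintype.card_fin]

/-- the numbers `m_k(ψ)` are bounded, so that their supremum in `Qex` is their maximum -/
lemma bdd (n k : ℕ) :
    BddAbove {j : ℕ | ∃ ψ : (Fin n → ZMod 2) → ℂ, ∑ x, ‖ψ x‖ ^ 2 = 1 ∧ m k ψ = j} :=
  ⟨2 ^ n, by rintro j ⟨ψ, _, rfl⟩; exact m_le k ψ⟩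

end Pool.Agent.H155.QX
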