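import Mathlib
import Pool.Agent.H155.QX.Defs

/-!
Pauli operators, common eigenvectors, and a criterion for a state to be maximally mixed.
-/

set_option autoImplicit false

open Matrix

namespace Pool.Agent.H155.QX

/-- the sign -/
noncomputable def sg (z : ZMod 2) : ℂ := if z = 0 then 1 else -1

lemma zmod2 (z : ZMod 2) : z = 0 ∨ z = 1 := by
  revert z; decide

lemma sg_add (x y : ZMod 2) : sg (x + y) = sg x * sg y := by
  rcases zmod2 x with rfl | rfl <;> rcases zmod2 y with rfl | rfl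
  · simp [sg]
  · simp [sg]
  · simp [sg]
  · rw [show (1 : ZMod 2) + 1 = 0 by decide]
    simp [sg]

lemma sg_zero : sg 0 = 1 := by simp [sg]

lemma sg_one : sg 1 = -1 := by norm_num [sg]

lemma sg_mul_self (x : ZMod 2) : sg x * sg x = 1 := by
  rcases zmod2 x with rfl | rfl <;> norm_num [sg]

lemma sg_star (x : ZMod 2) : star (sg x) = sg x := by
  rcases zmod2 x with rfl | rfl <;> norm_num [sg]

lemma add_self {ι : Type} (x : ι → ZMod 2) : x + x = 0 := by
  funext i
  simp only [Pi.add_apply, Pi.zero_apply]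
  generalize x i = z
  revert z; decide

lemma add_add_cancel {ι : Type} (x y : ι → ZMod 2) : x + y + y = x := by
  rw [add_assoc, add_self, add_zero]

/-- the dot product -/
def dt {ι : Type} [Fintype ι] (x y : ι → ZMod 2) : ZMod 2 := ∑ i, x i * y i

lemma dt_add {ι : Type} [Fintype ι] (x y z : ι → ZMod 2) : dt x (y + z) = dt x y + dt x z := by
  unfold dt
  rw [← Finset.sum_add_distrib]
  exact Finset.sum_congr rfl fun i _ => by rw [Pi.add_apply, mul_add]

lemma dt_comm {ι : Type} [Fintype ι] (x y : ι → ZMod 2) : dt x y = dt y x := by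
  unfold dt
  exact Finset.sum_congr rfl fun i _ => mul_comm _ _

lemma dt_single {ι : Type} [Fintype ι] [DecidableEq ι] (x : ι → ZMod 2) (j : ι) :
    dt x (Pi.single j 1) = x j := by
  unfold dt
  rw [Finset.sum_eq_single j]
  · rw [Pi.single_eq_same, mul_one]
  · intro k _ hk
    rw [Pi.single_eq_of_ne hk, mul_zero]
  · intro h
    exact absurd (Finset.mem_univ j) h

lemma sum_shift {ι : Type} [Fintype ι] [DecidableEq ι] (f : (ι → ZMod 2) → ℂ) (x : ι → ZMod 2) :
    ∑ y, f (y + x) = ∑ y, f y := Equiv.sum_comp (Equiv.addRight x) f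

/-- orthogonality of characters -/
lemma sum_sg {ι : Type} [Fintype ι] [DecidableEq ι] (c : ι → ZMod 2) :
    ∑ t : ι → ZMod 2, sg (dt c t) = if c = 0 then (2 : ℂ) ^ Fintype.card ι else 0 := by
  split_ifs with h
  · subst h
    have : ∀ t : ι → ZMod 2, sg (dt 0 t) = 1 := by
      intro t
      simp [dt, sg]
    simp only [this, Finset.sum_const, Finset.card_univ, Fintype.card_fun, ZMod.card]
    norm_num
  · obtain ⟨j, hj⟩ : ∃ j, c j ≠ 0 := by
      by_contra hcon
      push Not at hcon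
      exact h (funext hcon)
    have hj1 : c j = 1 := (zmod2 _).resolve_left hj
    have h1 := sum_shift (fun t => sg (dt c t)) (Pi.single j 1)
    simp only [dt_add, dt_single, sg_add, hj1, sg_one, mul_neg, mul_one,
      Finset.sum_neg_distrib] at h1
    exact (self_eq_neg.1 h1.symm)

variable {n : ℕ}

/-- the states -/
abbrev St (n : ℕ) := (Fin n → ZMod 2) → ℂ

/-- the Pauli operator `Z^z X^x` -/
noncomputable def P (x z : Fin n → ZMod 2) : St n →ₗ[ℂ] St n where
  toFun ψ := fun y => sg (dt z y) * ψ (y + x)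
  map_add' ψ φ := by
    funext y
    simp only [Pi.add_apply, mul_add]
  map_smul' c ψ := by
    funext y
    simp only [Pi.smul_apply, smul_eq_mul, RingHom.id_apply]
    ring

lemma P_apply (x z : Fin n → ZMod 2) (ψ : St n) (y : Fin n → ZMod 2) :
    P x z ψ y = sg (dt z y) * ψ (y + x) := rfl

lemma P_comm (x z x' z' : Fin n → ZMod 2) (ψ : St n) :
    P x z (P x' z' ψ) = sg (dt z' x + dt z x') • P x' z' (P x z ψ) := by
  funext y
  rw [Pi.smul_apply, P_apply, P_apply, P_apply, P_apply, smul_eq_mul, dt_add, dt_add, sg_add,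
    sg_add, sg_add, show y + x' + x = y + x + x' by abel]
  have h := sg_mul_self (dt z x')
  calc sg (dt z y) * (sg (dt z' y) * sg (dt z' x) * ψ (y + x + x'))
      = sg (dt z y) * (sg (dt z' y) * sg (dt z' x) * ψ (y + x + x')) *
        (sg (dt z x') * sg (dt z x')) := by rw [h, mul_one]
    _ = _ := by ring

/-- the inner product -/
noncomputable def ip (φ ψ : St n) : ℂ := ∑ y, star (φ y) * ψ y

lemma ip_P (x z : Fin n → ZMod 2) (φ ψ : St n) : ip (P x z φ) (P x z ψ) = ip φ ψ := by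
  unfold ip
  rw [← sum_shift (fun y => star (φ y) * ψ y) x]
  refine Finset.sum_congr rfl fun y _ => ?_
  rw [P_apply, P_apply, star_mul', sg_star]
  have h := sg_mul_self (dt z y)
  calc sg (dt z y) * star (φ (y + x)) * (sg (dt z y) * ψ (y + x))
      = sg (dt z y) * sg (dt z y) * (star (φ (y + x)) * ψ (y + x)) := by ring
    _ = _ := by rw [h, one_mul]

lemma ip_smul (c : ℂ) (φ ψ : St n) : ip φ (c • ψ) = c * ip φ ψ := by
  unfold ip
  rw [Finset.mul_sum]
  refine Finset.sum_congr rfl fun y _ => ?_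
  rw [Pi.smul_apply, smul_eq_mul]
  ring

lemma smul_ip (c : ℂ) (φ ψ : St n) : ip (c • φ) ψ = star c * ip φ ψ := by
  unfold ip
  rw [Finset.mul_sum]
  refine Finset.sum_congr rfl fun y _ => ?_
  rw [Pi.smul_apply, smul_eq_mul, star_mul']
  ring

lemma ip_self (ψ : St n) : ip ψ ψ = ((∑ x, ‖ψ x‖ ^ 2 : ℝ) : ℂ) := by
  unfold ip
  push_cast
  refine Finset.sum_congr rfl fun y _ => ?_
  rw [Complex.star_def, mul_comm, Complex.mul_conj, Complex.normSq_eq_norm_sq]
  push_cast
  rfl

/-- if `ψ` is an eigenvector of an operator that anticommutes with `P x z` then the expectation of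
`P x z` is zero -/
lemma ip_zero {ψ : St n} {x z x' z' : Fin n → ZMod 2} (hψ : ip ψ ψ = 1)
    (he : ∃ c : ℂ, P x' z' ψ = c • ψ) (h : dt z x' + dt z' x = 1) : ip ψ (P x z ψ) = 0 := by
  obtain ⟨c, hc⟩ := he
  have h1 : star c * c = 1 := by
    have h2 := ip_P x' z' ψ ψ
    rw [hc, ip_smul, smul_ip, hψ] at h2
    linear_combination h2
  have h3 : ip (P x' z' ψ) (P x z (P x' z' ψ)) = star c * c * ip ψ (P x z ψ) := by
    rw [hc, map_smul, ip_smul, smul_ip]
    ring
  have h4 : ip (P x' z' ψ) (P x z (P x' z' ψ)) = -ip ψ (P x z ψ) := by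
    rw [P_comm x z x' z' ψ, show dt z' x + dt z x' = 1 by rw [add_comm]; exact h, sg_one, ip_smul,
      ip_P]
    ring
  rw [h3, h1, one_mul] at h4
  exact self_eq_neg.1 h4

/-- commuting operators have a common eigenvector -/
lemma exists_common {ι : Type} (f : ι → (St n →ₗ[ℂ] St n))
    (hf : ∀ i j ψ, f i (f j ψ) = f j (f i ψ)) :
    ∃ ψ : St n, ψ ≠ 0 ∧ ∀ i, ∃ c : ℂ, f i ψ = c • ψ := by
  classical
  -- a minimal nonzero invariant subspace
  obtain ⟨d, hd⟩ : ∃ d : ℕ, (∃ W : Submodule ℂ (St n), W ≠ ⊥ ∧ (∀ i, ∀ x ∈ W, f i x ∈ W) ∧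
      Module.finrank ℂ W = d) := ⟨_, ⊤, by
        intro h
        have h1 : (fun _ => 1 : St n) ∈ (⊤ : Submodule ℂ (St n)) := trivial
        rw [h, Submodule.mem_bot] at h1
        have := congrFun h1 0
        simp at this, fun _ _ _ => trivial, rfl⟩
  have hex : ∃ d : ℕ, (∃ W : Submodule ℂ (St n), W ≠ ⊥ ∧ (∀ i, ∀ x ∈ W, f i x ∈ W) ∧
      Module.finrank ℂ W = d) := ⟨d, hd⟩
  obtain ⟨W, hW0, hWi, hWd⟩ := Nat.find_spec hex
  have hmin : ∀ W' : Submodule ℂ (St n), W' ≠ ⊥ → (∀ i, ∀ x ∈ W', f i x ∈ W') → W' ≤ W → W' = W := by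
    intro W' h1 h2 h3
    apply Submodule.eq_of_le_of_finrank_le h3
    rw [hWd]
    exact Nat.find_min' hex ⟨W', h1, h2, rfl⟩
  obtain ⟨ψ, hψW, hψ0⟩ := Submodule.exists_mem_ne_zero_of_ne_bot hW0
  refine ⟨ψ, hψ0, fun i => ?_⟩
  have : Nontrivial W := (Submodule.nontrivial_iff_ne_bot).2 hW0
  obtain ⟨c, hc⟩ := Module.End.exists_eigenvalue ((f i).restrict (hWi i))
  obtain ⟨v, hv⟩ := hc.exists_hasEigenvector
  have hv1 : f i v = c • (v : St n) := by
    have := hv.apply_eq_smul
    have h2 := congrArg Subtype.val this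
    simpa using h2
  have hv0 : (v : St n) ≠ 0 := by
    intro h
    exact hv.2 (Subtype.ext h)
  refine ⟨c, ?_⟩
  have hW' : W ⊓ LinearMap.ker (f i - c • LinearMap.id) = W := by
    apply hmin
    · intro h
      have : (v : St n) ∈ W ⊓ LinearMap.ker (f i - c • LinearMap.id) := by
        refine ⟨v.2, ?_⟩
        change (v : St n) ∈ LinearMap.ker (f i - c • LinearMap.id)
        rw [LinearMap.mem_ker]
        simp [hv1]
      rw [h, Submodule.mem_bot] at this
      exact hv0 this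
    · rintro j x ⟨hx1, hx2⟩
      refine ⟨hWi j x hx1, ?_⟩
      have hx2' : x ∈ LinearMap.ker (f i - c • LinearMap.id) := hx2
      rw [LinearMap.mem_ker] at hx2'
      have hx3 : f i x = c • x := by
        have : f i x - c • x = 0 := by simpa using hx2'
        exact sub_eq_zero.1 this
      change f j x ∈ LinearMap.ker (f i - c • LinearMap.id)
      rw [LinearMap.mem_ker]
      simp only [LinearMap.sub_apply, LinearMap.smul_apply, LinearMap.id_apply]
      rw [hf i j x, hx3, map_smul, sub_self]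
    · exact inf_le_left
  have h5 : ψ ∈ W ⊓ LinearMap.ker (f i - c • LinearMap.id) := by rw [hW']; exact hψW
  have h6 : ψ ∈ LinearMap.ker (f i - c • LinearMap.id) := h5.2
  rw [LinearMap.mem_ker] at h6
  have : f i ψ - c • ψ = 0 := by simpa using h6
  exact sub_eq_zero.1 this

lemma sum_glue (A : Finset (Fin n)) (g : (Fin n → ZMod 2) → ℂ) :
    ∑ y, g y = ∑ a : {i : Fin n // i ∈ A} → ZMod 2, ∑ b : {i : Fin n // i ∉ A} → ZMod 2,
      g (glue A a b) := by
  rw [← Equiv.sum_comp (Equiv.piEquivPiSubtypeProd (fun i : Fin n => i ∈ A) (fun _ => ZMod 2)).symm,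
    Fintype.sum_prod_type]
  rfl

lemma dt_glue (A : Finset (Fin n)) (t a : {i : Fin n // i ∈ A} → ZMod 2)
    (b : {i : Fin n // i ∉ A} → ZMod 2) : dt (glue A t 0) (glue A a b) = dt t a := by
  unfold dt
  rw [← Finset.sum_subset (Finset.subset_univ A), ← Finset.sum_coe_sort A]
  · refine Finset.sum_congr rfl fun i _ => ?_
    simp only [glue, i.2, dif_pos]
  · intro i _ hi
    simp only [glue, hi, dif_neg, not_false_eq_true, Pi.zero_apply, zero_mul]

lemma glue_add (A : Finset (Fin n)) (a s : {i : Fin n // i ∈ A} → ZMod 2)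
    (b : {i : Fin n // i ∉ A} → ZMod 2) : glue A a b + glue A s 0 = glue A (a + s) b := by
  funext i
  simp only [glue, Pi.add_apply]
  split_ifs
  · rfl
  · simp

/-- the criterion -/
lemma maxMixed_of {ψ : St n} (hψ : ip ψ ψ = 1) (A : Finset (Fin n))
    (h : ∀ x z : Fin n → ZMod 2, (∀ i, i ∉ A → x i = 0 ∧ z i = 0) → ¬ (x = 0 ∧ z = 0) →
      ip ψ (P x z ψ) = 0) : MaxMixed ψ A := by
  unfold MaxMixed
  ext a a'
  rw [Matrix.mul_apply, Matrix.smul_apply, Matrix.one_apply]
  simp only [Matrix.conjTranspose_apply, M, Matrix.of_apply]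
  obtain ⟨ρ, hρ⟩ : ∃ ρ : ({i : Fin n // i ∈ A} → ZMod 2) → ({i : Fin n // i ∈ A} → ZMod 2) → ℂ,
      ρ = fun a a' => ∑ b : {i : Fin n // i ∉ A} → ZMod 2,
        ψ (glue A a b) * star (ψ (glue A a' b)) := ⟨_, rfl⟩
  have h1 : ∀ s t : {i : Fin n // i ∈ A} → ZMod 2,
      ip ψ (P (glue A s 0) (glue A t 0) ψ) = ∑ c, sg (dt t c) * ρ (c + s) c := by
    intro s t
    unfold ip
    rw [sum_glue A]
    refine Finset.sum_congr rfl fun c _ => ?_
    rw [hρ, Finset.mul_sum]
    refine Finset.sum_congr rfl fun b _ => ?_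
    rw [P_apply, dt_glue, glue_add]
    ring
  have h2 : ∀ s : {i : Fin n // i ∈ A} → ZMod 2,
      ∑ t, sg (dt t a') * ip ψ (P (glue A s 0) (glue A t 0) ψ) =
      (2 : ℂ) ^ A.card * ρ (a' + s) a' := by
    intro s
    have h3 : ∀ t : {i : Fin n // i ∈ A} → ZMod 2,
        sg (dt t a') * ip ψ (P (glue A s 0) (glue A t 0) ψ) =
        ∑ c, sg (dt (a' + c) t) * ρ (c + s) c := by
      intro t
      rw [h1, Finset.mul_sum]
      refine Finset.sum_congr rfl fun c _ => ?_
      rw [dt_comm (a' + c) t, dt_add, sg_add, mul_assoc]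
    simp only [h3]
    rw [Finset.sum_comm, Finset.sum_eq_single a']
    · rw [← Finset.sum_mul, sum_sg, if_pos (add_self a'), Fintype.card_coe]
    · intro c _ hc
      rw [← Finset.sum_mul, sum_sg, if_neg, zero_mul]
      intro h4
      apply hc
      have h5 := add_add_cancel a' c
      rw [h4, zero_add] at h5
      exact h5
    · intro h4
      exact absurd (Finset.mem_univ a') h4
  have h0 : ∀ s : {i : Fin n // i ∈ A} → ZMod 2, glue A s 0 = 0 → s = 0 := by
    intro s hs
    funext i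
    have := congrFun hs i.1
    simpa [glue, i.2] using this
  have h6 := h2 (a + a')
  rw [show a' + (a + a') = a by rw [← add_assoc, add_comm a' a, add_add_cancel]] at h6
  have hgoal : (∑ b : {i : Fin n // i ∉ A} → ZMod 2, ψ (glue A a b) * star (ψ (glue A a' b))) =
      ρ a a' := by rw [hρ]
  rw [hgoal]
  have h2n : (2 : ℂ) ^ A.card ≠ 0 := pow_ne_zero _ two_ne_zero
  have hsup : ∀ s t : {i : Fin n // i ∈ A} → ZMod 2, ∀ i, i ∉ A →
      glue A s 0 i = 0 ∧ glue A t 0 i = 0 := by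
    intro s t i hi
    simp [glue, hi]
  by_cases haa : a = a'
  · subst haa
    rw [add_self] at h6
    rw [Finset.sum_eq_single (0 : {i : Fin n // i ∈ A} → ZMod 2)] at h6
    · have hg0 : glue A (0 : {i : Fin n // i ∈ A} → ZMod 2) 0 = 0 := by
        funext i
        simp [glue]
      rw [hg0] at h6
      have hP : P (0 : Fin n → ZMod 2) 0 ψ = ψ := by
        funext y
        rw [P_apply]
        simp [dt, sg]
      rw [hP, hψ] at h6
      have hdt : dt (0 : {i : Fin n // i ∈ A} → ZMod 2) a = 0 := by simp [dt]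
      rw [hdt, sg_zero, one_mul] at h6
      rw [if_pos rfl, smul_eq_mul, mul_one]
      exact eq_inv_of_mul_eq_one_right h6.symm
    · intro t _ ht
      rw [h _ _ (hsup 0 t) (fun hh => ht (h0 t hh.2)), mul_zero]
    · intro h4
      exact absurd (Finset.mem_univ _) h4
  · rw [if_neg haa, smul_zero]
    rw [Finset.sum_eq_zero] at h6
    · have := mul_eq_zero.1 h6.symm
      exact this.resolve_left h2n
    · intro t _
      rw [h _ _ (hsup (a + a') t), mul_zero]
      rintro ⟨hh, -⟩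
      apply haa
      have h5 := add_add_cancel a a'
      rw [h0 _ hh, zero_add] at h5
      exact h5.symm

/-- a state for a family of commuting Pauli operators -/
lemma exists_state {ι : Type} (x z : ι → Fin n → ZMod 2)
    (hc : ∀ i j, dt (z j) (x i) + dt (z i) (x j) = 0) :
    ∃ ψ : St n, ∑ y, ‖ψ y‖ ^ 2 = 1 ∧ ∀ A : Finset (Fin n),
      (∀ x' z' : Fin n → ZMod 2, (∀ i, i ∉ A → x' i = 0 ∧ z' i = 0) → ¬ (x' = 0 ∧ z' = 0) →
        ∃ j, dt z' (x j) + dt (z j) x' = 1) → MaxMixed ψ A := by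
  obtain ⟨φ, hφ0, hφ⟩ := exists_common (fun i => P (x i) (z i)) (fun i j ψ => by
    rw [P_comm, hc i j, sg_zero, one_smul])
  obtain ⟨N, hN⟩ : ∃ N : ℝ, N = ∑ y, ‖φ y‖ ^ 2 := ⟨_, rfl⟩
  have hNpos : 0 < N := by
    obtain ⟨y, hy⟩ : ∃ y, φ y ≠ 0 := by
      by_contra hcon
      push Not at hcon
      exact hφ0 (funext hcon)
    rw [hN]
    refine Finset.sum_pos' (fun _ _ => by positivity) ⟨y, Finset.mem_univ _, ?_⟩
    have : 0 < ‖φ y‖ := norm_pos_iff.2 hy
    positivity
  obtain ⟨c, hcd⟩ : ∃ c : ℝ, c = (√N)⁻¹ := ⟨_, rfl⟩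
  have hc2 : c ^ 2 * N = 1 := by
    rw [hcd, inv_pow, Real.sq_sqrt hNpos.le]
    exact inv_mul_cancel₀ hNpos.ne'
  have hnorm : ∑ y, ‖((c : ℂ) • φ) y‖ ^ 2 = 1 := by
    rw [← hc2, hN, Finset.mul_sum]
    refine Finset.sum_congr rfl fun y _ => ?_
    rw [Pi.smul_apply, norm_smul, mul_pow, Complex.norm_real, Real.norm_eq_abs, sq_abs]
  refine ⟨(c : ℂ) • φ, hnorm, fun A hA => ?_⟩
  have hip : ip ((c : ℂ) • φ) ((c : ℂ) • φ) = 1 := by
    rw [ip_self, hnorm, Complex.ofReal_one]
  refine maxMixed_of hip A fun x' z' h1 h2 => ?_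
  obtain ⟨j, hj⟩ := hA x' z' h1 h2
  refine ip_zero hip ?_ hj
  obtain ⟨d, hd⟩ := hφ j
  refine ⟨d, ?_⟩
  rw [map_smul, hd, smul_comm]

end Pool.Agent.H155.QX
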