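import Mathlib
import Pool.Agent.H155.QX.Pauli

/-!
The Hermitian self-dual codes over the field with four elements attached to Hermitian matrices.
-/

set_option autoImplicit false

namespace Pool.Agent.H155.QX

/-- the field with four elements: `⟨x, z⟩` stands for `x + z ω`, where `ω² = ω + 1` -/
structure F4 where
  x : ZMod 2
  z : ZMod 2
deriving DecidableEq

namespace F4

/-- `F4` as the set of pairs -/
def eqv : F4 ≃ ZMod 2 × ZMod 2 where
  toFun a := (a.x, a.z)
  invFun p := ⟨p.1, p.2⟩
  left_inv _ := rfl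
  right_inv _ := rfl

instance : Fintype F4 := Fintype.ofEquiv _ eqv.symm

instance : Zero F4 := ⟨⟨0, 0⟩⟩
instance : One F4 := ⟨⟨1, 0⟩⟩
instance : Add F4 := ⟨fun a b => ⟨a.x + b.x, a.z + b.z⟩⟩
instance : Mul F4 := ⟨fun a b => ⟨a.x * b.x + a.z * b.z, a.x * b.z + a.z * b.x + a.z * b.z⟩⟩
instance : Neg F4 := ⟨fun a => a⟩

instance : CommRing F4 where
  add_assoc := by decide
  zero_add := by decide
  add_zero := by decide
  add_comm := by decide
  mul_assoc := by decide
  one_mul := by decide
  mul_one := by decide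
  mul_comm := by decide
  left_distrib := by decide
  right_distrib := by decide
  zero_mul := by decide
  mul_zero := by decide
  neg_add_cancel := by decide
  nsmul := nsmulRec
  zsmul := zsmulRec

/-- a generator -/
def om : F4 := ⟨0, 1⟩

/-- the conjugation -/
def conj (a : F4) : F4 := ⟨a.x + a.z, a.z⟩

lemma card_F4 : Fintype.card F4 = 4 := by decide

lemma conj_add : ∀ a b : F4, conj (a + b) = conj a + conj b := by decide

lemma conj_mul : ∀ a b : F4, conj (a * b) = conj a * conj b := by decide

lemma conj_conj : ∀ a : F4, conj (conj a) = a := by decide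

lemma conj_zero : conj 0 = 0 := by decide

lemma add_self' : ∀ a : F4, a + a = 0 := by decide

lemma z_add : ∀ a b : F4, (a + b).z = a.z + b.z := by decide

lemma conj_sum {ι : Type} (s : Finset ι) (f : ι → F4) : conj (∑ i ∈ s, f i) = ∑ i ∈ s, conj (f i) := by
  classical
  induction s using Finset.induction_on with
  | empty => simp [conj_zero]
  | insert i s hi ih => rw [Finset.sum_insert hi, Finset.sum_insert hi, conj_add, ih]

lemma z_sum {ι : Type} (s : Finset ι) (f : ι → F4) : (∑ i ∈ s, f i).z = ∑ i ∈ s, (f i).z := by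
  classical
  induction s using Finset.induction_on with
  | empty => simp; rfl
  | insert i s hi ih => rw [Finset.sum_insert hi, Finset.sum_insert hi, z_add, ih]

end F4

open F4

/-- the Hermitian product -/
def br {ι : Type} [Fintype ι] (x y : ι → F4) : F4 := ∑ i, x i * conj (y i)

/-- the product of a matrix and a vector -/
def mv {m : ℕ} (K : Fin m → Fin m → F4) (x : Fin m → F4) : Fin m → F4 := fun i => ∑ j, K i j * x j

/-- Hermitian matrices -/
def herm {m : ℕ} (K : Fin m → Fin m → F4) : Prop := ∀ i j, K i j = conj (K j i)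

lemma br_add_right {ι : Type} [Fintype ι] (x y z : ι → F4) : br x (y + z) = br x y + br x z := by
  unfold br
  rw [← Finset.sum_add_distrib]
  exact Finset.sum_congr rfl fun i _ => by rw [Pi.add_apply, conj_add, mul_add]

lemma br_mv {m : ℕ} {K : Fin m → Fin m → F4} (hK : herm K) (x y : Fin m → F4) :
    br (mv K x) y = br x (mv K y) := by
  unfold br mv
  simp only [Finset.sum_mul, conj_sum, Finset.mul_sum]
  rw [Finset.sum_comm]
  refine Finset.sum_congr rfl fun j _ => Finset.sum_congr rfl fun i _ => ?_
  rw [conj_mul, hK i j]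
  ring

/-- the code words -/
def cw {m : ℕ} (K : Fin m → Fin m → F4) (x : Fin m → F4) : Fin (m + m) → F4 :=
  Fin.append (fun i => x i + om * mv K x i) (fun i => x i + (om + 1) * mv K x i)

lemma aux1 : ∀ x y x' y' : F4, (x + om * y) * conj (x' + om * y') +
    (x + (om + 1) * y) * conj (x' + (om + 1) * y') = x * conj y' + y * conj x' := by decide

lemma aux2 : ∀ x y a b : F4, (x + om * y) * conj a + (x + (om + 1) * y) * conj b =
    x * conj (a + b) + y * conj ((om + 1) * a + om * b) := by decide

lemma br_cw {m : ℕ} {K : Fin m → Fin m → F4} (hK : herm K) (x y : Fin m → F4) :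
    br (cw K x) (cw K y) = 0 := by
  unfold br cw
  rw [Fin.sum_univ_add]
  simp only [Fin.append_left, Fin.append_right]
  rw [← Finset.sum_add_distrib]
  simp only [aux1, Finset.sum_add_distrib]
  have h1 : ∑ i, x i * conj (mv K y i) = br x (mv K y) := rfl
  have h2 : ∑ i, mv K x i * conj (y i) = br (mv K x) y := rfl
  rw [h1, h2, br_mv hK, add_self']

/-- the two halves -/
def uu {m : ℕ} (v : Fin (m + m) → F4) : Fin m → F4 :=
  fun i => (om + 1) * v (Fin.castAdd m i) + om * v (Fin.natAdd m i)

/-- the two halves -/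
def ww {m : ℕ} (v : Fin (m + m) → F4) : Fin m → F4 :=
  fun i => v (Fin.castAdd m i) + v (Fin.natAdd m i)

/-- membership in the code -/
def InC {m : ℕ} (K : Fin m → Fin m → F4) (v : Fin (m + m) → F4) : Prop := mv K (uu v) = ww v

lemma br_cw_left {m : ℕ} {K : Fin m → Fin m → F4} (hK : herm K) (x : Fin m → F4)
    (v : Fin (m + m) → F4) : br (cw K x) v = br x (ww v + mv K (uu v)) := by
  rw [br_add_right, ← br_mv hK]
  unfold br cw
  rw [Fin.sum_univ_add]
  simp only [Fin.append_left, Fin.append_right]
  rw [← Finset.sum_add_distrib, ← Finset.sum_add_distrib]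
  refine Finset.sum_congr rfl fun i _ => ?_
  rw [aux2]
  rfl

lemma aux3 : ∀ e : F4, e ≠ 0 → ∃ c : F4, (c * conj e).z = 1 := by decide

lemma exists_anti {m : ℕ} {K : Fin m → Fin m → F4} (hK : herm K) {v : Fin (m + m) → F4}
    (hv : ¬ InC K v) : ∃ x, (br (cw K x) v).z = 1 := by
  have hg : ww v + mv K (uu v) ≠ 0 := by
    intro h
    apply hv
    unfold InC
    funext i
    have h1 := congrFun h i
    simp only [Pi.add_apply, Pi.zero_apply] at h1
    revert h1
    generalize ww v i = a
    generalize mv K (uu v) i = b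
    revert a b
    decide
  obtain ⟨i, hi⟩ : ∃ i, (ww v + mv K (uu v)) i ≠ 0 := by
    by_contra hcon
    push Not at hcon
    exact hg (funext hcon)
  obtain ⟨c, hc⟩ := aux3 _ hi
  refine ⟨Pi.single i c, ?_⟩
  rw [br_cw_left hK]
  unfold br
  rw [Finset.sum_eq_single i]
  · rw [Pi.single_eq_same]; exact hc
  · intro k _ hk
    rw [Pi.single_eq_of_ne hk, zero_mul]
  · intro h
    exact absurd (Finset.mem_univ i) h

lemma aux4 : ∀ a b : F4, a.z * b.x + b.z * a.x = (a * conj b).z := by decide

lemma dt_br {n : ℕ} (v u : Fin n → F4) : dt (fun i => (v i).z) (fun i => (u i).x) +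
    dt (fun i => (u i).z) (fun i => (v i).x) = (br v u).z := by
  unfold dt br
  rw [z_sum, ← Finset.sum_add_distrib]
  exact Finset.sum_congr rfl fun i _ => aux4 _ _

/-- the state attached to a Hermitian matrix -/
lemma state_of_herm {m : ℕ} {K : Fin m → Fin m → F4} (hK : herm K) :
    ∃ ψ : St (m + m), ∑ y, ‖ψ y‖ ^ 2 = 1 ∧ ∀ A : Finset (Fin (m + m)),
      (∀ v : Fin (m + m) → F4, (∀ i, i ∉ A → v i = 0) → v ≠ 0 → ¬ InC K v) → MaxMixed ψ A := by
  obtain ⟨ψ, h1, h2⟩ := exists_state (fun (x : Fin m → F4) i => (cw K x i).x)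
    (fun (x : Fin m → F4) i => (cw K x i).z) (fun x y => by
      rw [dt_br, br_cw hK]; rfl)
  refine ⟨ψ, h1, fun A hA => h2 A fun x' z' h3 h4 => ?_⟩
  obtain ⟨v, hv⟩ : ∃ v : Fin (m + m) → F4, v = fun i => ⟨x' i, z' i⟩ := ⟨_, rfl⟩
  have hv0 : v ≠ 0 := by
    intro h
    apply h4
    constructor
    · funext i
      have := congrArg F4.x (congrFun (hv.symm.trans h) i)
      exact this
    · funext i
      have := congrArg F4.z (congrFun (hv.symm.trans h) i)
      exact this
  obtain ⟨x, hx⟩ := exists_anti hK (hA v (fun i hi => by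
    rw [hv]
    simp only [(h3 i hi).1, (h3 i hi).2]
    rfl) hv0)
  refine ⟨x, ?_⟩
  rw [← dt_br, hv] at hx
  rw [add_comm]
  exact hx

/-- code words are isotropic -/
lemma InC_br {m : ℕ} {K : Fin m → Fin m → F4} (hK : herm K) {v : Fin (m + m) → F4}
    (hv : InC K v) : br v v = 0 := by
  have h1 : v = cw K (uu v) := by
    funext i
    refine Fin.addCases (fun j => ?_) (fun j => ?_) i
    · unfold cw
      rw [Fin.append_left, hv]
      unfold uu ww
      generalize v (Fin.castAdd m j) = a
      generalize v (Fin.natAdd m j) = b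
      revert a b; decide
    · unfold cw
      rw [Fin.append_right, hv]
      unfold uu ww
      generalize v (Fin.castAdd m j) = a
      generalize v (Fin.natAdd m j) = b
      revert a b; decide
  rw [h1]
  exact br_cw hK _ _

lemma InC_smul {m : ℕ} {K : Fin m → Fin m → F4} {v : Fin (m + m) → F4} (c : F4)
    (hv : InC K v) : InC K (fun i => c * v i) := by
  unfold InC at hv ⊢
  funext i
  have h1 := congrFun hv i
  have h2 : mv K (uu fun i => c * v i) i = c * mv K (uu v) i := by
    unfold mv uu
    rw [Finset.mul_sum]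
    refine Finset.sum_congr rfl fun j _ => ?_
    ring
  rw [h2, h1]
  unfold ww
  ring

lemma uu_ww {m : ℕ} {v : Fin (m + m) → F4} (hu : uu v = 0) (hw : ww v = 0) : v = 0 := by
  funext i
  refine Fin.addCases (fun j => ?_) (fun j => ?_) i
  · have h1 := congrFun hu j
    have h2 := congrFun hw j
    unfold uu at h1
    unfold ww at h2
    simp only [Pi.zero_apply] at h1 h2 ⊢
    revert h1 h2
    generalize v (Fin.castAdd m j) = a
    generalize v (Fin.natAdd m j) = b
    revert a b; decide
  · have h1 := congrFun hu j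
    have h2 := congrFun hw j
    unfold uu at h1
    unfold ww at h2
    simp only [Pi.zero_apply] at h1 h2 ⊢
    revert h1 h2
    generalize v (Fin.castAdd m j) = a
    generalize v (Fin.natAdd m j) = b
    revert a b; decide

end Pool.Agent.H155.QX
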