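import Mathlib
import Pool.Agent.H155.QX.F4

/-!
Counting Hermitian matrices and vectors of even weight.
-/

set_option autoImplicit false

namespace Pool.Agent.H155.QX

open F4

open scoped Classical in
/-- the Hermitian matrices -/
noncomputable def HM (m : ℕ) : Finset (Fin m → Fin m → F4) := Finset.univ.filter fun K => herm K

open scoped Classical in
/-- the Hermitian matrices whose code contains `v` -/
noncomputable def Fb {m : ℕ} (v : Fin (m + m) → F4) : Finset (Fin m → Fin m → F4) :=
  Finset.univ.filter fun K => herm K ∧ InC K v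

lemma mem_HM {m : ℕ} {K : Fin m → Fin m → F4} : K ∈ HM m ↔ herm K := by
  simp [HM]

lemma mem_Fb {m : ℕ} {v : Fin (m + m) → F4} {K : Fin m → Fin m → F4} :
    K ∈ Fb v ↔ herm K ∧ InC K v := by
  simp [Fb]

lemma zero_mem_HM (m : ℕ) : (0 : Fin m → Fin m → F4) ∈ HM m := by
  rw [mem_HM]
  intro i j
  rw [Pi.zero_apply, Pi.zero_apply, Pi.zero_apply, Pi.zero_apply, conj_zero]

lemma half {m : ℕ} {u : Fin m → F4} (hu : u ≠ 0) :
    4 ^ m ≤ 2 * (Finset.univ.filter fun t : Fin m → F4 => (br u t).z = 0).card := by
  obtain ⟨i, hi⟩ : ∃ i, u i ≠ 0 := by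
    by_contra hcon
    push Not at hcon
    exact hu (funext hcon)
  obtain ⟨c, hc⟩ : ∃ c : F4, (u i * conj c).z = 1 := by
    revert hi
    generalize u i = e
    revert e; decide
  obtain ⟨t₀, ht₀⟩ : ∃ t₀ : Fin m → F4, (br u t₀).z = 1 := by
    refine ⟨Pi.single i c, ?_⟩
    unfold br
    rw [Finset.sum_eq_single i]
    · rw [Pi.single_eq_same]; exact hc
    · intro k _ hk
      rw [Pi.single_eq_of_ne hk, conj_zero, mul_zero]
    · intro h
      exact absurd (Finset.mem_univ i) h
  have h1 := Finset.card_filter_add_card_filter_not (s := (Finset.univ : Finset (Fin m → F4)))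
    (fun t : Fin m → F4 => (br u t).z = 0)
  rw [Finset.card_univ, Fintype.card_fun, card_F4, Fintype.card_fin] at h1
  have h2 : (Finset.univ.filter fun t : Fin m → F4 => ¬ (br u t).z = 0).card ≤
      (Finset.univ.filter fun t : Fin m → F4 => (br u t).z = 0).card := by
    refine Finset.card_le_card_of_injOn (fun t => t + t₀) ?_ ?_
    · intro t ht
      rw [Finset.mem_coe, Finset.mem_filter] at ht ⊢
      refine ⟨Finset.mem_univ _, ?_⟩
      rw [br_add_right, z_add, ht₀, (zmod2 _).resolve_left ht.2]
      decide
    · intro t _ t' _ h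
      exact add_right_cancel h
  omega

lemma fiber {m : ℕ} {v : Fin (m + m) → F4} (hv : v ≠ 0) : 4 ^ m * (Fb v).card ≤ 2 * (HM m).card := by
  by_cases hu : uu v = 0
  · have : Fb v = ∅ := by
      rw [Finset.eq_empty_iff_forall_notMem]
      intro K hK
      rw [mem_Fb] at hK
      apply hv
      apply uu_ww hu
      have h1 := hK.2
      unfold InC at h1
      rw [← h1, hu]
      funext i
      unfold mv
      simp
    rw [this, Finset.card_empty, mul_zero]
    exact Nat.zero_le _
  obtain ⟨u, hudef⟩ : ∃ u, u = uu v := ⟨_, rfl⟩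
  rw [← hudef] at hu
  obtain ⟨i, hi⟩ : ∃ i, u i ≠ 0 := by
    by_contra hcon
    push Not at hcon
    exact hu (funext hcon)
  obtain ⟨c, hc⟩ : ∃ c : F4, conj c * u i = 1 := by
    revert hi
    generalize u i = e
    revert e; decide
  obtain ⟨p, hp⟩ : ∃ p : Fin m → F4, ∑ j, conj (p j) * u j = 1 := by
    refine ⟨Pi.single i c, ?_⟩
    rw [Finset.sum_eq_single i]
    · rw [Pi.single_eq_same]; exact hc
    · intro k _ hk
      rw [Pi.single_eq_of_ne hk, conj_zero, zero_mul]
    · intro h
      exact absurd (Finset.mem_univ i) h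
  obtain ⟨T, hT⟩ : ∃ T, T = Finset.univ.filter fun t : Fin m → F4 => (br u t).z = 0 := ⟨_, rfl⟩
  have hTc := half hu
  rw [← hT] at hTc
  obtain ⟨L, hL⟩ : ∃ L : (Fin m → F4) → (Fin m → Fin m → F4), L = fun t i j =>
      t i * conj (p j) + p i * conj (t j) + br u t * (p i * conj (p j)) := ⟨_, rfl⟩
  have hLh : ∀ t ∈ T, herm (L t) := by
    intro t ht i j
    rw [hT, Finset.mem_filter] at ht
    have h1 : conj (br u t) = br u t := by
      have := ht.2
      revert this
      generalize br u t = e
      revert e; decide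
    rw [hL]
    simp only [conj_add, conj_mul, conj_conj, h1]
    ring
  have hLu : ∀ t, mv (L t) u = t := by
    intro t
    funext i
    unfold mv
    have h1 : ∀ j, L t i j * u j = t i * (conj (p j) * u j) + p i * (u j * conj (t j)) +
        br u t * p i * (conj (p j) * u j) := by
      intro j
      rw [hL]
      ring
    simp only [h1, Finset.sum_add_distrib, ← Finset.mul_sum, hp]
    have h2 : ∑ j, u j * conj (t j) = br u t := rfl
    rw [h2, mul_one, mul_one]
    generalize t i = a
    generalize p i = b
    generalize br u t = c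
    revert a b c; decide
  have hmain : ((Fb v) ×ˢ T).card ≤ (HM m).card := by
    refine Finset.card_le_card_of_injOn (fun x => x.1 + L x.2) ?_ ?_
    · rintro ⟨K, t⟩ hx
      rw [Finset.mem_coe, Finset.mem_product, mem_Fb] at hx
      rw [Finset.mem_coe, mem_HM]
      intro i j
      have e1 : K i j = conj (K j i) := hx.1.1 i j
      have e2 : L t i j = conj (L t j i) := hLh t hx.2 i j
      change K i j + L t i j = conj (K j i + L t j i)
      rw [conj_add, ← e1, ← e2]
    · rintro ⟨K, t⟩ hx ⟨K', t'⟩ hx' h
      rw [Finset.mem_coe, Finset.mem_product, mem_Fb] at hx hx'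
      have hmv : ∀ K t, mv (K + L t) u = mv K u + t := by
        intro K t
        have := hLu t
        conv_rhs => rw [← this]
        funext i
        unfold mv
        simp only [Pi.add_apply]
        rw [← Finset.sum_add_distrib]
        exact Finset.sum_congr rfl fun j _ => by ring
      have h1 : mv (K + L t) u = mv (K' + L t') u := congrArg (fun K => mv K u) h
      rw [hmv, hmv] at h1
      have h2 : mv K u = ww v := by rw [hudef]; exact hx.1.2
      have h3 : mv K' u = ww v := by rw [hudef]; exact hx'.1.2
      rw [h2, h3] at h1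
      have h4 : t = t' := add_left_cancel h1
      subst h4
      have h5 : K = K' := add_right_cancel h
      subst h5
      rfl
  rw [Finset.card_product] at hmain
  calc 4 ^ m * (Fb v).card ≤ 2 * T.card * (Fb v).card := Nat.mul_le_mul_right _ hTc
    _ = 2 * ((Fb v).card * T.card) := by ring
    _ ≤ 2 * (HM m).card := Nat.mul_le_mul_left _ hmain

/-! ### vectors of even weight -/

variable {n : ℕ}

/-- the vectors supported in `A` -/
def sup (A : Finset (Fin n)) : Finset (Fin n → F4) :=
  Fintype.piFinset fun i => if i ∈ A then Finset.univ else {0}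

lemma mem_sup {A : Finset (Fin n)} {v : Fin n → F4} : v ∈ sup A ↔ ∀ i, i ∉ A → v i = 0 := by
  unfold sup
  rw [Fintype.mem_piFinset]
  refine forall_congr' fun i => ?_
  split_ifs with h
  · simp [h]
  · simp [h]

/-- the vectors of even weight supported in `A` -/
def ev (A : Finset (Fin n)) : Finset (Fin n → F4) := (sup A).filter fun v => br v v = 0

/-- the sign of a coordinate -/
def ch (a : F4) : ℤ := if a = 0 then 1 else -1

lemma ch_prod (S : Finset (Fin n)) (v : Fin n → F4) :
    (∑ i ∈ S, v i * conj (v i) = 0 ∧ ∏ i ∈ S, ch (v i) = 1) ∨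
    (∑ i ∈ S, v i * conj (v i) = 1 ∧ ∏ i ∈ S, ch (v i) = -1) := by
  induction S using Finset.induction_on with
  | empty => left; simp
  | insert i S hi ih =>
    rw [Finset.sum_insert hi, Finset.prod_insert hi]
    have h : (v i * conj (v i) = 0 ∧ ch (v i) = 1) ∨ (v i * conj (v i) = 1 ∧ ch (v i) = -1) := by
      generalize v i = a
      revert a; decide
    rcases h with ⟨h1, h2⟩ | ⟨h1, h2⟩ <;> rcases ih with ⟨h3, h4⟩ | ⟨h3, h4⟩ <;>
      rw [h1, h2, h3, h4]
    · left; constructor <;> simp
    · right; constructor <;> simp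
    · right; constructor <;> simp
    · left
      constructor
      · decide
      · norm_num

lemma ch_br (v : Fin n → F4) : ∏ i, ch (v i) = if br v v = 0 then 1 else -1 := by
  have h := ch_prod Finset.univ v
  have h2 : ∑ i, v i * conj (v i) = br v v := rfl
  rw [h2] at h
  rcases h with ⟨h3, h4⟩ | ⟨h3, h4⟩
  · rw [h4, if_pos h3]
  · rw [h4, if_neg]
    rw [h3]
    decide

lemma card_ev (A : Finset (Fin n)) : (2 * (ev A).card : ℤ) = 4 ^ A.card + (-2) ^ A.card := by
  have h1 : ∑ v ∈ sup A, (1 + ∏ i, ch (v i)) = 2 * ((ev A).card : ℤ) := by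
    have h2 : ∀ v : Fin n → F4, 1 + ∏ i, ch (v i) = if br v v = 0 then (2 : ℤ) else 0 := by
      intro v
      rw [ch_br]
      split_ifs <;> norm_num
    simp only [h2]
    rw [← Finset.sum_filter, Finset.sum_const, nsmul_eq_mul, mul_comm]
    rfl
  rw [← h1, Finset.sum_add_distrib]
  congr 1
  · rw [Finset.sum_const, nsmul_eq_mul, mul_one]
    unfold sup
    rw [Fintype.card_piFinset]
    have h3 : ∀ i : Fin n, (if i ∈ A then (Finset.univ : Finset F4) else {0}).card =
        if i ∈ A then 4 else 1 := by
      intro i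
      split_ifs
      · rw [Finset.card_univ, card_F4]
      · rfl
    simp only [h3]
    rw [Finset.prod_ite_mem, Finset.univ_inter, Finset.prod_const]
    push_cast
    rfl
  · unfold sup
    rw [← Finset.prod_univ_sum (fun i => if i ∈ A then (Finset.univ : Finset F4) else {0})
      (fun _ a => ch a)]
    have h3 : ∀ i : Fin n, ∑ a ∈ (if i ∈ A then (Finset.univ : Finset F4) else {0}), ch a =
        if i ∈ A then (-2) else 1 := by
      intro i
      split_ifs
      · decide
      · simp [ch]
    simp only [h3]
    rw [Finset.prod_ite_mem, Finset.univ_inter, Finset.prod_const]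

end Pool.Agent.H155.QX
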