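import Mathlib
import Pool.Agent.H155.QX.Pauli

/-!
Projecting one qubit.
-/

set_option autoImplicit false

open Matrix

namespace Pool.Agent.H155.QX

variable {n : ℕ}

lemma maxMixed_iff {ψ : St n} {A : Finset (Fin n)} : MaxMixed ψ A ↔
    ∀ a a', ∑ b : {i : Fin n // i ∉ A} → ZMod 2, ψ (glue A a b) * star (ψ (glue A a' b)) =
      if a = a' then ((2 : ℂ) ^ A.card)⁻¹ else 0 := by
  unfold MaxMixed
  rw [← Matrix.ext_iff]
  refine forall_congr' fun a => forall_congr' fun a' => ?_
  rw [Matrix.mul_apply, Matrix.smul_apply, Matrix.one_apply]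
  simp only [Matrix.conjTranspose_apply, M, Matrix.of_apply, smul_eq_mul, mul_ite, mul_one, mul_zero]

/-- a state which is maximally mixed on some set is normalised -/
lemma norm_of_maxMixed {ψ : St n} {A : Finset (Fin n)} (h : MaxMixed ψ A) :
    ∑ x, ‖ψ x‖ ^ 2 = 1 := by
  rw [maxMixed_iff] at h
  have h1 : ip ψ ψ = 1 := by
    unfold ip
    rw [sum_glue A]
    have h2 : ∀ a, ∑ b : {i : Fin n // i ∉ A} → ZMod 2, star (ψ (glue A a b)) * ψ (glue A a b) =
        ((2 : ℂ) ^ A.card)⁻¹ := by
      intro a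
      have := h a a
      rw [if_pos rfl] at this
      rw [← this]
      exact Finset.sum_congr rfl fun b _ => mul_comm _ _
    simp only [h2]
    rw [Finset.sum_const, Finset.card_univ, Fintype.card_fun, ZMod.card, Fintype.card_coe,
      nsmul_eq_mul]
    push_cast
    exact mul_inv_cancel₀ (pow_ne_zero _ two_ne_zero)
  rw [ip_self] at h1
  exact_mod_cast h1

/-- the state after the qubit `q` was found in the state `0` -/
noncomputable def proj (q : Fin (n + 1)) (ψ : St (n + 1)) : St n :=
  fun x => ((√2 : ℝ) : ℂ) * ψ (q.insertNth 0 x)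

/-- the set `A` together with `q` -/
def ext' (q : Fin (n + 1)) (A : Finset (Fin n)) : Finset (Fin (n + 1)) :=
  insert q (A.map q.succAboveEmb)

lemma mem_ext'_succAbove (q : Fin (n + 1)) (A : Finset (Fin n)) (j : Fin n) :
    q.succAbove j ∈ ext' q A ↔ j ∈ A := by
  unfold ext'
  rw [Finset.mem_insert, Finset.mem_map]
  constructor
  · rintro (h | ⟨i, hi, h⟩)
    · exact absurd h (Fin.succAbove_ne q j)
    · have : i = j := Fin.succAbove_right_injective h
      rwa [← this]
  · intro h
    exact Or.inr ⟨j, h, rfl⟩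

lemma mem_ext'_self (q : Fin (n + 1)) (A : Finset (Fin n)) : q ∈ ext' q A := by
  unfold ext'
  exact Finset.mem_insert_self _ _

lemma card_ext' (q : Fin (n + 1)) (A : Finset (Fin n)) : (ext' q A).card = A.card + 1 := by
  unfold ext'
  rw [Finset.card_insert_of_notMem, Finset.card_map]
  rw [Finset.mem_map]
  rintro ⟨i, _, h⟩
  exact Fin.succAbove_ne q i h

lemma ext'_inj (q : Fin (n + 1)) : Function.Injective (ext' q) := by
  intro A B h
  ext j
  rw [← mem_ext'_succAbove q A, ← mem_ext'_succAbove q B, h]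

/-- the equivalence of the complements -/
noncomputable def ce (q : Fin (n + 1)) (A : Finset (Fin n)) :
    {j : Fin n // j ∉ A} ≃ {i : Fin (n + 1) // i ∉ ext' q A} :=
  Equiv.ofBijective (fun j => ⟨q.succAbove j.1, fun h => j.2 ((mem_ext'_succAbove q A j.1).1 h)⟩) (by
    constructor
    · intro j j' h
      have := congrArg Subtype.val h
      exact Subtype.ext (Fin.succAbove_right_injective this)
    · rintro ⟨i, hi⟩
      obtain ⟨j, hj⟩ := Fin.exists_succAbove_eq (x := i) (y := q)
        (fun h => hi (h ▸ mem_ext'_self q A))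
      refine ⟨⟨j, fun h => hi ?_⟩, Subtype.ext hj⟩
      rw [← hj]
      exact (mem_ext'_succAbove q A j).2 h)

lemma glue_ext' (q : Fin (n + 1)) (A : Finset (Fin n)) (a : {i : Fin n // i ∈ A} → ZMod 2)
    (b : {i : Fin n // i ∉ A} → ZMod 2) :
    glue (ext' q A) (fun i => (q.insertNth 0 (glue A a 0) : Fin (n + 1) → ZMod 2) i.1)
      (fun i => b ((ce q A).symm i)) = (q.insertNth 0 (glue A a b) : Fin (n + 1) → ZMod 2) := by
  funext i
  by_cases hi : i = q
  · subst hi
    unfold glue
    rw [dif_pos (mem_ext'_self i A)]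
    simp
  · obtain ⟨j, rfl⟩ := Fin.exists_succAbove_eq hi
    rw [Fin.insertNth_apply_succAbove]
    by_cases hj : j ∈ A
    · have hj' := (mem_ext'_succAbove q A j).2 hj
      unfold glue
      rw [dif_pos hj', dif_pos hj]
      simp only [Fin.insertNth_apply_succAbove]
      rw [dif_pos hj]
    · have hj' : q.succAbove j ∉ ext' q A := fun h => hj ((mem_ext'_succAbove q A j).1 h)
      unfold glue
      rw [dif_neg hj', dif_neg hj]
      have h1 : (ce q A).symm ⟨q.succAbove j, hj'⟩ = ⟨j, hj⟩ := by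
        rw [Equiv.symm_apply_eq]
        rfl
      change b ((ce q A).symm ⟨q.succAbove j, hj'⟩) = b ⟨j, hj⟩
      rw [h1]

lemma maxMixed_proj {q : Fin (n + 1)} {ψ : St (n + 1)} {A : Finset (Fin n)}
    (h : MaxMixed ψ (ext' q A)) : MaxMixed (proj q ψ) A := by
  rw [maxMixed_iff] at h ⊢
  intro a a'
  have h1 := h (fun i => (q.insertNth 0 (glue A a 0) : Fin (n + 1) → ZMod 2) i.1)
    (fun i => (q.insertNth 0 (glue A a' 0) : Fin (n + 1) → ZMod 2) i.1)
  rw [← Equiv.sum_comp ((ce q A).arrowCongr (Equiv.refl (ZMod 2)))] at h1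
  have h2 : ∀ b : {i : Fin n // i ∉ A} → ZMod 2,
      ((ce q A).arrowCongr (Equiv.refl (ZMod 2))) b = fun i => b ((ce q A).symm i) := fun b => rfl
  simp only [h2, glue_ext'] at h1
  unfold proj
  have h3 : ∀ b : {i : Fin n // i ∉ A} → ZMod 2,
      ((√2 : ℝ) : ℂ) * ψ (q.insertNth 0 (glue A a b)) *
        star (((√2 : ℝ) : ℂ) * ψ (q.insertNth 0 (glue A a' b))) =
      2 * (ψ (q.insertNth 0 (glue A a b)) * star (ψ (q.insertNth 0 (glue A a' b)))) := by
    intro b
    have h5 : star ((√2 : ℝ) : ℂ) = ((√2 : ℝ) : ℂ) := Complex.conj_ofReal _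
    rw [star_mul', h5]
    have h4 : ((√2 : ℝ) : ℂ) * ((√2 : ℝ) : ℂ) = 2 := by
      rw [← Complex.ofReal_mul, Real.mul_self_sqrt (by norm_num)]
      norm_num
    linear_combination (ψ (q.insertNth 0 (glue A a b)) *
      star (ψ (q.insertNth 0 (glue A a' b)))) * h4
  simp only [h3]
  rw [← Finset.mul_sum, h1, card_ext']
  by_cases haa : a = a'
  · subst haa
    rw [if_pos rfl, if_pos rfl, pow_succ, mul_inv]
    field_simp
  · rw [if_neg haa, if_neg, mul_zero]
    intro h5
    apply haa
    funext i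
    have h6 := congrFun h5 ⟨q.succAbove i.1, (mem_ext'_succAbove q A i.1).2 i.2⟩
    simp only [Fin.insertNth_apply_succAbove] at h6
    simpa [glue, i.2] using h6

/-- projecting one qubit -/
theorem step (n k : ℕ) : (k + 1) * Qex (n + 1) (k + 1) ≤ (n + 1) * Qex n k := by
  classical
  -- an extremal state
  have hne : {j : ℕ | ∃ ψ : (Fin (n + 1) → ZMod 2) → ℂ, ∑ x, ‖ψ x‖ ^ 2 = 1 ∧
      m (k + 1) ψ = j}.Nonempty := by
    refine ⟨_, Pi.single 0 1, ?_, rfl⟩
    rw [Finset.sum_eq_single 0]
    · simp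
    · intro y _ hy
      rw [Pi.single_eq_of_ne hy]
      simp
    · intro h
      exact absurd (Finset.mem_univ _) h
  obtain ⟨ψ, -, hψ⟩ := Nat.sSup_mem hne (bdd (n + 1) (k + 1))
  have hQ : Qex (n + 1) (k + 1) = m (k + 1) ψ := hψ.symm
  rw [hQ]
  obtain ⟨G, hG⟩ : ∃ G : Finset (Finset (Fin (n + 1))), G = Finset.univ.filter
    fun A => A.card = k + 1 ∧ MaxMixed ψ A := ⟨_, rfl⟩
  have hGm : m (k + 1) ψ = G.card := by
    unfold m
    rw [hG, ← Set.ncard_coe_finset]
    congr 1
    ext A
    simp
  rw [hGm]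
  have h1 : ∑ q : Fin (n + 1), (G.filter fun A => q ∈ A).card = (k + 1) * G.card := by
    have e1 : ∀ q : Fin (n + 1), (G.filter fun A => q ∈ A).card = ∑ A ∈ G, if q ∈ A then 1 else 0 := by
      intro q
      rw [Finset.card_filter]
    simp only [e1]
    rw [Finset.sum_comm]
    have e2 : ∀ A ∈ G, (∑ q : Fin (n + 1), if q ∈ A then 1 else 0) = k + 1 := by
      intro A hA
      rw [hG, Finset.mem_filter] at hA
      rw [← hA.2.1, Finset.sum_ite_mem, Finset.univ_inter, Finset.card_eq_sum_ones]
    rw [Finset.sum_congr rfl e2, Finset.sum_const, smul_eq_mul, mul_comm]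
  have h2 : ∀ q : Fin (n + 1), (G.filter fun A => q ∈ A).card ≤ Qex n k := by
    intro q
    rcases (G.filter fun A => q ∈ A).eq_empty_or_nonempty with h | ⟨A₀, hA₀⟩
    · rw [h, Finset.card_empty]
      exact Nat.zero_le _
    -- every member is of the form ext' q A
    have hform : ∀ A' : Finset (Fin (n + 1)), q ∈ A' → ext' q (Finset.univ.filter
        fun j => q.succAbove j ∈ A') = A' := by
      intro A' hq
      ext i
      by_cases hi : i = q
      · subst hi
        exact ⟨fun _ => hq, fun _ => mem_ext'_self _ _⟩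
      · obtain ⟨j, rfl⟩ := Fin.exists_succAbove_eq hi
        rw [mem_ext'_succAbove, Finset.mem_filter]
        exact ⟨fun h => h.2, fun h => ⟨Finset.mem_univ _, h⟩⟩
    have hmem : ∀ A' ∈ G.filter fun A => q ∈ A,
        (Finset.univ.filter fun j => q.succAbove j ∈ A').card = k ∧
        MaxMixed (proj q ψ) (Finset.univ.filter fun j => q.succAbove j ∈ A') := by
      intro A' hA'
      rw [Finset.mem_filter, hG, Finset.mem_filter] at hA'
      have h3 := hform A' hA'.2
      constructor
      · have h4 := card_ext' q (Finset.univ.filter fun j => q.succAbove j ∈ A')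
        rw [h3, hA'.1.2.1] at h4
        omega
      · apply maxMixed_proj
        rw [h3]
        exact hA'.1.2.2
    have hnorm := norm_of_maxMixed (hmem A₀ hA₀).2
    refine le_trans ?_ (le_csSup (bdd n k) ⟨proj q ψ, hnorm, rfl⟩)
    have h5 : (((G.filter fun A => q ∈ A).image (fun A' => Finset.univ.filter
        fun j => q.succAbove j ∈ A') : Finset (Finset (Fin n))) : Set (Finset (Fin n))) ⊆
        {A : Finset (Fin n) | A.card = k ∧ MaxMixed (proj q ψ) A} := by
      intro A hA
      rw [Finset.mem_coe, Finset.mem_image] at hA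
      obtain ⟨A', hA', rfl⟩ := hA
      exact hmem A' hA'
    have h6 := Set.ncard_le_ncard h5 (Set.toFinite _)
    rw [Set.ncard_coe_finset, Finset.card_image_of_injOn] at h6
    · exact h6
    · intro A' hA' B' hB' he
      rw [Finset.mem_coe, Finset.mem_filter] at hA' hB'
      have h7 := congrArg (ext' q) he
      simp only at h7
      rw [hform A' hA'.2, hform B' hB'.2] at h7
      exact h7
  calc (k + 1) * G.card = ∑ q : Fin (n + 1), (G.filter fun A => q ∈ A).card := h1.symm
    _ ≤ ∑ _q : Fin (n + 1), Qex n k := Finset.sum_le_sum fun q _ => h2 q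
    _ = (n + 1) * Qex n k := by
        rw [Finset.sum_const, Finset.card_univ, Fintype.card_fin, smul_eq_mul]

end Pool.Agent.H155.QX
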