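import Mathlib
import Pool.Agent.H155.QX.Step

/-!
The purities of a state and the expectations of the Pauli operators.
-/

set_option autoImplicit false

open Matrix

namespace Pool.Agent.H155.QX

variable {n : ℕ}

/-- the entries of the reduced density matrix -/
noncomputable def rho (ψ : St n) (A : Finset (Fin n)) (a a' : {i : Fin n // i ∈ A} → ZMod 2) : ℂ :=
  ∑ b : {i : Fin n // i ∉ A} → ZMod 2, ψ (glue A a b) * star (ψ (glue A a' b))

/-- the sum of the squares of the expectations of the Pauli operators supported in `A` -/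
noncomputable def pu (ψ : St n) (A : Finset (Fin n)) : ℝ :=
  ∑ x : Fin n → ZMod 2, ∑ z : Fin n → ZMod 2,
    if ∀ i, i ∉ A → x i = 0 ∧ z i = 0 then ‖ip ψ (P x z ψ)‖ ^ 2 else 0

lemma pu_mono (ψ : St n) {A B : Finset (Fin n)} (h : A ⊆ B) : pu ψ A ≤ pu ψ B := by
  unfold pu
  refine Finset.sum_le_sum fun x _ => Finset.sum_le_sum fun z _ => ?_
  split_ifs with h1 h2 h2
  · exact le_rfl
  · exact absurd (fun i hi => h1 i (fun h3 => hi (h h3))) h2
  · positivity
  · exact le_rfl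

lemma P_zero (ψ : St n) : P 0 0 ψ = ψ := by
  funext y
  rw [P_apply]
  simp [dt, sg]

lemma one_le_pu {ψ : St n} (hψ : ip ψ ψ = 1) (A : Finset (Fin n)) : 1 ≤ pu ψ A := by
  unfold pu
  have h1 : (if ∀ i, i ∉ A → (0 : Fin n → ZMod 2) i = 0 ∧ (0 : Fin n → ZMod 2) i = 0 then
      ‖ip ψ (P 0 0 ψ)‖ ^ 2 else 0) = 1 := by
    rw [if_pos (fun i _ => ⟨rfl, rfl⟩), P_zero, hψ]
    norm_num
  rw [← h1]
  refine (Finset.single_le_sum (f := fun z : Fin n → ZMod 2 => if ∀ i, i ∉ A →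
    (0 : Fin n → ZMod 2) i = 0 ∧ z i = 0 then ‖ip ψ (P 0 z ψ)‖ ^ 2 else 0)
    (fun z _ => by positivity) (Finset.mem_univ 0)).trans ?_
  exact Finset.single_le_sum (f := fun x : Fin n → ZMod 2 => ∑ z : Fin n → ZMod 2,
    if ∀ i, i ∉ A → x i = 0 ∧ z i = 0 then ‖ip ψ (P x z ψ)‖ ^ 2 else 0)
    (fun x _ => Finset.sum_nonneg fun z _ => by positivity) (Finset.mem_univ 0)

lemma ip_glue (ψ : St n) (A : Finset (Fin n)) (s t : {i : Fin n // i ∈ A} → ZMod 2) :
    ip ψ (P (glue A s 0) (glue A t 0) ψ) = ∑ c, sg (dt t c) * rho ψ A (c + s) c := by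
  unfold ip rho
  rw [sum_glue A]
  refine Finset.sum_congr rfl fun c _ => ?_
  rw [Finset.mul_sum]
  refine Finset.sum_congr rfl fun b _ => ?_
  rw [P_apply, dt_glue, glue_add]
  ring

/-- sums over the configurations supported in `A` -/
lemma sum_supp (A : Finset (Fin n)) (f : (Fin n → ZMod 2) → ℝ) :
    (∑ x : Fin n → ZMod 2, if ∀ i, i ∉ A → x i = 0 then f x else 0) =
      ∑ s : {i : Fin n // i ∈ A} → ZMod 2, f (glue A s 0) := by
  classical
  rw [← Finset.sum_filter]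
  symm
  refine Finset.sum_nbij (fun s => glue A s 0) ?_ ?_ ?_ ?_
  · intro s _
    rw [Finset.mem_filter]
    refine ⟨Finset.mem_univ _, fun i hi => ?_⟩
    simp [glue, hi]
  · intro s _ s' _ h
    funext i
    have := congrFun h i.1
    simpa [glue, i.2] using this
  · intro x hx
    rw [Finset.mem_coe, Finset.mem_filter] at hx
    refine ⟨fun i => x i.1, Finset.mem_coe.2 (Finset.mem_univ _), ?_⟩
    funext i
    by_cases hi : i ∈ A
    · simp [glue, hi]
    · simp [glue, hi, hx.2 i hi]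
  · intro s _
    rfl

lemma pu_glue (ψ : St n) (A : Finset (Fin n)) :
    pu ψ A = ∑ s : {i : Fin n // i ∈ A} → ZMod 2, ∑ t : {i : Fin n // i ∈ A} → ZMod 2,
      ‖ip ψ (P (glue A s 0) (glue A t 0) ψ)‖ ^ 2 := by
  classical
  have h1 : pu ψ A = ∑ x : Fin n → ZMod 2, if ∀ i, i ∉ A → x i = 0 then
      (∑ z : Fin n → ZMod 2, if ∀ i, i ∉ A → z i = 0 then ‖ip ψ (P x z ψ)‖ ^ 2 else 0) else 0 := by
    unfold pu
    refine Finset.sum_congr rfl fun x _ => ?_
    split_ifs with h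
    · refine Finset.sum_congr rfl fun z _ => ?_
      by_cases h2 : ∀ i, i ∉ A → z i = 0
      · rw [if_pos h2, if_pos fun i hi => ⟨h i hi, h2 i hi⟩]
      · rw [if_neg h2, if_neg fun h3 => h2 fun i hi => (h3 i hi).2]
    · refine Finset.sum_eq_zero fun z _ => ?_
      rw [if_neg fun h3 => h fun i hi => (h3 i hi).1]
  rw [h1, sum_supp A (fun x => ∑ z : Fin n → ZMod 2, if ∀ i, i ∉ A → z i = 0 then
    ‖ip ψ (P x z ψ)‖ ^ 2 else 0)]
  refine Finset.sum_congr rfl fun s _ => ?_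
  exact sum_supp A (fun z => ‖ip ψ (P (glue A s 0) z ψ)‖ ^ 2)

lemma norm_sq_eq (z : ℂ) : ((‖z‖ ^ 2 : ℝ) : ℂ) = z * star z := by
  rw [Complex.star_def, Complex.mul_conj, Complex.normSq_eq_norm_sq]

/-- Parseval's identity for the characters -/
lemma parseval {ι : Type} [Fintype ι] [DecidableEq ι] (f : (ι → ZMod 2) → ℂ) :
    ∑ t : ι → ZMod 2, ‖∑ c, sg (dt t c) * f c‖ ^ 2 = 2 ^ Fintype.card ι * ∑ c, ‖f c‖ ^ 2 := by
  have h : ((∑ t : ι → ZMod 2, ‖∑ c, sg (dt t c) * f c‖ ^ 2 : ℝ) : ℂ) =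
      ((2 ^ Fintype.card ι * ∑ c, ‖f c‖ ^ 2 : ℝ) : ℂ) := by
    rw [Complex.ofReal_sum, Complex.ofReal_mul, Complex.ofReal_sum]
    simp only [norm_sq_eq]
    have h1 : ∀ t : ι → ZMod 2, (∑ c, sg (dt t c) * f c) * star (∑ c, sg (dt t c) * f c) =
        ∑ c, ∑ c', sg (dt (c + c') t) * (f c * star (f c')) := by
      intro t
      rw [star_sum, Finset.sum_mul_sum]
      refine Finset.sum_congr rfl fun c _ => Finset.sum_congr rfl fun c' _ => ?_
      rw [star_mul', sg_star, dt_comm (c + c') t, dt_add, sg_add]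
      ring
    simp only [h1]
    rw [Finset.sum_comm, Finset.mul_sum]
    refine Finset.sum_congr rfl fun c _ => ?_
    rw [Finset.sum_comm, Finset.sum_eq_single c]
    · rw [← Finset.sum_mul, sum_sg, if_pos (add_self c)]
      push_cast
      rfl
    · intro c' _ hc
      rw [← Finset.sum_mul, sum_sg, if_neg, zero_mul]
      intro h4
      apply hc
      have h5 := add_add_cancel c c'
      rw [h4, zero_add] at h5
      exact h5
    · intro h4
      exact absurd (Finset.mem_univ c) h4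
  exact_mod_cast h

/-- the purity -/
noncomputable def pty (ψ : St n) (A : Finset (Fin n)) : ℝ := ∑ a, ∑ a', ‖rho ψ A a a'‖ ^ 2

lemma pu_eq (ψ : St n) (A : Finset (Fin n)) : pu ψ A = 2 ^ A.card * pty ψ A := by
  rw [pu_glue]
  simp only [ip_glue]
  have h1 : ∀ s : {i : Fin n // i ∈ A} → ZMod 2,
      ∑ t : {i : Fin n // i ∈ A} → ZMod 2, ‖∑ c, sg (dt t c) * rho ψ A (c + s) c‖ ^ 2 =
      2 ^ A.card * ∑ c, ‖rho ψ A (c + s) c‖ ^ 2 := by
    intro s
    rw [parseval (fun c => rho ψ A (c + s) c), Fintype.card_coe]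
  simp only [h1]
  rw [← Finset.mul_sum]
  congr 1
  unfold pty
  rw [Finset.sum_comm]
  conv_rhs => rw [Finset.sum_comm]
  refine Finset.sum_congr rfl fun c _ => ?_
  exact Equiv.sum_comp (Equiv.addLeft c) (fun a => ‖rho ψ A a c‖ ^ 2)

/-- the configuration equal to `x` on `A` and to `y` elsewhere -/
def mix (A : Finset (Fin n)) (x y : Fin n → ZMod 2) : Fin n → ZMod 2 :=
  fun i => if i ∈ A then x i else y i

lemma mix_glue (A : Finset (Fin n)) (a a' : {i : Fin n // i ∈ A} → ZMod 2)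
    (b b' : {i : Fin n // i ∉ A} → ZMod 2) : mix A (glue A a b) (glue A a' b') = glue A a b' := by
  funext i
  simp only [mix, glue]
  split_ifs <;> rfl

lemma mix_compl (A : Finset (Fin n)) (x y : Fin n → ZMod 2) : mix Aᶜ x y = mix A y x := by
  funext i
  simp only [mix, Finset.mem_compl]
  split_ifs <;> simp_all

lemma pty_eq (ψ : St n) (A : Finset (Fin n)) : ((pty ψ A : ℝ) : ℂ) =
    ∑ x, ∑ y, ψ x * ψ y * star (ψ (mix A x y)) * star (ψ (mix A y x)) := by
  unfold pty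
  push_cast
  have h1 : ∀ a a', ((‖rho ψ A a a'‖ : ℝ) : ℂ) ^ 2 = rho ψ A a a' * star (rho ψ A a a') := by
    intro a a'
    rw [← norm_sq_eq]
    push_cast
    rfl
  simp only [h1]
  rw [sum_glue A]
  refine Finset.sum_congr rfl fun a _ => ?_
  have h2 : ∀ b : {i : Fin n // i ∉ A} → ZMod 2,
      ∑ y, ψ (glue A a b) * ψ y * star (ψ (mix A (glue A a b) y)) *
        star (ψ (mix A y (glue A a b))) =
      ∑ a', ∑ b' : {i : Fin n // i ∉ A} → ZMod 2, ψ (glue A a b) * ψ (glue A a' b') *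
        star (ψ (glue A a b')) * star (ψ (glue A a' b)) := by
    intro b
    rw [sum_glue A]
    simp only [mix_glue]
  simp only [h2]
  rw [Finset.sum_comm]
  refine Finset.sum_congr rfl fun a' _ => ?_
  unfold rho
  rw [star_sum, Finset.sum_mul_sum]
  refine Finset.sum_congr rfl fun b _ => Finset.sum_congr rfl fun b' _ => ?_
  rw [star_mul', star_star]
  ring

lemma pty_compl (ψ : St n) (A : Finset (Fin n)) : pty ψ Aᶜ = pty ψ A := by
  have h : ((pty ψ Aᶜ : ℝ) : ℂ) = ((pty ψ A : ℝ) : ℂ) := by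
    rw [pty_eq, pty_eq]
    refine Finset.sum_congr rfl fun x _ => Finset.sum_congr rfl fun y _ => ?_
    rw [mix_compl, mix_compl]
    ring
  exact_mod_cast h

/-- duality -/
lemma pu_compl (ψ : St n) (A : Finset (Fin n)) : 2 ^ Aᶜ.card * pu ψ A = 2 ^ A.card * pu ψ Aᶜ := by
  rw [pu_eq, pu_eq, pty_compl]
  ring

lemma pu_of_maxMixed {ψ : St n} {A : Finset (Fin n)} (h : MaxMixed ψ A) : pu ψ A = 1 := by
  rw [maxMixed_iff] at h
  rw [pu_eq]
  unfold pty
  have h1 : ∀ a a', ‖rho ψ A a a'‖ ^ 2 = if a = a' then (((2 : ℝ) ^ A.card)⁻¹) ^ 2 else 0 := by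
    intro a a'
    have := h a a'
    unfold rho
    rw [this]
    split_ifs
    · rw [norm_inv, norm_pow]
      norm_num
    · simp
  simp only [h1]
  simp only [Finset.sum_ite_eq, Finset.mem_univ, if_true]
  rw [Finset.sum_const, Finset.card_univ, Fintype.card_fun, ZMod.card, Fintype.card_coe,
    nsmul_eq_mul]
  push_cast
  have h2 : (2 : ℝ) ^ A.card ≠ 0 := by positivity
  field_simp

end Pool.Agent.H155.QX
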