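import Mathlib
import Pool.Agent.H155.QX.Purity

/-!
The local inequality: among the 36 sets `S ∪ X`, `X` a 7-subset of a fixed 9-set, there are at least
four on which the state is not maximally mixed.
-/

set_option autoImplicit false

open Matrix

namespace Pool.Agent.H155.QX

variable {n : ℕ}

lemma pos (ψ : St n) {S U : Finset (Fin n)} (hd : Disjoint S U) :
    0 ≤ ∑ V ∈ U.powerset, (-1 : ℝ) ^ V.card * pu ψ (S ∪ (U \ V)) := by
  classical
  have h1 : ∑ V ∈ U.powerset, (-1 : ℝ) ^ V.card * pu ψ (S ∪ (U \ V)) =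
      ∑ x : Fin n → ZMod 2, ∑ z : Fin n → ZMod 2, ‖ip ψ (P x z ψ)‖ ^ 2 *
        ∑ V ∈ U.powerset, if (∀ i, i ∉ S ∪ (U \ V) → x i = 0 ∧ z i = 0) then
          (-1 : ℝ) ^ V.card else 0 := by
    unfold pu
    simp only [Finset.mul_sum]
    rw [Finset.sum_comm]
    refine Finset.sum_congr rfl fun x _ => ?_
    rw [Finset.sum_comm]
    refine Finset.sum_congr rfl fun z _ => Finset.sum_congr rfl fun V _ => ?_
    split_ifs
    · ring
    · ring
  rw [h1]
  refine Finset.sum_nonneg fun x _ => Finset.sum_nonneg fun z _ => mul_nonneg (by positivity) ?_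
  obtain ⟨W, hW⟩ : ∃ W : Finset (Fin n), W = Finset.univ.filter fun i => ¬ (x i = 0 ∧ z i = 0) :=
    ⟨_, rfl⟩
  have hmem : ∀ i, i ∈ W ↔ ¬ (x i = 0 ∧ z i = 0) := by
    intro i
    rw [hW, Finset.mem_filter]
    exact ⟨fun h => h.2, fun h => ⟨Finset.mem_univ _, h⟩⟩
  by_cases hWS : W ⊆ S ∪ U
  · have h2 : ∀ V ∈ U.powerset, (∀ i, i ∉ S ∪ (U \ V) → x i = 0 ∧ z i = 0) ↔ V ∈ (U \ W).powerset := by
      intro V hV
      rw [Finset.mem_powerset] at hV ⊢
      constructor
      · intro h i hi
        rw [Finset.mem_sdiff]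
        refine ⟨hV hi, fun hiW => ?_⟩
        apply (hmem i).1 hiW
        apply h
        rw [Finset.mem_union, Finset.mem_sdiff]
        rintro (h3 | h3)
        · exact Finset.disjoint_left.1 hd h3 (hV hi)
        · exact h3.2 hi
      · intro h i hi
        by_contra hcon
        have h3 := hWS ((hmem i).2 hcon)
        apply hi
        rw [Finset.mem_union] at h3 ⊢
        rcases h3 with h3 | h3
        · exact Or.inl h3
        · refine Or.inr (Finset.mem_sdiff.2 ⟨h3, fun h4 => ?_⟩)
          exact (Finset.mem_sdiff.1 (h h4)).2 ((hmem i).2 hcon)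
    have h3 : (∑ V ∈ U.powerset, if (∀ i, i ∉ S ∪ (U \ V) → x i = 0 ∧ z i = 0) then
        (-1 : ℝ) ^ V.card else 0) = ∑ V ∈ (U \ W).powerset, (-1 : ℝ) ^ V.card := by
      rw [← Finset.sum_filter]
      refine Finset.sum_congr ?_ fun _ _ => rfl
      ext V
      rw [Finset.mem_filter]
      constructor
      · rintro ⟨h4, h5⟩
        exact (h2 V h4).1 h5
      · intro h4
        have h5 : V ∈ U.powerset := Finset.mem_powerset.2
          ((Finset.mem_powerset.1 h4).trans Finset.sdiff_subset)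
        exact ⟨h5, (h2 V h5).2 h4⟩
    rw [h3]
    have h4 := Finset.sum_powerset_neg_one_pow_card (x := U \ W)
    have h5 : ∑ V ∈ (U \ W).powerset, (-1 : ℝ) ^ V.card =
        (((if U \ W = ∅ then 1 else 0 : ℤ)) : ℝ) := by
      rw [← h4]
      push_cast
      rfl
    rw [h5]
    split_ifs <;> norm_num
  · refine le_of_eq (Finset.sum_eq_zero fun V hV => ?_).symm
    rw [if_neg]
    intro h
    apply hWS
    intro i hi
    by_contra h3
    apply (hmem i).1 hi
    apply h
    rw [Finset.mem_union, Finset.mem_sdiff]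
    rw [Finset.mem_union] at h3
    tauto

/-- the exact coefficients -/
def cf (i : ℕ) : ℝ := if i = 0 then 16 else if i = 1 then 4 else 1

lemma sum_cf : ∑ i ∈ Finset.range 10, (Nat.choose 9 i : ℝ) * ((-1) ^ i * cf i) = -12 := by
  simp only [Finset.sum_range_succ, Finset.sum_range_zero, cf, Nat.choose]
  norm_num

open scoped Classical in
/-- the pairs `V ⊆ U` such that `ψ` is not maximally mixed on `S ∪ (U \ V)` -/
noncomputable def bv (ψ : St n) (S U : Finset (Fin n)) : Finset (Finset (Fin n)) :=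
  (Finset.powersetCard 2 U).filter fun V => ¬ MaxMixed ψ (S ∪ (U \ V))

lemma card_SU {k : ℕ} {S U V : Finset (Fin (k + k))} (hd : Disjoint S U) (hS : S.card + 7 = k)
    (hU : U.card = 9) (hV : V ⊆ U) : (S ∪ (U \ V)).card + V.card = k + 2 := by
  rw [Finset.card_union_of_disjoint (hd.mono_right Finset.sdiff_subset),
    Finset.card_sdiff_of_subset hV]
  have := Finset.card_le_card hV
  omega

theorem local_bad {k : ℕ} {ψ : St (k + k)} (hψ : ip ψ ψ = 1) {S U : Finset (Fin (k + k))}
    (hd : Disjoint S U) (hS : S.card + 7 = k) (hU : U.card = 9) : 4 ≤ (bv ψ S U).card := by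
  classical
  by_contra hcon
  push Not at hcon
  have hβ : (bv ψ S U).card ≤ 3 := by omega
  -- cardinalities
  have hc : ∀ V ⊆ U, (S ∪ (U \ V)).card + V.card = k + 2 := fun V hV => card_SU hd hS hU hV
  have hcc : ∀ V ⊆ U, (S ∪ (U \ V))ᶜ.card + (k + 2) = k + k + V.card := by
    intro V hV
    have h1 := hc V hV
    have h2 := Finset.card_add_card_compl (S ∪ (U \ V))
    rw [Fintype.card_fin] at h2
    omega
  -- good pairs
  have hgood : ∀ V ⊆ U, V.card = 2 → V ∉ bv ψ S U → MaxMixed ψ (S ∪ (U \ V)) := by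
    intro V hV hV2 hn
    by_contra h
    exact hn (Finset.mem_filter.2 ⟨Finset.mem_powersetCard.2 ⟨hV, hV2⟩, h⟩)
  have hgp : ∀ V ⊆ U, V.card = 2 → V ∉ bv ψ S U → pu ψ (S ∪ (U \ V)) = 1 :=
    fun V hV hV2 hn => pu_of_maxMixed (hgood V hV hV2 hn)
  have hgc : ∀ V ⊆ U, V.card = 2 → V ∉ bv ψ S U → pu ψ (S ∪ (U \ V))ᶜ = 1 := by
    intro V hV hV2 hn
    have h1 := pu_compl ψ (S ∪ (U \ V))
    have h2 := hc V hV
    have h3 := hcc V hV
    rw [show (S ∪ (U \ V))ᶜ.card = (S ∪ (U \ V)).card by omega, hgp V hV hV2 hn, mul_one] at h1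
    have h4 : (0 : ℝ) < 2 ^ (S ∪ (U \ V)).card := by positivity
    have h5 : (2 : ℝ) ^ (S ∪ (U \ V)).card * 1 =
        2 ^ (S ∪ (U \ V)).card * pu ψ (S ∪ (U \ V))ᶜ := by rw [mul_one]; exact h1
    exact (mul_left_cancel₀ h4.ne' h5).symm
  -- many subsets
  have hex4 : ∀ V ⊆ U, 4 ≤ V.card → ∃ V' ⊆ V, V'.card = 2 ∧ V' ∉ bv ψ S U := by
    intro V hV hV4
    by_contra hno
    push Not at hno
    have h1 : Finset.powersetCard 2 V ⊆ bv ψ S U := by
      intro V' hV'
      rw [Finset.mem_powersetCard] at hV'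
      exact hno V' hV'.1 hV'.2
    have h2 := Finset.card_le_card h1
    rw [Finset.card_powersetCard] at h2
    have h3 : Nat.choose 4 2 ≤ Nat.choose V.card 2 := Nat.choose_le_choose 2 hV4
    rw [show Nat.choose 4 2 = 6 from rfl] at h3
    omega
  have hexu : ∀ u ∈ U, ∃ V' ⊆ U, V'.card = 2 ∧ u ∈ V' ∧ V' ∉ bv ψ S U := by
    intro u hu
    by_contra hno
    push Not at hno
    have h1 : (U.erase u).image (fun v => ({u, v} : Finset (Fin (k + k)))) ⊆ bv ψ S U := by
      intro V' hV'
      rw [Finset.mem_image] at hV'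
      obtain ⟨v, hv, rfl⟩ := hV'
      rw [Finset.mem_erase] at hv
      apply hno
      · intro i hi
        rw [Finset.mem_insert, Finset.mem_singleton] at hi
        rcases hi with rfl | rfl
        · exact hu
        · exact hv.2
      · exact Finset.card_pair hv.1.symm
      · exact Finset.mem_insert_self _ _
    have h2 := Finset.card_le_card h1
    rw [Finset.card_image_of_injOn, Finset.card_erase_of_mem hu, hU] at h2
    · omega
    · intro v hv w hw h
      rw [Finset.mem_coe, Finset.mem_erase] at hv hw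
      have h3 : v ∈ ({u, w} : Finset (Fin (k + k))) := by
        simp only at h
        rw [← h]
        simp
      rw [Finset.mem_insert, Finset.mem_singleton] at h3
      exact h3.resolve_left hv.1
  -- monotonicity
  have hmono : ∀ V V' : Finset (Fin (k + k)), V' ⊆ V → pu ψ (S ∪ (U \ V)) ≤ pu ψ (S ∪ (U \ V')) := by
    intro V V' h
    exact pu_mono ψ (Finset.union_subset_union_right (Finset.sdiff_subset_sdiff (le_refl U) h))
  have hmonoc : ∀ V V' : Finset (Fin (k + k)), V ⊆ V' →
      pu ψ (S ∪ (U \ V))ᶜ ≤ pu ψ (S ∪ (U \ V'))ᶜ := by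
    intro V V' h
    refine pu_mono ψ (Finset.compl_subset_compl.2 ?_)
    exact Finset.union_subset_union_right (Finset.sdiff_subset_sdiff (le_refl U) h)
  -- the bound of single terms
  have hterm : ∀ V ∈ U.powerset, (-1 : ℝ) ^ V.card * pu ψ (S ∪ (U \ V)) ≤
      (-1 : ℝ) ^ V.card * cf V.card + if V ∈ bv ψ S U then 3 else 0 := by
    intro V hV
    rw [Finset.mem_powerset] at hV
    have hle := one_le_pu hψ (S ∪ (U \ V))
    have hcV := hc V hV
    have hccV := hcc V hV
    have hdual := pu_compl ψ (S ∪ (U \ V))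
    have hif : (0 : ℝ) ≤ if V ∈ bv ψ S U then 3 else 0 := by split_ifs <;> norm_num
    rcases Nat.lt_or_ge V.card 1 with h0 | h1
    · -- V empty
      have hV0 : V.card = 0 := by omega
      have hVe : V = ∅ := Finset.card_eq_zero.1 hV0
      obtain ⟨V', hV', hV'2, hn⟩ := hex4 U (le_refl U) (by omega)
      have h3 : pu ψ (S ∪ (U \ V))ᶜ ≤ 1 := by
        rw [← hgc V' hV' hV'2 hn]
        exact hmonoc V V' (by rw [hVe]; exact Finset.empty_subset _)
      have e1 : (S ∪ (U \ V)).card = (S ∪ (U \ V))ᶜ.card + 4 := by omega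
      rw [e1, pow_add] at hdual
      have h5 : (0 : ℝ) < 2 ^ (S ∪ (U \ V))ᶜ.card := by positivity
      have h6 : pu ψ (S ∪ (U \ V)) = 16 * pu ψ (S ∪ (U \ V))ᶜ := by
        apply mul_left_cancel₀ h5.ne'
        rw [hdual]
        ring
      rw [hV0]
      simp only [pow_zero, one_mul, cf, if_true]
      linarith
    rcases Nat.lt_or_ge V.card 2 with h0 | h2
    · have hV1 : V.card = 1 := by omega
      have h3 := one_le_pu hψ (S ∪ (U \ V))ᶜ
      have e1 : (S ∪ (U \ V)).card = (S ∪ (U \ V))ᶜ.card + 2 := by omega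
      rw [e1, pow_add] at hdual
      have h5 : (0 : ℝ) < 2 ^ (S ∪ (U \ V))ᶜ.card := by positivity
      have h6 : pu ψ (S ∪ (U \ V)) = 4 * pu ψ (S ∪ (U \ V))ᶜ := by
        apply mul_left_cancel₀ h5.ne'
        rw [hdual]
        ring
      rw [hV1]
      simp only [pow_one, cf]
      norm_num
      linarith
    rcases Nat.lt_or_ge V.card 3 with h0 | h3
    · have hV2 : V.card = 2 := by omega
      by_cases hb : V ∈ bv ψ S U
      · rw [if_pos hb]
        obtain ⟨u, hu⟩ : V.Nonempty := Finset.card_pos.1 (by omega)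
        obtain ⟨V', hV', hV'2, huV', hn⟩ := hexu u (hV hu)
        have hsu : ({u} : Finset (Fin (k + k))) ⊆ V := Finset.singleton_subset_iff.2 hu
        have hsu' : ({u} : Finset (Fin (k + k))) ⊆ V' := Finset.singleton_subset_iff.2 huV'
        have hsU : ({u} : Finset (Fin (k + k))) ⊆ U := hsu.trans hV
        have h4 : pu ψ (S ∪ (U \ {u}))ᶜ ≤ 1 := by
          rw [← hgc V' hV' hV'2 hn]
          exact hmonoc _ _ hsu'
        have hd2 := pu_compl ψ (S ∪ (U \ {u}))
        have hc2 := hc {u} hsU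
        have hcc2 := hcc {u} hsU
        rw [Finset.card_singleton] at hc2 hcc2
        have e1 : (S ∪ (U \ {u})).card = (S ∪ (U \ {u}))ᶜ.card + 2 := by omega
        rw [e1, pow_add] at hd2
        have h5 : (0 : ℝ) < 2 ^ (S ∪ (U \ {u}))ᶜ.card := by positivity
        have h6 : pu ψ (S ∪ (U \ {u})) = 4 * pu ψ (S ∪ (U \ {u}))ᶜ := by
          apply mul_left_cancel₀ h5.ne'
          rw [hd2]
          ring
        have h7 := hmono V {u} hsu
        rw [hV2]
        simp only [cf]
        norm_num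
        linarith
      · rw [if_neg hb, hgp V hV hV2 hb, hV2]
        simp only [cf]
        norm_num
    · have hcf : cf V.card = 1 := by
        unfold cf
        rw [if_neg (by omega), if_neg (by omega)]
      rw [hcf]
      rcases Nat.even_or_odd V.card with he | ho
      · have h4 : 4 ≤ V.card := by
          obtain ⟨r, hr⟩ := he
          omega
        obtain ⟨V', hV', hV'2, hn⟩ := hex4 V hV h4
        have h5 := hmono V V' hV'
        rw [hgp V' (hV'.trans hV) hV'2 hn] at h5
        rw [he.neg_one_pow]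
        linarith
      · rw [ho.neg_one_pow]
        linarith
  have h1 := pos ψ hd
  have h2 := h1.trans (Finset.sum_le_sum hterm)
  rw [Finset.sum_add_distrib, Finset.sum_powerset_apply_card (fun i => (-1 : ℝ) ^ i * cf i), hU] at h2
  simp only [nsmul_eq_mul] at h2
  rw [show (9 + 1 : ℕ) = 10 from rfl, sum_cf, ← Finset.sum_filter] at h2
  have h3 : (U.powerset.filter fun V => V ∈ bv ψ S U).card ≤ (bv ψ S U).card :=
    Finset.card_le_card (fun V hV => (Finset.mem_filter.1 hV).2)
  rw [Finset.sum_const, nsmul_eq_mul] at h2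
  have h4 : ((U.powerset.filter fun V => V ∈ bv ψ S U).card : ℝ) ≤ 3 := by
    exact_mod_cast h3.trans hβ
  linarith

end Pool.Agent.H155.QX
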