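import Mathlib
import Pool.Agent.H155.QX.Local

/-!
The upper bound `Q_ex(2k, k) ≤ (8/9) C(2k, k)` for `k ≥ 7`.
-/

set_option autoImplicit false

namespace Pool.Agent.H155.QX

variable {n : ℕ}

/-- the image of a set under a permutation -/
def im (π : Equiv.Perm (Fin n)) (A : Finset (Fin n)) : Finset (Fin n) := A.map π.toEmbedding

lemma card_im (π : Equiv.Perm (Fin n)) (A : Finset (Fin n)) : (im π A).card = A.card := by
  unfold im
  rw [Finset.card_map]

lemma im_mul (σ π : Equiv.Perm (Fin n)) (A : Finset (Fin n)) : im (σ * π) A = im σ (im π A) := by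
  unfold im
  rw [Finset.map_map]
  rfl

lemma im_inj (π : Equiv.Perm (Fin n)) : Function.Injective (im π) :=
  Finset.map_injective _

lemma mem_im (π : Equiv.Perm (Fin n)) (A : Finset (Fin n)) (i : Fin n) : π i ∈ im π A ↔ i ∈ A := by
  unfold im
  rw [Finset.mem_map]
  constructor
  · rintro ⟨j, hj, h⟩
    have : j = i := π.injective h
    rwa [← this]
  · intro h
    exact ⟨i, h, rfl⟩

lemma im_one (A : Finset (Fin n)) : im 1 A = A := by
  ext i
  exact mem_im 1 A i

/-- the permutations act transitively on the sets of a given cardinality -/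
lemma exists_perm {A B : Finset (Fin n)} (h : A.card = B.card) :
    ∃ σ : Equiv.Perm (Fin n), im σ A = B := by
  classical
  obtain ⟨e, -⟩ : ∃ e : {x // x ∈ A} ≃ {x // x ∈ B}, True := ⟨Finset.equivOfCardEq h, trivial⟩
  refine ⟨e.extendSubtype, Finset.eq_of_subset_of_card_le ?_ ?_⟩
  · intro i hi
    unfold im at hi
    rw [Finset.mem_map] at hi
    obtain ⟨j, hj, rfl⟩ := hi
    exact e.extendSubtype_mem j hj
  · rw [card_im, h]

open scoped Classical in
/-- double counting with permutations -/
lemma orbit (k : ℕ) {T : Finset (Fin n)} (hT : T.card = k) (p : Finset (Fin n) → Prop) :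
    (Finset.univ.filter fun π : Equiv.Perm (Fin n) => p (im π T)).card * n.choose k =
      n.factorial * ((Finset.powersetCard k Finset.univ).filter p).card := by
  obtain ⟨c, hc⟩ : ∃ c : ℕ, c = (Finset.univ.filter fun π : Equiv.Perm (Fin n) => im π T = T).card :=
    ⟨_, rfl⟩
  have h1 : ∀ A : Finset (Fin n), A.card = k →
      (Finset.univ.filter fun π : Equiv.Perm (Fin n) => im π T = A).card = c := by
    intro A hA
    obtain ⟨σ, hσ⟩ := exists_perm (hT.trans hA.symm)
    rw [hc]
    symm
    refine Finset.card_nbij' (fun π => σ * π) (fun π => σ⁻¹ * π) ?_ ?_ ?_ ?_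
    · intro π hπ
      rw [Finset.mem_coe, Finset.mem_filter] at hπ ⊢
      refine ⟨Finset.mem_univ _, ?_⟩
      rw [im_mul, hπ.2, hσ]
    · intro π hπ
      rw [Finset.mem_coe, Finset.mem_filter] at hπ ⊢
      refine ⟨Finset.mem_univ _, ?_⟩
      apply im_inj σ
      rw [← im_mul, mul_inv_cancel_left, hπ.2, hσ]
    · intro π _
      exact inv_mul_cancel_left σ π
    · intro π _
      exact mul_inv_cancel_left σ π
  have h2 : ∀ q : Finset (Fin n) → Prop,
      (Finset.univ.filter fun π : Equiv.Perm (Fin n) => q (im π T)).card =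
      ((Finset.powersetCard k Finset.univ).filter q).card * c := by
    intro q
    rw [Finset.card_eq_sum_card_fiberwise (f := fun π => im π T)
      (t := (Finset.powersetCard k Finset.univ).filter q)]
    · rw [← smul_eq_mul, ← Finset.sum_const]
      refine Finset.sum_congr rfl fun A hA => ?_
      rw [Finset.mem_filter, Finset.mem_powersetCard] at hA
      rw [← h1 A hA.1.2, Finset.filter_filter]
      congr 1
      ext π
      simp only [Finset.mem_filter, Finset.mem_univ, true_and]
      constructor
      · rintro ⟨-, h⟩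
        exact h
      · intro h
        exact ⟨by rw [h]; exact hA.2, h⟩
    · intro π hπ
      rw [Finset.mem_coe, Finset.mem_filter] at hπ
      rw [Finset.mem_coe, Finset.mem_filter, Finset.mem_powersetCard]
      exact ⟨⟨Finset.subset_univ _, by rw [card_im, hT]⟩, hπ.2⟩
  have h3 : n.factorial = n.choose k * c := by
    have h3 := h2 (fun _ => True)
    simpa [Fintype.card_perm, Finset.card_powersetCard] using h3
  rw [h2 p, h3]
  ring

open scoped Classical in
/-- the sets on which the state is not maximally mixed -/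
noncomputable def nb (ψ : St n) (k : ℕ) : Finset (Finset (Fin n)) :=
  (Finset.powersetCard k Finset.univ).filter fun A => ¬ MaxMixed ψ A

lemma m_add_nb (ψ : St n) (k : ℕ) : m k ψ + (nb ψ k).card = n.choose k := by
  classical
  have h1 : m k ψ = ((Finset.powersetCard k Finset.univ).filter fun A => MaxMixed ψ A).card := by
    unfold m
    rw [← Set.ncard_coe_finset]
    congr 1
    ext A
    simp [Finset.mem_powersetCard]
  unfold nb
  rw [h1, Finset.card_filter_add_card_filter_not, Finset.card_powersetCard, Finset.card_univ,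
    Fintype.card_fin]

theorem bad_ge {k : ℕ} (hk : 7 ≤ k) {ψ : St (k + k)} (hψ : ip ψ ψ = 1) :
    (k + k).choose k ≤ 9 * (nb ψ k).card := by
  classical
  -- a configuration
  obtain ⟨U, -, hU⟩ := Finset.exists_subset_card_eq (s := (Finset.univ : Finset (Fin (k + k))))
    (n := 9) (by rw [Finset.card_univ, Fintype.card_fin]; omega)
  obtain ⟨S, hSU, hS⟩ := Finset.exists_subset_card_eq (s := Uᶜ) (n := k - 7) (by
    rw [Finset.card_compl, Fintype.card_fin, hU]; omega)
  have hd : Disjoint S U := Finset.disjoint_left.2 fun i hi hiU => (Finset.mem_compl.1 (hSU hi)) hiU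
  have hS7 : S.card + 7 = k := by omega
  -- the sets
  have hTc : ∀ V ∈ Finset.powersetCard 2 U, (S ∪ (U \ V)).card = k := by
    intro V hV
    rw [Finset.mem_powersetCard] at hV
    have := card_SU hd hS7 hU hV.1
    omega
  have himd : ∀ (π : Equiv.Perm (Fin (k + k))) (V : Finset (Fin (k + k))),
      im π (S ∪ (U \ V)) = im π S ∪ (im π U \ im π V) := by
    intro π V
    ext i
    obtain ⟨j, rfl⟩ := π.surjective i
    simp only [mem_im, Finset.mem_union, Finset.mem_sdiff]
  have hloc : ∀ π : Equiv.Perm (Fin (k + k)), 4 ≤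
      ((Finset.powersetCard 2 U).filter fun V => ¬ MaxMixed ψ (im π (S ∪ (U \ V)))).card := by
    intro π
    have hd' : Disjoint (im π S) (im π U) := by
      rw [Finset.disjoint_left]
      intro i hi hi'
      obtain ⟨j, rfl⟩ := π.surjective i
      rw [mem_im] at hi hi'
      exact Finset.disjoint_left.1 hd hi hi'
    have h1 := local_bad hψ hd' (by rw [card_im]; exact hS7) (by rw [card_im]; exact hU)
    refine h1.trans ?_
    unfold bv
    refine Finset.card_le_card_of_surjOn (im π) ?_
    intro V' hV'
    rw [Finset.mem_coe, Finset.mem_filter, Finset.mem_powersetCard] at hV'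
    refine ⟨im π⁻¹ V', ?_, ?_⟩
    · have e1 : im π (im π⁻¹ V') = V' := by
        rw [← im_mul, mul_inv_cancel, im_one]
      rw [Finset.mem_coe, Finset.mem_filter, Finset.mem_powersetCard]
      refine ⟨⟨?_, ?_⟩, ?_⟩
      · intro i hi
        rw [← mem_im π, e1] at hi
        exact (mem_im π U i).1 (hV'.1.1 hi)
      · rw [card_im]; exact hV'.1.2
      · rw [himd, e1]; exact hV'.2
    · rw [← im_mul, mul_inv_cancel, im_one]
  have h1 : (k + k).factorial * 4 ≤ ∑ V ∈ Finset.powersetCard 2 U,
      (Finset.univ.filter fun π : Equiv.Perm (Fin (k + k)) =>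
        ¬ MaxMixed ψ (im π (S ∪ (U \ V)))).card := by
    calc (k + k).factorial * 4 = ∑ _π : Equiv.Perm (Fin (k + k)), 4 := by
          rw [Finset.sum_const, Finset.card_univ, Fintype.card_perm, Fintype.card_fin, smul_eq_mul]
      _ ≤ ∑ π : Equiv.Perm (Fin (k + k)), ((Finset.powersetCard 2 U).filter fun V =>
            ¬ MaxMixed ψ (im π (S ∪ (U \ V)))).card := Finset.sum_le_sum fun π _ => hloc π
      _ = _ := by
          simp only [Finset.card_filter]
          exact Finset.sum_comm
  have h2 : (∑ V ∈ Finset.powersetCard 2 U, (Finset.univ.filter fun π : Equiv.Perm (Fin (k + k)) =>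
        ¬ MaxMixed ψ (im π (S ∪ (U \ V)))).card) * (k + k).choose k =
      36 * ((k + k).factorial * (nb ψ k).card) := by
    rw [Finset.sum_mul]
    have h3 : ∀ V ∈ Finset.powersetCard 2 U, (Finset.univ.filter fun π : Equiv.Perm (Fin (k + k)) =>
        ¬ MaxMixed ψ (im π (S ∪ (U \ V)))).card * (k + k).choose k =
        (k + k).factorial * (nb ψ k).card := by
      intro V hV
      unfold nb
      convert orbit k (hTc V hV) (fun A => ¬ MaxMixed ψ A)
    rw [Finset.sum_congr rfl h3, Finset.sum_const, Finset.card_powersetCard, hU, smul_eq_mul]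
    rfl
  have h4 := Nat.mul_le_mul_right ((k + k).choose k) h1
  rw [h2] at h4
  have h5 : 0 < (k + k).factorial := Nat.factorial_pos _
  have h6 : (k + k).factorial * (4 * (k + k).choose k) ≤ (k + k).factorial * (36 * (nb ψ k).card) := by
    calc (k + k).factorial * (4 * (k + k).choose k) = (k + k).factorial * 4 * (k + k).choose k := by
          ring
      _ ≤ 36 * ((k + k).factorial * (nb ψ k).card) := h4
      _ = _ := by ring
  have h7 := Nat.le_of_mul_le_mul_left h6 h5
  omega

/-- the upper bound -/
theorem upper {k : ℕ} (hk : 7 ≤ k) : 9 * Qex (k + k) k ≤ 8 * (k + k).choose k := by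
  have hne : {j : ℕ | ∃ ψ : (Fin (k + k) → ZMod 2) → ℂ, ∑ x, ‖ψ x‖ ^ 2 = 1 ∧
      m k ψ = j}.Nonempty := by
    refine ⟨_, Pi.single 0 1, ?_, rfl⟩
    rw [Finset.sum_eq_single 0]
    · simp
    · intro y _ hy
      rw [Pi.single_eq_of_ne hy]
      simp
    · intro h
      exact absurd (Finset.mem_univ _) h
  obtain ⟨ψ, hn, hψ⟩ := Nat.sSup_mem hne (bdd (k + k) k)
  have hQ : Qex (k + k) k = m k ψ := hψ.symm
  have hip : ip ψ ψ = 1 := by rw [ip_self, hn, Complex.ofReal_one]
  have h1 := bad_ge hk hip
  have h2 := m_add_nb ψ k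
  rw [hQ]
  omega

end Pool.Agent.H155.QX
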