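import Mathlib
import Pool.Agent.H155.QX.Upper

/-!
Upper bounds with the theorem of Turán: the window inequality and the mean over the windows.
-/

set_option autoImplicit false

open Matrix

namespace Pool.Agent.H155.QX

variable {n : ℕ}

/-- one more qubit multiplies `pu` at most by four -/
lemma pu_le_four {ψ : St n} {A B : Finset (Fin n)} (hBA : B ⊆ A) (hc : A.card = B.card + 1) :
    pu ψ A ≤ 4 * pu ψ B := by
  have h1 := pu_compl ψ A
  have h2 := pu_compl ψ B
  have h3 : pu ψ Aᶜ ≤ pu ψ Bᶜ := pu_mono ψ (Finset.compl_subset_compl.2 hBA)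
  have h4 : Bᶜ.card = Aᶜ.card + 1 := by
    have e1 := Finset.card_add_card_compl A
    have e2 := Finset.card_add_card_compl B
    omega
  rw [h4, pow_succ] at h2
  rw [hc, pow_succ] at h1
  have h5 : (0 : ℝ) < 2 ^ Aᶜ.card := by positivity
  have h6 : (0 : ℝ) < 2 ^ B.card := by positivity
  have h7 : (2 : ℝ) ^ B.card * 2 * pu ψ Aᶜ ≤ 2 ^ B.card * 2 * pu ψ Bᶜ :=
    mul_le_mul_of_nonneg_left h3 (by positivity)
  have h8 : (2 : ℝ) ^ Aᶜ.card * pu ψ A ≤ 2 ^ Aᶜ.card * (4 * pu ψ B) := by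
    rw [h1]
    refine h7.trans (le_of_eq ?_)
    linear_combination (-2 : ℝ) * h2
  exact le_of_mul_le_mul_left h8 h5

lemma pu_ge {ψ : St n} (hψ : ip ψ ψ = 1) {A : Finset (Fin n)} {d : ℕ} (hc : A.card = Aᶜ.card + d) :
    (2 : ℝ) ^ d ≤ pu ψ A := by
  have h1 := pu_compl ψ A
  have h2 := one_le_pu hψ Aᶜ
  have h5 : (0 : ℝ) < 2 ^ Aᶜ.card := by positivity
  rw [hc, pow_add] at h1
  have h3 : (2 : ℝ) ^ Aᶜ.card * 2 ^ d ≤ 2 ^ Aᶜ.card * pu ψ A := by
    rw [h1]
    exact le_mul_of_one_le_right (by positivity) h2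
  exact le_of_mul_le_mul_left h3 h5

/-- the coefficients -/
noncomputable def gf (a : ℝ) (i : ℕ) : ℝ := if i = 0 then a else if i = 1 then a / 4 else 1

theorem window {ψ : St n} (hψ : ip ψ ψ = 1) {S U : Finset (Fin n)} (hd : Disjoint S U)
    (hg : ∀ V ⊆ U, V.card = 2 → MaxMixed ψ (S ∪ (U \ V))) :
    0 ≤ ∑ i ∈ Finset.range (U.card + 1),
      (U.card.choose i : ℝ) * ((-1) ^ i * gf (pu ψ (S ∪ U)) i) := by
  classical
  have hone : ∀ V ⊆ U, 2 ≤ V.card → pu ψ (S ∪ (U \ V)) = 1 := by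
    intro V hV hV2
    obtain ⟨V', hV', hV'2⟩ := Finset.exists_subset_card_eq hV2
    apply le_antisymm
    · rw [← pu_of_maxMixed (hg V' (hV'.trans hV) hV'2)]
      exact pu_mono ψ (Finset.union_subset_union_right (Finset.sdiff_subset_sdiff (le_refl U) hV'))
    · exact one_le_pu hψ _
  have hterm : ∀ V ∈ U.powerset, (-1 : ℝ) ^ V.card * pu ψ (S ∪ (U \ V)) ≤
      (-1 : ℝ) ^ V.card * gf (pu ψ (S ∪ U)) V.card := by
    intro V hV
    rw [Finset.mem_powerset] at hV
    rcases Nat.lt_or_ge V.card 1 with h0 | h1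
    · have hV0 : V.card = 0 := by omega
      have hVe : V = ∅ := Finset.card_eq_zero.1 hV0
      rw [hVe]
      simp [gf]
    rcases Nat.lt_or_ge V.card 2 with h0 | h2
    · have hV1 : V.card = 1 := by omega
      have h3 : pu ψ (S ∪ U) ≤ 4 * pu ψ (S ∪ (U \ V)) := by
        apply pu_le_four (Finset.union_subset_union_right Finset.sdiff_subset)
        rw [Finset.card_union_of_disjoint hd,
          Finset.card_union_of_disjoint (hd.mono_right Finset.sdiff_subset),
          Finset.card_sdiff_of_subset hV, hV1]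
        have := Finset.card_le_card hV
        omega
      rw [hV1]
      simp only [gf]
      norm_num
      linarith
    · rw [hone V hV h2]
      have hcf : gf (pu ψ (S ∪ U)) V.card = 1 := by
        unfold gf
        rw [if_neg (by omega), if_neg (by omega)]
      rw [hcf]
  have h1 := pos ψ hd
  have h2 := h1.trans (Finset.sum_le_sum hterm)
  rw [Finset.sum_powerset_apply_card (fun i => (-1 : ℝ) ^ i * gf (pu ψ (S ∪ U)) i)] at h2
  simpa only [nsmul_eq_mul] using h2

/-- `n = 2k`: there is no window with six qubits -/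
theorem no_six {k : ℕ} {ψ : St (k + k)} (hψ : ip ψ ψ = 1) (S U : Finset (Fin (k + k)))
    (hd : Disjoint S U) (hSU : S.card + U.card = k + 2) (hU : U.card = 5 + 1) :
    ¬ ∀ V ⊆ U, V.card = 2 → MaxMixed ψ (S ∪ (U \ V)) := by
  intro hg
  have h1 := window hψ hd hg
  have h2 : (2 : ℝ) ^ 4 ≤ pu ψ (S ∪ U) := by
    apply pu_ge hψ
    have e1 := Finset.card_add_card_compl (S ∪ U)
    rw [Fintype.card_fin, Finset.card_union_of_disjoint hd] at e1
    rw [Finset.card_union_of_disjoint hd]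
    omega
  rw [hU] at h1
  simp only [Finset.sum_range_succ, Finset.sum_range_zero, gf, Nat.choose] at h1
  norm_num at h1 h2
  linarith

/-- `n = 2k + 1`: there is no window with eight qubits -/
theorem no_eight {k : ℕ} {ψ : St (k + k + 1)} (hψ : ip ψ ψ = 1) (S U : Finset (Fin (k + k + 1)))
    (hd : Disjoint S U) (hSU : S.card + U.card = k + 2) (hU : U.card = 7 + 1) :
    ¬ ∀ V ⊆ U, V.card = 2 → MaxMixed ψ (S ∪ (U \ V)) := by
  intro hg
  have h1 := window hψ hd hg
  have h2 : (2 : ℝ) ^ 3 ≤ pu ψ (S ∪ U) := by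
    apply pu_ge hψ
    have e1 := Finset.card_add_card_compl (S ∪ U)
    rw [Fintype.card_fin, Finset.card_union_of_disjoint hd] at e1
    rw [Finset.card_union_of_disjoint hd]
    omega
  rw [hU] at h1
  simp only [Finset.sum_range_succ, Finset.sum_range_zero, gf, Nat.choose] at h1
  norm_num at h1 h2
  linarith

/-- the graph of the pairs of qubits in `W` whose removal leaves a set on which the state (with
permuted qubits) is maximally mixed -/
def gr (ψ : St n) (W : Finset (Fin n)) (π : Equiv.Perm (Fin n)) : SimpleGraph {x // x ∈ W} where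
  Adj v w := v ≠ w ∧ MaxMixed ψ (im π (W \ {v.1, w.1}))
  symm := ⟨fun v w h => ⟨h.1.symm, by rw [Finset.pair_comm]; exact h.2⟩⟩
  loopless := ⟨fun v h => h.1 rfl⟩

lemma gr_cliqueFree {k r : ℕ} {ψ : St n} {W : Finset (Fin n)} (hW : W.card = k + 2)
    (hno : ∀ S U : Finset (Fin n), Disjoint S U → S.card + U.card = k + 2 → U.card = r + 1 →
      ¬ ∀ V ⊆ U, V.card = 2 → MaxMixed ψ (S ∪ (U \ V))) (π : Equiv.Perm (Fin n)) :
    (gr ψ W π).CliqueFree (r + 1) := by
  classical
  intro t ht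
  obtain ⟨U0, hU0e⟩ : ∃ U0, U0 = t.map (Function.Embedding.subtype (· ∈ W)) := ⟨_, rfl⟩
  have hU0 : ∀ i, i ∈ U0 ↔ ∃ h : i ∈ W, (⟨i, h⟩ : {x // x ∈ W}) ∈ t := by
    intro i
    rw [hU0e]
    simp
  have hc : U0.card = r + 1 := by rw [hU0e, Finset.card_map, ht.card_eq]
  have hUW : U0 ⊆ W := fun i hi => ((hU0 i).1 hi).1
  refine hno (im π (W \ U0)) (im π U0) ?_ ?_ (by rw [card_im, hc]) ?_
  · rw [Finset.disjoint_left]
    intro i hi hi'
    obtain ⟨j, rfl⟩ := π.surjective i
    rw [mem_im] at hi hi'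
    exact (Finset.mem_sdiff.1 hi).2 hi'
  · rw [card_im, card_im, Finset.card_sdiff_add_card_eq_card hUW, hW]
  · intro V hV hV2
    obtain ⟨V0, hV0⟩ : ∃ V0, V0 = im π⁻¹ V := ⟨_, rfl⟩
    have e1 : im π V0 = V := by rw [hV0, ← im_mul, mul_inv_cancel, im_one]
    have hV02 : V0.card = 2 := by rw [hV0, card_im, hV2]
    have hV0U : V0 ⊆ U0 := by
      intro i hi
      rw [← mem_im π, e1] at hi
      exact (mem_im π U0 i).1 (hV hi)
    obtain ⟨x, y, hxy, hxy2⟩ := Finset.card_eq_two.1 hV02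
    have e2 : im π (W \ U0) ∪ (im π U0 \ V) = im π (W \ {x, y}) := by
      rw [← hxy2, ← e1]
      ext i
      obtain ⟨j, rfl⟩ := π.surjective i
      simp only [mem_im, Finset.mem_union, Finset.mem_sdiff]
      constructor
      · rintro (⟨h1, h2⟩ | ⟨h1, h2⟩)
        · exact ⟨h1, fun h3 => h2 (hV0U h3)⟩
        · exact ⟨hUW h1, h2⟩
      · rintro ⟨h1, h2⟩
        by_cases h3 : j ∈ U0
        · exact Or.inr ⟨h3, h2⟩
        · exact Or.inl ⟨h1, h3⟩
    rw [e2]
    have hx : x ∈ U0 := hV0U (by rw [hxy2]; simp)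
    have hy : y ∈ U0 := hV0U (by rw [hxy2]; simp)
    obtain ⟨hxW, hxt⟩ := (hU0 x).1 hx
    obtain ⟨hyW, hyt⟩ := (hU0 y).1 hy
    exact (ht.isClique hxt hyt (fun h => hxy (congrArg Subtype.val h))).2

open scoped Classical in
lemma m_eq (ψ : St n) (k : ℕ) :
    m k ψ = ((Finset.powersetCard k Finset.univ).filter fun A => MaxMixed ψ A).card := by
  unfold m
  rw [← Set.ncard_coe_finset]
  congr 1
  ext A
  simp [Finset.mem_powersetCard]

open scoped Classical in
theorem avg {k r : ℕ} {ψ : St n} (hkn : k + 2 ≤ n)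
    (hno : ∀ S U : Finset (Fin n), Disjoint S U → S.card + U.card = k + 2 → U.card = r + 1 →
      ¬ ∀ V ⊆ U, V.card = 2 → MaxMixed ψ (S ∪ (U \ V))) :
    (k + 2) * (k + 1) * m k ψ ≤
      2 * (SimpleGraph.turanGraph (k + 2) r).edgeFinset.card * n.choose k := by
  obtain ⟨t, ht⟩ : ∃ t, t = (SimpleGraph.turanGraph (k + 2) r).edgeFinset.card := ⟨_, rfl⟩
  obtain ⟨W, -, hW⟩ := Finset.exists_subset_card_eq (s := (Finset.univ : Finset (Fin n)))
    (n := k + 2) (by rw [Finset.card_univ, Fintype.card_fin]; exact hkn)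
  have h1 : ∀ π : Equiv.Perm (Fin n), ∑ v : {x // x ∈ W}, ∑ w : {x // x ∈ W},
      (if v ≠ w ∧ MaxMixed ψ (im π (W \ {v.1, w.1})) then 1 else 0) ≤ 2 * t := by
    intro π
    have h2 := (gr_cliqueFree hW hno π).card_edgeFinset_le
    simp only [Fintype.card_coe, hW] at h2
    have h3 := SimpleGraph.sum_degrees_eq_twice_card_edges (gr ψ W π)
    have h4 : ∀ v : {x // x ∈ W}, (gr ψ W π).degree v = ∑ w : {x // x ∈ W},
        (if v ≠ w ∧ MaxMixed ψ (im π (W \ {v.1, w.1})) then 1 else 0) := by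
      intro v
      rw [← SimpleGraph.card_neighborFinset_eq_degree, SimpleGraph.neighborFinset_eq_filter,
        Finset.card_filter]
      exact Finset.sum_congr rfl fun w _ => if_congr Iff.rfl rfl rfl
    rw [← Finset.sum_congr rfl fun v _ => h4 v, h3, ht, SimpleGraph.card_edgeFinset_turanGraph]
    exact Nat.mul_le_mul_left 2 h2
  have h5 : (∑ π : Equiv.Perm (Fin n), ∑ v : {x // x ∈ W}, ∑ w : {x // x ∈ W},
      (if v ≠ w ∧ MaxMixed ψ (im π (W \ {v.1, w.1})) then 1 else 0)) * n.choose k =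
      (k + 2) * (k + 1) * (n.factorial * m k ψ) := by
    have h6 : ∀ v w : {x // x ∈ W}, (∑ π : Equiv.Perm (Fin n),
        (if v ≠ w ∧ MaxMixed ψ (im π (W \ {v.1, w.1})) then 1 else 0)) * n.choose k =
        if v ≠ w then n.factorial * m k ψ else 0 := by
      intro v w
      by_cases h : v ≠ w
      · rw [if_pos h, m_eq]
        have h7 : (W \ {v.1, w.1}).card = k := by
          rw [Finset.card_sdiff_of_subset, hW, Finset.card_pair]
          · rfl
          · exact fun h' => h (Subtype.ext h')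
          · intro i hi
            rw [Finset.mem_insert, Finset.mem_singleton] at hi
            rcases hi with rfl | rfl
            · exact v.2
            · exact w.2
        rw [← orbit k h7 (fun A => MaxMixed ψ A), Finset.card_filter]
        congr 1
        exact Finset.sum_congr rfl fun π _ => if_congr (and_iff_right h) rfl rfl
      · rw [if_neg h]
        rw [Finset.sum_eq_zero fun π _ => if_neg fun h' => h h'.1, zero_mul]
    rw [Finset.sum_comm, Finset.sum_mul]
    have h8 : ∀ v : {x // x ∈ W}, (∑ π : Equiv.Perm (Fin n), ∑ w : {x // x ∈ W},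
        (if v ≠ w ∧ MaxMixed ψ (im π (W \ {v.1, w.1})) then 1 else 0)) * n.choose k =
        (k + 1) * (n.factorial * m k ψ) := by
      intro v
      rw [Finset.sum_comm, Finset.sum_mul, Finset.sum_congr rfl fun w _ => h6 v w,
        ← Finset.sum_filter, Finset.sum_const, Finset.filter_ne, Finset.card_erase_of_mem
        (Finset.mem_univ _), Finset.card_univ, Fintype.card_coe, hW, smul_eq_mul]
      rfl
    rw [Finset.sum_congr rfl fun v _ => h8 v, Finset.sum_const, Finset.card_univ,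
      Fintype.card_coe, hW, smul_eq_mul]
    ring
  have h9 : ∑ π : Equiv.Perm (Fin n), ∑ v : {x // x ∈ W}, ∑ w : {x // x ∈ W},
      (if v ≠ w ∧ MaxMixed ψ (im π (W \ {v.1, w.1})) then 1 else 0) ≤ n.factorial * (2 * t) := by
    refine (Finset.sum_le_sum fun π _ => h1 π).trans (le_of_eq ?_)
    rw [Finset.sum_const, Finset.card_univ, Fintype.card_perm, Fintype.card_fin, smul_eq_mul]
  have h10 := Nat.mul_le_mul_right (n.choose k) h9
  rw [h5] at h10
  have h11 : 0 < n.factorial := Nat.factorial_pos _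
  have h12 : n.factorial * ((k + 2) * (k + 1) * m k ψ) ≤ n.factorial * (2 * t * n.choose k) := by
    calc n.factorial * ((k + 2) * (k + 1) * m k ψ) =
          (k + 2) * (k + 1) * (n.factorial * m k ψ) := by ring
      _ ≤ n.factorial * (2 * t) * n.choose k := h10
      _ = _ := by ring
  rw [← ht]
  exact Nat.le_of_mul_le_mul_left h12 h11

lemma exists_max (n k : ℕ) : ∃ ψ : St n, ip ψ ψ = 1 ∧ Qex n k = m k ψ := by
  have hne : {j : ℕ | ∃ ψ : (Fin n → ZMod 2) → ℂ, ∑ x, ‖ψ x‖ ^ 2 = 1 ∧ m k ψ = j}.Nonempty := by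
    refine ⟨_, Pi.single 0 1, ?_, rfl⟩
    rw [Finset.sum_eq_single 0]
    · simp
    · intro y _ hy
      rw [Pi.single_eq_of_ne hy]
      simp
    · intro h
      exact absurd (Finset.mem_univ _) h
  obtain ⟨ψ, hn, hψ⟩ := Nat.sSup_mem hne (bdd n k)
  exact ⟨ψ, by rw [ip_self, hn, Complex.ofReal_one], hψ.symm⟩

theorem turan_bound {n k r : ℕ} (hkn : k + 2 ≤ n ∨ k + 2 < r)
    (hno : ∀ ψ : St n, ip ψ ψ = 1 → ∀ S U : Finset (Fin n), Disjoint S U →
      S.card + U.card = k + 2 → U.card = r + 1 →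
      ¬ ∀ V ⊆ U, V.card = 2 → MaxMixed ψ (S ∪ (U \ V))) :
    (k + 2).choose 2 * Qex n k ≤
      (SimpleGraph.turanGraph (k + 2) r).edgeFinset.card * n.choose k := by
  obtain ⟨ψ, hψ, hQ⟩ := exists_max n k
  rw [hQ]
  rcases hkn with h | h
  · have h1 := avg h (hno ψ hψ)
    have h2 : (k + 2).choose 2 * 2 = (k + 2) * (k + 1) := by
      rw [Nat.choose_two_right, Nat.div_two_mul_two_of_even (Nat.even_mul_pred_self _)]
      rfl
    have h3 : 2 * ((k + 2).choose 2 * m k ψ) ≤
        2 * ((SimpleGraph.turanGraph (k + 2) r).edgeFinset.card * n.choose k) := by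
      calc 2 * ((k + 2).choose 2 * m k ψ) = (k + 2).choose 2 * 2 * m k ψ := by ring
        _ = (k + 2) * (k + 1) * m k ψ := by rw [h2]
        _ ≤ _ := h1
        _ = _ := by ring
    omega
  · have h1 := m_add_nb ψ k
    rw [SimpleGraph.card_edgeFinset_turanGraph, Nat.mod_eq_of_lt h, Nat.sub_self, zero_mul,
      Nat.zero_div, zero_add]
    exact Nat.mul_le_mul_left _ (by omega)

theorem turan_even (k : ℕ) : (k + 2).choose 2 * Qex (k + k) k ≤
    (SimpleGraph.turanGraph (k + 2) 5).edgeFinset.card * (k + k).choose k :=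
  turan_bound (by omega) fun _ hψ S U hd hSU hU => no_six hψ S U hd hSU hU

theorem turan_odd (k : ℕ) : (k + 2).choose 2 * Qex (k + k + 1) k ≤
    (SimpleGraph.turanGraph (k + 2) 7).edgeFinset.card * (k + k + 1).choose k :=
  turan_bound (by omega) fun _ hψ S U hd hSU hU => no_eight hψ S U hd hSU hU

/-- the simpler form of the bounds -/
lemma simple_form {k r Q C : ℕ}
    (h : (k + 2).choose 2 * Q ≤ (SimpleGraph.turanGraph (k + 2) r).edgeFinset.card * C) :
    r * (k + 1) * Q ≤ (r - 1) * (k + 2) * C := by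
  have h1 := SimpleGraph.mul_card_edgeFinset_turanGraph_le (n := k + 2) (r := r)
  have h2 : (k + 2).choose 2 * 2 = (k + 2) * (k + 1) := by
    rw [Nat.choose_two_right, Nat.div_two_mul_two_of_even (Nat.even_mul_pred_self _)]
    rfl
  have h3 : (k + 2) * (r * (k + 1) * Q) ≤ (k + 2) * ((r - 1) * (k + 2) * C) := by
    calc (k + 2) * (r * (k + 1) * Q) = r * ((k + 2) * (k + 1)) * Q := by ring
      _ = 2 * r * ((k + 2).choose 2 * Q) := by rw [← h2]; ring
      _ ≤ 2 * r * ((SimpleGraph.turanGraph (k + 2) r).edgeFinset.card * C) :=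
          Nat.mul_le_mul_left _ h
      _ = 2 * r * (SimpleGraph.turanGraph (k + 2) r).edgeFinset.card * C := by ring
      _ ≤ (r - 1) * (k + 2) ^ 2 * C := Nat.mul_le_mul_right _ h1
      _ = _ := by ring
  exact Nat.le_of_mul_le_mul_left h3 (by omega)

end Pool.Agent.H155.QX
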