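import Mathlib
import Pool.Agent.H155.QX.Window

/-!
The second moment inequality.
-/

set_option autoImplicit false

open Matrix

namespace Pool.Agent.H155.QX

variable {n : ℕ}

/-- `pu` without the identity -/
lemma pu_sub_one {ψ : St n} (hψ : ip ψ ψ = 1) (A : Finset (Fin n)) :
    pu ψ A - 1 = ∑ x : Fin n → ZMod 2, ∑ z : Fin n → ZMod 2,
      if (∀ i, i ∉ A → x i = 0 ∧ z i = 0) ∧ ¬ (x = 0 ∧ z = 0) then
        ‖ip ψ (P x z ψ)‖ ^ 2 else 0 := by
  have h1 : pu ψ A = ∑ x : Fin n → ZMod 2, ∑ z : Fin n → ZMod 2,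
      ((if (∀ i, i ∉ A → x i = 0 ∧ z i = 0) ∧ ¬ (x = 0 ∧ z = 0) then
      ‖ip ψ (P x z ψ)‖ ^ 2 else 0) + if x = 0 ∧ z = 0 then 1 else 0) := by
    unfold pu
    refine Finset.sum_congr rfl fun x _ => Finset.sum_congr rfl fun z _ => ?_
    by_cases h : x = 0 ∧ z = 0
    · obtain ⟨rfl, rfl⟩ := h
      rw [if_pos (fun i _ => ⟨rfl, rfl⟩), P_zero, hψ, if_neg (by simp), if_pos ⟨rfl, rfl⟩]
      norm_num
    · rw [if_neg h, add_zero]
      simp only [h, not_false_eq_true, and_true]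
  rw [h1]
  simp only [Finset.sum_add_distrib]
  have h2 : ∑ x : Fin n → ZMod 2, ∑ z : Fin n → ZMod 2,
      (if x = 0 ∧ z = 0 then (1 : ℝ) else 0) = 1 := by
    rw [Finset.sum_eq_single 0, Finset.sum_eq_single 0]
    · rw [if_pos ⟨rfl, rfl⟩]
    · intro z _ hz
      rw [if_neg fun h => hz h.2]
    · intro h
      exact absurd (Finset.mem_univ _) h
    · intro x _ hx
      exact Finset.sum_eq_zero fun z _ => if_neg fun h => hx h.1
    · intro h
      exact absurd (Finset.mem_univ _) h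
  rw [h2]
  ring

lemma moment {ψ : St n} (hψ : ip ψ ψ = 1) {S U : Finset (Fin n)} (hd : Disjoint S U) (l : ℝ) :
    0 ≤ ∑ v ∈ U, ∑ w ∈ U, (pu ψ (S ∪ (U \ {v, w})) - 1) -
      2 * l * ∑ v ∈ U, (pu ψ (S ∪ (U \ {v})) - 1) + l ^ 2 * (pu ψ (S ∪ U) - 1) := by
  classical
  have key : ∑ v ∈ U, ∑ w ∈ U, (pu ψ (S ∪ (U \ {v, w})) - 1) -
      2 * l * ∑ v ∈ U, (pu ψ (S ∪ (U \ {v})) - 1) + l ^ 2 * (pu ψ (S ∪ U) - 1) =
      ∑ x : Fin n → ZMod 2, ∑ z : Fin n → ZMod 2,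
        (∑ v ∈ U, ∑ w ∈ U, (if (∀ i, i ∉ S ∪ (U \ {v, w}) → x i = 0 ∧ z i = 0) ∧
            ¬ (x = 0 ∧ z = 0) then ‖ip ψ (P x z ψ)‖ ^ 2 else 0) -
          2 * l * ∑ v ∈ U, (if (∀ i, i ∉ S ∪ (U \ {v}) → x i = 0 ∧ z i = 0) ∧
            ¬ (x = 0 ∧ z = 0) then ‖ip ψ (P x z ψ)‖ ^ 2 else 0) +
          l ^ 2 * (if (∀ i, i ∉ S ∪ U → x i = 0 ∧ z i = 0) ∧
            ¬ (x = 0 ∧ z = 0) then ‖ip ψ (P x z ψ)‖ ^ 2 else 0)) := by
    have c1 : ∀ g : Fin n → (Fin n → ZMod 2) → (Fin n → ZMod 2) → ℝ,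
        ∑ v ∈ U, ∑ x, ∑ z, g v x z = ∑ x, ∑ z, ∑ v ∈ U, g v x z := by
      intro g
      rw [Finset.sum_comm]
      exact Finset.sum_congr rfl fun x _ => Finset.sum_comm
    have e1 : ∑ v ∈ U, ∑ w ∈ U, (pu ψ (S ∪ (U \ {v, w})) - 1) =
        ∑ x : Fin n → ZMod 2, ∑ z : Fin n → ZMod 2, ∑ v ∈ U, ∑ w ∈ U,
          (if (∀ i, i ∉ S ∪ (U \ {v, w}) → x i = 0 ∧ z i = 0) ∧
            ¬ (x = 0 ∧ z = 0) then ‖ip ψ (P x z ψ)‖ ^ 2 else 0) := by
      rw [← c1]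
      refine Finset.sum_congr rfl fun v _ => ?_
      rw [← c1]
      exact Finset.sum_congr rfl fun w _ => pu_sub_one hψ _
    have e2 : ∑ v ∈ U, (pu ψ (S ∪ (U \ {v})) - 1) =
        ∑ x : Fin n → ZMod 2, ∑ z : Fin n → ZMod 2, ∑ v ∈ U,
          (if (∀ i, i ∉ S ∪ (U \ {v}) → x i = 0 ∧ z i = 0) ∧
            ¬ (x = 0 ∧ z = 0) then ‖ip ψ (P x z ψ)‖ ^ 2 else 0) := by
      rw [← c1]
      exact Finset.sum_congr rfl fun v _ => pu_sub_one hψ _
    rw [e1, e2, pu_sub_one hψ (S ∪ U)]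
    simp only [Finset.sum_add_distrib, Finset.sum_sub_distrib, ← Finset.mul_sum]
  rw [key]
  refine Finset.sum_nonneg fun x _ => Finset.sum_nonneg fun z _ => ?_
  by_cases hxz : x = 0 ∧ z = 0
  · simp [hxz]
  simp only [hxz, not_false_eq_true, and_true]
  by_cases hs : ∀ i, i ∉ S ∪ U → x i = 0 ∧ z i = 0
  · rw [if_pos hs]
    obtain ⟨Z, hZ⟩ : ∃ Z : Finset (Fin n), Z = U.filter fun i => x i = 0 ∧ z i = 0 := ⟨_, rfl⟩
    have hV : ∀ V ⊆ U, (∀ i, i ∉ S ∪ (U \ V) → x i = 0 ∧ z i = 0) ↔ V ⊆ Z := by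
      intro V hVU
      constructor
      · intro h i hi
        rw [hZ, Finset.mem_filter]
        refine ⟨hVU hi, h i ?_⟩
        rw [Finset.mem_union, Finset.mem_sdiff]
        rintro (h2 | h2)
        · exact Finset.disjoint_left.1 hd h2 (hVU hi)
        · exact h2.2 hi
      · intro h i hi
        by_cases hiv : i ∈ V
        · have := h hiv
          rw [hZ, Finset.mem_filter] at this
          exact this.2
        · apply hs
          intro h3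
          apply hi
          rw [Finset.mem_union] at h3 ⊢
          rcases h3 with h3 | h3
          · exact Or.inl h3
          · exact Or.inr (Finset.mem_sdiff.2 ⟨h3, hiv⟩)
    have hZU : U.filter (· ∈ Z) = Z := by
      ext i
      rw [hZ]
      simp only [Finset.mem_filter]
      tauto
    have e1 : ∑ v ∈ U, (if ∀ i, i ∉ S ∪ (U \ {v}) → x i = 0 ∧ z i = 0 then
        ‖ip ψ (P x z ψ)‖ ^ 2 else 0) = Z.card * ‖ip ψ (P x z ψ)‖ ^ 2 := by
      rw [Finset.sum_congr rfl fun v hv => if_congr ((hV {v} (Finset.singleton_subset_iff.2 hv)).trans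
        Finset.singleton_subset_iff) rfl rfl, ← Finset.sum_filter, hZU, Finset.sum_const,
        nsmul_eq_mul]
    have e2 : ∑ v ∈ U, ∑ w ∈ U, (if ∀ i, i ∉ S ∪ (U \ {v, w}) → x i = 0 ∧ z i = 0 then
        ‖ip ψ (P x z ψ)‖ ^ 2 else 0) = Z.card * (Z.card * ‖ip ψ (P x z ψ)‖ ^ 2) := by
      have e3 : ∀ v ∈ U, ∑ w ∈ U, (if ∀ i, i ∉ S ∪ (U \ {v, w}) → x i = 0 ∧ z i = 0 then
          ‖ip ψ (P x z ψ)‖ ^ 2 else 0) = if v ∈ Z then Z.card * ‖ip ψ (P x z ψ)‖ ^ 2 else 0 := by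
        intro v hv
        have e4 : ∀ w ∈ U, (if ∀ i, i ∉ S ∪ (U \ {v, w}) → x i = 0 ∧ z i = 0 then
            ‖ip ψ (P x z ψ)‖ ^ 2 else 0) = if w ∈ Z then (if v ∈ Z then
            ‖ip ψ (P x z ψ)‖ ^ 2 else 0) else 0 := by
          intro w hw
          have hsub : ({v, w} : Finset (Fin n)) ⊆ U := by
            intro i hi
            rw [Finset.mem_insert, Finset.mem_singleton] at hi
            rcases hi with rfl | rfl
            · exact hv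
            · exact hw
          have h5 : (∀ i, i ∉ S ∪ (U \ {v, w}) → x i = 0 ∧ z i = 0) ↔ (v ∈ Z ∧ w ∈ Z) := by
            rw [hV {v, w} hsub, Finset.insert_subset_iff, Finset.singleton_subset_iff]
          by_cases h6 : v ∈ Z <;> by_cases h7 : w ∈ Z
          · rw [if_pos (h5.2 ⟨h6, h7⟩), if_pos h7, if_pos h6]
          · rw [if_neg fun h => h7 (h5.1 h).2, if_neg h7]
          · rw [if_neg fun h => h6 (h5.1 h).1, if_pos h7, if_neg h6]
          · rw [if_neg fun h => h6 (h5.1 h).1, if_neg h7]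
        rw [Finset.sum_congr rfl e4, ← Finset.sum_filter, hZU, Finset.sum_const, nsmul_eq_mul]
        split_ifs
        · rfl
        · rw [mul_zero]
      rw [Finset.sum_congr rfl e3, ← Finset.sum_filter, hZU, Finset.sum_const, nsmul_eq_mul]
    rw [e1, e2]
    have h9 : (Z.card : ℝ) * (Z.card * ‖ip ψ (P x z ψ)‖ ^ 2) -
        2 * l * (Z.card * ‖ip ψ (P x z ψ)‖ ^ 2) + l ^ 2 * ‖ip ψ (P x z ψ)‖ ^ 2 =
        ‖ip ψ (P x z ψ)‖ ^ 2 * (Z.card - l) ^ 2 := by ring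
    rw [h9]
    positivity
  · have hsub : ∀ V : Finset (Fin n), ¬ ∀ i, i ∉ S ∪ (U \ V) → x i = 0 ∧ z i = 0 := by
      intro V h
      apply hs
      intro i hi
      apply h
      intro h3
      apply hi
      rw [Finset.mem_union] at h3 ⊢
      rcases h3 with h3 | h3
      · exact Or.inl h3
      · exact Or.inr (Finset.mem_sdiff.1 h3).1
    simp only [hsub, hs, if_false, Finset.sum_const_zero, mul_zero, sub_zero, add_zero, le_refl]

end Pool.Agent.H155.QX
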