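import Mathlib
import Pool.Agent.H155.QX.Moment
import Pool.Agent.H155.QX.Caro

/-!
The recursion over the size of the windows.
-/

set_option autoImplicit false

open Matrix

namespace Pool.Agent.H155.QX

variable {n : ℕ}

lemma pu_one_of_subset {ψ : St n} (hψ : ip ψ ψ = 1) {A B : Finset (Fin n)} (h : A ⊆ B)
    (hB : pu ψ B = 1) : pu ψ A = 1 :=
  le_antisymm ((pu_mono ψ h).trans hB.le) (one_le_pu hψ A)

lemma dual_val {ψ : St n} {A : Finset (Fin n)} {e : ℕ} (hc : A.card + 2 * e = Aᶜ.card)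
    (h1 : pu ψ A = 1) : pu ψ Aᶜ = 4 ^ e := by
  have h2 := pu_compl ψ A
  rw [h1, ← hc, pow_add, mul_one, pow_mul] at h2
  have h3 : (0 : ℝ) < 2 ^ A.card := by positivity
  have h4 := mul_left_cancel₀ h3.ne' h2
  rw [← h4]
  norm_num

/-- the number of elements of an independent set -/
theorem indep_bound {k t : ℕ} (ht : 2 ≤ t) {ψ : St (k + k)} (hψ : ip ψ ψ = 1)
    {G I : Finset (Fin (k + k))} (hG : G.card + t = k) (hd : Disjoint G I)
    (hI : ∀ v ∈ I, ∀ w ∈ I, v ≠ w → pu ψ (insert w (insert v G)) = 1) :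
    3 * (I.card : ℝ) ≤ 4 ^ t - 1 := by
  classical
  obtain ⟨q, rfl⟩ : ∃ q, t = q + 2 := ⟨t - 2, by omega⟩
  have hQ1 : (1 : ℝ) ≤ 4 ^ q := one_le_pow₀ (by norm_num)
  rcases Nat.lt_or_ge I.card 2 with h2 | h2
  · have h3 : (I.card : ℝ) ≤ 1 := by exact_mod_cast Nat.lt_succ_iff.1 h2
    rw [pow_add]
    nlinarith
  -- the values
  have hnc : ∀ V ⊆ I, (G ∪ V).card = G.card + V.card := fun V hV =>
    Finset.card_union_of_disjoint (hd.mono_right hV)
  have hset : ∀ V ⊆ I, (G ∪ I)ᶜ ∪ (I \ V) = (G ∪ V)ᶜ := by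
    intro V hV
    ext i
    simp only [Finset.mem_union, Finset.mem_compl, Finset.mem_sdiff]
    constructor
    · rintro (h | ⟨h3, h4⟩)
      · intro h5
        apply h
        rcases h5 with h5 | h5
        · exact Or.inl h5
        · exact Or.inr (hV h5)
      · rintro (h5 | h5)
        · exact Finset.disjoint_left.1 hd h5 h3
        · exact h4 h5
    · intro h
      by_cases h3 : i ∈ I
      · exact Or.inr ⟨h3, fun h5 => h (Or.inr h5)⟩
      · exact Or.inl fun h5 => h5.elim (fun h6 => h (Or.inl h6)) h3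
  have hval : ∀ V ⊆ I, V.card ≤ 2 → pu ψ (G ∪ V) = 1 →
      pu ψ ((G ∪ I)ᶜ ∪ (I \ V)) = 4 ^ (q + 2 - V.card) := by
    intro V hV hV2 h1
    rw [hset V hV]
    apply dual_val _ h1
    have e1 := Finset.card_add_card_compl (G ∪ V)
    rw [Fintype.card_fin] at e1
    have e2 := hnc V hV
    omega
  have hpair : ∀ v ∈ I, ∀ w ∈ I, v ≠ w → pu ψ (G ∪ {v, w}) = 1 := by
    intro v hv w hw hvw
    rw [← hI v hv w hw hvw]
    congr 1
    ext i
    simp only [Finset.mem_union, Finset.mem_insert, Finset.mem_singleton]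
    tauto
  have hsing : ∀ v ∈ I, pu ψ (G ∪ {v}) = 1 := by
    intro v hv
    obtain ⟨w, hw, hwv⟩ := Finset.exists_mem_ne (by omega : 1 < I.card) v
    apply pu_one_of_subset hψ _ (hpair v hv w hw hwv.symm)
    exact Finset.union_subset_union_right (by simp)
  have hempty : pu ψ (G ∪ ∅) = 1 := by
    obtain ⟨v, hv⟩ : I.Nonempty := Finset.card_pos.1 (by omega)
    exact pu_one_of_subset hψ (Finset.union_subset_union_right (Finset.empty_subset _)) (hsing v hv)
  have hS : Disjoint (G ∪ I)ᶜ I := by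
    rw [Finset.disjoint_left]
    intro i hi hi'
    exact (Finset.mem_compl.1 hi) (Finset.mem_union_right _ hi')
  have hm := moment hψ hS ((I.card : ℝ) * (4 * 4 ^ q - 1) / (16 * 4 ^ q - 1))
  have e0 : pu ψ ((G ∪ I)ᶜ ∪ I) = 16 * 4 ^ q := by
    have h3 := hval ∅ (Finset.empty_subset _) (by simp) hempty
    rw [Finset.sdiff_empty, Finset.card_empty] at h3
    rw [h3, Nat.sub_zero, pow_add]
    ring
  have e1 : ∀ v ∈ I, pu ψ ((G ∪ I)ᶜ ∪ (I \ {v})) - 1 = 4 * 4 ^ q - 1 := by
    intro v hv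
    have h3 := hval {v} (Finset.singleton_subset_iff.2 hv) (by simp) (hsing v hv)
    rw [Finset.card_singleton, show q + 2 - 1 = q + 1 by omega, pow_succ] at h3
    rw [h3]
    ring
  have e2 : ∀ v ∈ I, ∑ w ∈ I, (pu ψ ((G ∪ I)ᶜ ∪ (I \ {v, w})) - 1) =
      ((I.card : ℝ) - 1) * (4 ^ q - 1) + (4 * 4 ^ q - 1) := by
    intro v hv
    rw [← Finset.sum_erase_add _ _ hv]
    congr 1
    · have h3 : ∀ w ∈ I.erase v, pu ψ ((G ∪ I)ᶜ ∪ (I \ {v, w})) - 1 = 4 ^ q - 1 := by
        intro w hw
        rw [Finset.mem_erase] at hw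
        have hsub : ({v, w} : Finset (Fin (k + k))) ⊆ I := by
          intro i hi
          rw [Finset.mem_insert, Finset.mem_singleton] at hi
          rcases hi with rfl | rfl
          · exact hv
          · exact hw.2
        have h4 := hval {v, w} hsub (by rw [Finset.card_pair hw.1.symm])
          (hpair v hv w hw.2 hw.1.symm)
        rw [Finset.card_pair hw.1.symm, Nat.add_sub_cancel] at h4
        rw [h4]
      rw [Finset.sum_congr rfl h3, Finset.sum_const, Finset.card_erase_of_mem hv, nsmul_eq_mul,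
        Nat.cast_sub (by omega), Nat.cast_one]
    · rw [Finset.pair_eq_singleton]
      exact e1 v hv
  rw [Finset.sum_congr rfl e2, Finset.sum_congr rfl e1, e0] at hm
  simp only [Finset.sum_const, nsmul_eq_mul] at hm
  obtain ⟨i, hi⟩ : ∃ i : ℝ, i = I.card := ⟨_, rfl⟩
  obtain ⟨Q, hQ⟩ : ∃ Q : ℝ, Q = 4 ^ q := ⟨_, rfl⟩
  rw [← hi, ← hQ] at hm
  rw [← hQ] at hQ1
  have hi0 : 0 < i := by
    rw [hi]
    have : 0 < I.card := by omega
    exact_mod_cast this
  have hden : 0 < 16 * Q - 1 := by linarith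
  have h5 : i * ((i - 1) * (Q - 1) + (4 * Q - 1)) - 2 * (i * (4 * Q - 1) / (16 * Q - 1)) *
      (i * (4 * Q - 1)) + (i * (4 * Q - 1) / (16 * Q - 1)) ^ 2 * (16 * Q - 1) =
      i * Q * 3 / (16 * Q - 1) * ((16 * Q - 1) - 3 * i) := by
    obtain ⟨R, hR⟩ : ∃ R : ℝ, R = 16 * Q - 1 := ⟨_, rfl⟩
    have hne : R ≠ 0 := by rw [hR]; exact hden.ne'
    rw [← hR]
    field_simp
    rw [hR]
    ring
  rw [h5] at hm
  have h6 : 0 < i * Q * 3 / (16 * Q - 1) := by
    apply div_pos _ hden
    have : 0 < Q := by linarith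
    positivity
  have h7 : 0 ≤ (16 * Q - 1) - 3 * i := nonneg_of_mul_nonneg_right hm h6
  rw [pow_add, ← hQ, ← hi]
  linarith

open scoped Classical in
/-- the number of sequences of `t` elements of `U` which enlarge `G` to a good set -/
noncomputable def F (ψ : St n) : ℕ → Finset (Fin n) → Finset (Fin n) → ℕ
  | 0, G, _ => if pu ψ G = 1 then 1 else 0
  | t + 1, G, U => ∑ v ∈ U, F ψ t (insert v G) (U.erase v)

lemma F_bad {ψ : St n} (hψ : ip ψ ψ = 1) (t : ℕ) : ∀ G U : Finset (Fin n), pu ψ G ≠ 1 →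
    F ψ t G U = 0 := by
  induction t with
  | zero =>
    intro G U h
    simp [F, h]
  | succ t ih =>
    intro G U h
    rw [F]
    refine Finset.sum_eq_zero fun v _ => ih _ _ fun h2 => h ?_
    exact pu_one_of_subset hψ (Finset.subset_insert _ _) h2

lemma F_restrict {ψ : St n} (hψ : ip ψ ψ = 1) (t : ℕ) : ∀ G U U' : Finset (Fin n), U' ⊆ U →
    (∀ v ∈ U, v ∉ U' → pu ψ (insert v G) ≠ 1) → F ψ t G U = F ψ t G U' := by
  induction t with
  | zero =>
    intro G U U' _ _
    simp [F]
  | succ t ih =>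
    intro G U U' hU h
    rw [F, F, ← Finset.sum_subset hU fun v hv hv' => F_bad hψ t _ _ (h v hv hv')]
    refine Finset.sum_congr rfl fun v _ => ih _ _ _ (Finset.erase_subset_erase v hU) ?_
    intro w hw hw'
    rw [Finset.mem_erase] at hw hw'
    intro h3
    apply h w hw.2 (fun h4 => hw' ⟨hw.1, h4⟩)
    exact pu_one_of_subset hψ (Finset.insert_subset_insert w (Finset.subset_insert v G)) h3

/-- the constants -/
noncomputable def Tt : ℕ → ℝ
  | 0 => 1
  | t + 1 => Tt t * (1 - 3 / (4 ^ (t + 1) - 1)) ^ t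

lemma four_pow_ge (t : ℕ) : (3 * t + 4 : ℝ) ≤ 4 ^ (t + 1) := by
  induction t with
  | zero => norm_num
  | succ t ih =>
    rw [pow_succ]
    push_cast
    nlinarith

lemma Tt_nonneg (t : ℕ) : 0 ≤ Tt t := by
  induction t with
  | zero => simp [Tt]
  | succ t ih =>
    rw [Tt]
    refine mul_nonneg ih (pow_nonneg ?_ t)
    have h1 := four_pow_ge t
    have h2 : (0 : ℝ) ≤ t := Nat.cast_nonneg t
    rw [sub_nonneg, div_le_one (by linarith)]
    linarith

open scoped Classical in
theorem F_le {k : ℕ} {ψ : St (k + k)} (hψ : ip ψ ψ = 1) (t : ℕ) :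
    ∀ G U : Finset (Fin (k + k)), G.card + t = k → Disjoint G U →
      (F ψ t G U : ℝ) ≤ Tt t * (U.card : ℝ) ^ t := by
  induction t with
  | zero =>
    intro G U _ _
    rw [F, Tt]
    split_ifs <;> simp
  | succ t ih =>
    intro G U0 hG hd0
    obtain ⟨U, hU⟩ : ∃ U, U = U0.filter fun v => pu ψ (insert v G) = 1 := ⟨_, rfl⟩
    have hUU : U ⊆ U0 := by rw [hU]; exact Finset.filter_subset _ _
    have hd : Disjoint G U := hd0.mono_right hUU
    have e1 : F ψ (t + 1) G U0 = F ψ (t + 1) G U := by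
      apply F_restrict hψ (t + 1) G U0 U hUU
      intro v hv hv' h
      exact hv' (by rw [hU]; exact Finset.mem_filter.2 ⟨hv, h⟩)
    have hmono : (U.card : ℝ) ^ (t + 1) ≤ (U0.card : ℝ) ^ (t + 1) := by
      apply pow_le_pow_left₀ (Nat.cast_nonneg _)
      exact_mod_cast Finset.card_le_card hUU
    rw [e1]
    refine le_trans ?_ (mul_le_mul_of_nonneg_left hmono (Tt_nonneg (t + 1)))
    rcases U.eq_empty_or_nonempty with hUe | hne
    · rw [hUe, F]
      simp
    have hu0 : (0 : ℝ) < U.card := by exact_mod_cast Finset.card_pos.2 hne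
    -- the relation
    obtain ⟨B, hB⟩ : ∃ B : Fin (k + k) → Fin (k + k) → Prop,
        B = fun v w => v = w ∨ pu ψ (insert w (insert v G)) ≠ 1 := ⟨_, rfl⟩
    have hBrefl : ∀ v, B v v := by
      intro v
      rw [hB]
      exact Or.inl rfl
    have hBsymm : ∀ v w, B v w → B w v := by
      intro v w
      rw [hB]
      rintro (h | h)
      · exact Or.inl h.symm
      · exact Or.inr (by rw [Finset.insert_comm]; exact h)
    have hterm : ∀ v ∈ U, (F ψ t (insert v G) (U.erase v) : ℝ) ≤
        Tt t * ((U.card : ℝ) - ((U.filter (B v)).card : ℝ)) ^ t := by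
      intro v hv
      have hvG : v ∉ G := fun h => Finset.disjoint_left.1 hd h hv
      obtain ⟨U', hU'⟩ : ∃ U', U' = U.filter fun w => ¬ B v w := ⟨_, rfl⟩
      have hsub : U' ⊆ U.erase v := by
        intro w hw
        rw [hU', Finset.mem_filter] at hw
        exact Finset.mem_erase.2 ⟨fun h => hw.2 (by rw [h]; exact hBrefl v), hw.1⟩
      have e2 : F ψ t (insert v G) (U.erase v) = F ψ t (insert v G) U' := by
        apply F_restrict hψ t _ _ _ hsub
        intro w hw hw' h
        rw [Finset.mem_erase] at hw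
        apply hw'
        rw [hU', Finset.mem_filter]
        refine ⟨hw.2, ?_⟩
        rw [hB]
        rintro (h3 | h3)
        · exact hw.1 h3.symm
        · exact h3 h
      have e3 : ((U'.card : ℕ) : ℝ) = (U.card : ℝ) - ((U.filter (B v)).card : ℝ) := by
        have := Finset.card_filter_add_card_filter_not (s := U) (B v)
        rw [hU', ← this]
        push_cast
        ring
      rw [e2, ← e3]
      apply ih
      · rw [Finset.card_insert_of_notMem hvG]
        omega
      · rw [Finset.disjoint_insert_left]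
        exact ⟨fun h => (Finset.mem_erase.1 (hsub h)).1 rfl,
          hd.mono_right (hsub.trans (Finset.erase_subset _ _))⟩
    have h1 : (F ψ (t + 1) G U : ℝ) ≤
        Tt t * ∑ v ∈ U, ((U.card : ℝ) - ((U.filter (B v)).card : ℝ)) ^ t := by
      rw [F]
      push_cast
      rw [Finset.mul_sum]
      exact Finset.sum_le_sum hterm
    refine h1.trans ?_
    rw [Tt, mul_assoc]
    apply mul_le_mul_of_nonneg_left _ (Tt_nonneg t)
    rcases Nat.eq_zero_or_pos t with rfl | ht
    · simp
    -- the theorem of Caro and Wei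
    obtain ⟨I, hIU, hI, hsum⟩ := caro_wei B hBrefl hBsymm U
    have hI2 := indep_bound (t := t + 1) (by omega) hψ (by omega) (hd.mono_right hIU)
      (by
        intro v hv w hw hvw
        by_contra h
        apply hI v hv w hw hvw
        rw [hB]
        exact Or.inr h)
    obtain ⟨N, hN⟩ : ∃ N : ℝ, N = (4 ^ (t + 1) - 1) / 3 := ⟨_, rfl⟩
    have hN3 : 3 / ((4 : ℝ) ^ (t + 1) - 1) = 1 / N := by
      rw [hN, one_div_div]
    have h4 := four_pow_ge t
    have hNt : (t : ℝ) + 1 ≤ N := by rw [hN]; linarith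
    have ht1 : (1 : ℝ) ≤ t := by exact_mod_cast ht
    have hN1 : 1 < N := by linarith
    have hIN : (I.card : ℝ) ≤ N := by rw [hN]; linarith
    rw [hN3]
    have hN0 : 0 < N := by linarith
    have hN10 : 0 < N - 1 := by linarith
    have hc0 : ∀ v ∈ U, (0 : ℝ) < ((U.filter (B v)).card : ℝ) := by
      intro v hv
      exact_mod_cast Finset.card_pos.2 ⟨v, Finset.mem_filter.2 ⟨hv, hBrefl v⟩⟩
    have hcu : ∀ v ∈ U, ((U.filter (B v)).card : ℝ) ≤ U.card := by
      intro v _
      exact_mod_cast Finset.card_le_card (Finset.filter_subset _ _)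
    have hv1 : ∀ v ∈ U, ((U.card : ℝ) - ((U.filter (B v)).card : ℝ)) ^ t ≤
        (U.card : ℝ) ^ t * ((1 - 1 / N) ^ t * (1 + t * ((U.card : ℝ) *
          (1 / ((U.filter (B v)).card : ℝ)) - N) / (N * (N - 1)))) := by
      intro v hv
      have h5 := hc0 v hv
      have h6 := hcu v hv
      have h7 : (1 : ℝ) ≤ (U.card : ℝ) * (1 / ((U.filter (B v)).card : ℝ)) := by
        rw [mul_one_div, one_le_div h5]
        exact h6
      have h8 := tangent hNt hN1 h7
      have h9 : (U.card : ℝ) - ((U.filter (B v)).card : ℝ) =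
          (U.card : ℝ) * (1 - 1 / ((U.card : ℝ) * (1 / ((U.filter (B v)).card : ℝ)))) := by
        field_simp
      rw [h9, mul_pow]
      exact mul_le_mul_of_nonneg_left h8 (by positivity)
    refine (Finset.sum_le_sum hv1).trans ?_
    rw [← Finset.mul_sum, ← Finset.mul_sum, Finset.sum_add_distrib, Finset.sum_const,
      ← Finset.sum_div, ← Finset.mul_sum, Finset.sum_sub_distrib, ← Finset.mul_sum,
      Finset.sum_const, nsmul_eq_mul, nsmul_eq_mul, mul_one]
    have h10 : (U.card : ℝ) * ∑ v ∈ U, (1 : ℝ) / ((U.filter (B v)).card : ℝ) -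
        (U.card : ℝ) * N ≤ 0 := by
      have := mul_le_mul_of_nonneg_left (hsum.trans hIN) hu0.le
      linarith
    have h11 : (t : ℝ) * ((U.card : ℝ) * ∑ v ∈ U, (1 : ℝ) / ((U.filter (B v)).card : ℝ) -
        (U.card : ℝ) * N) / (N * (N - 1)) ≤ 0 := by
      apply div_nonpos_of_nonpos_of_nonneg _ (by positivity)
      exact mul_nonpos_of_nonneg_of_nonpos (by positivity) h10
    have hb : 0 ≤ 1 - 1 / N := by
      rw [sub_nonneg, div_le_one hN0]
      exact hN1.le
    calc (U.card : ℝ) ^ t * ((1 - 1 / N) ^ t * ((U.card : ℝ) + t * ((U.card : ℝ) *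
          ∑ v ∈ U, (1 : ℝ) / ((U.filter (B v)).card : ℝ) - (U.card : ℝ) * N) / (N * (N - 1))))
        ≤ (U.card : ℝ) ^ t * ((1 - 1 / N) ^ t * (U.card : ℝ)) := by
          apply mul_le_mul_of_nonneg_left _ (by positivity)
          apply mul_le_mul_of_nonneg_left _ (pow_nonneg hb t)
          linarith
      _ = (1 - 1 / N) ^ t * (U.card : ℝ) ^ (t + 1) := by ring

lemma im_insert (π : Equiv.Perm (Fin n)) (v : Fin n) (D : Finset (Fin n)) :
    im π (insert v D) = insert (π v) (im π D) := by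
  ext i
  obtain ⟨j, rfl⟩ := π.surjective i
  simp only [mem_im, Finset.mem_insert, EmbeddingLike.apply_eq_iff_eq]

open scoped Classical in
lemma F_sum {k : ℕ} (ψ : St n) (hkn : k ≤ n) (t : ℕ) : ∀ D : Finset (Fin n), D.card + t = k →
    (∑ π : Equiv.Perm (Fin n), F ψ t (im π D) (im π D)ᶜ) * n.choose k =
      (n - D.card).descFactorial t * (n.factorial *
        ((Finset.powersetCard k Finset.univ).filter fun A : Finset (Fin n) => pu ψ A = 1).card) := by
  induction t with
  | zero =>
    intro D hD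
    rw [← orbit k (by omega : D.card = k) (fun A => pu ψ A = 1), Nat.descFactorial_zero, one_mul,
      Finset.card_filter]
    rfl
  | succ t ih =>
    intro D hD
    have h1 : ∀ π : Equiv.Perm (Fin n), F ψ (t + 1) (im π D) (im π D)ᶜ =
        ∑ v ∈ Dᶜ, F ψ t (im π (insert v D)) (im π (insert v D))ᶜ := by
      intro π
      rw [F]
      symm
      refine Finset.sum_bij (fun v _ => π v) ?_ ?_ ?_ ?_
      · intro v hv
        rw [Finset.mem_compl, mem_im]
        exact Finset.mem_compl.1 hv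
      · intro v _ w _ h
        exact π.injective h
      · intro w hw
        obtain ⟨v, rfl⟩ := π.surjective w
        rw [Finset.mem_compl, mem_im] at hw
        exact ⟨v, Finset.mem_compl.2 hw, rfl⟩
      · intro v _
        rw [im_insert, Finset.compl_insert]
    simp only [h1]
    rw [Finset.sum_comm, Finset.sum_mul]
    have h2 : ∀ v ∈ Dᶜ, (∑ π : Equiv.Perm (Fin n),
        F ψ t (im π (insert v D)) (im π (insert v D))ᶜ) * n.choose k =
        (n - D.card - 1).descFactorial t * (n.factorial *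
        ((Finset.powersetCard k Finset.univ).filter fun A : Finset (Fin n) => pu ψ A = 1).card) := by
      intro v hv
      have h3 : (insert v D).card = D.card + 1 :=
        Finset.card_insert_of_notMem (Finset.mem_compl.1 hv)
      rw [ih (insert v D) (by omega), h3, Nat.sub_sub]
    rw [Finset.sum_congr rfl h2, Finset.sum_const, Finset.card_compl, Fintype.card_fin, smul_eq_mul]
    have h4 : n - D.card = (n - D.card - 1) + 1 := by omega
    conv_rhs => rw [h4, Nat.succ_descFactorial_succ, ← h4]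
    ring

/-- the upper bound with windows of `k + t` qubits -/
theorem rec_bound {k t : ℕ} (ht : t ≤ k) :
    ((k + t).descFactorial t : ℝ) * Qex (k + k) k ≤
      Tt t * ((k : ℝ) + t) ^ t * ((k + k).choose k : ℝ) := by
  classical
  obtain ⟨ψ, hψ, hQ⟩ := exists_max (k + k) k
  rw [hQ]
  obtain ⟨D, -, hD⟩ := Finset.exists_subset_card_eq (s := (Finset.univ : Finset (Fin (k + k))))
    (n := k - t) (by rw [Finset.card_univ, Fintype.card_fin]; omega)
  have h1 := F_sum (k := k) ψ (by omega) t D (by omega)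
  obtain ⟨m', hm'⟩ : ∃ m', m' = ((Finset.powersetCard k Finset.univ).filter
    fun A : Finset (Fin (k + k)) => pu ψ A = 1).card := ⟨_, rfl⟩
  have h2 : m k ψ ≤ m' := by
    rw [m_eq, hm']
    refine Finset.card_le_card fun A hA => ?_
    rw [Finset.mem_filter] at hA ⊢
    exact ⟨hA.1, pu_of_maxMixed hA.2⟩
  rw [← hm', hD, show k + k - (k - t) = k + t by omega] at h1
  have h3 : ∀ π : Equiv.Perm (Fin (k + k)), (F ψ t (im π D) (im π D)ᶜ : ℝ) ≤
      Tt t * ((k : ℝ) + t) ^ t := by
    intro π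
    have h4 := F_le hψ t (im π D) (im π D)ᶜ (by rw [card_im]; omega) disjoint_compl_right
    rw [Finset.card_compl, Fintype.card_fin, card_im, hD, show k + k - (k - t) = k + t by omega] at h4
    push_cast at h4
    exact h4
  have h5 : (∑ π : Equiv.Perm (Fin (k + k)), (F ψ t (im π D) (im π D)ᶜ : ℝ)) ≤
      ((k + k).factorial : ℝ) * (Tt t * ((k : ℝ) + t) ^ t) := by
    refine (Finset.sum_le_sum fun π _ => h3 π).trans (le_of_eq ?_)
    rw [Finset.sum_const, Finset.card_univ, Fintype.card_perm, Fintype.card_fin, nsmul_eq_mul]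
  have h6 : (∑ π : Equiv.Perm (Fin (k + k)), (F ψ t (im π D) (im π D)ᶜ : ℝ)) *
      ((k + k).choose k : ℝ) = ((k + t).descFactorial t : ℝ) * (((k + k).factorial : ℝ) * m') := by
    exact_mod_cast h1
  have h7 := mul_le_mul_of_nonneg_right h5 (Nat.cast_nonneg (α := ℝ) ((k + k).choose k))
  rw [h6] at h7
  have h8 : (0 : ℝ) < (k + k).factorial := by exact_mod_cast Nat.factorial_pos _
  have h9 : ((k + k).factorial : ℝ) * (((k + t).descFactorial t : ℝ) * m') ≤
      ((k + k).factorial : ℝ) * (Tt t * ((k : ℝ) + t) ^ t * ((k + k).choose k : ℝ)) := by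
    linarith
  have h10 := le_of_mul_le_mul_left h9 h8
  refine le_trans (mul_le_mul_of_nonneg_left ?_ (Nat.cast_nonneg _)) h10
  exact_mod_cast h2

end Pool.Agent.H155.QX
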