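import Mathlib
import Pool.Agent.H155.QX.Rec

/-!
The limit of the upper bounds.
-/

set_option autoImplicit false

open Filter Topology

namespace Pool.Agent.H155.QX

/-- the constants in closed form -/
lemma Tt_eq (t : ℕ) :
    Tt t = (∏ j ∈ Finset.range t, (1 - 1 / (4 : ℝ) ^ (j + 1))) / (1 - 1 / 4 ^ t) ^ t := by
  induction t with
  | zero => simp [Tt]
  | succ t ih =>
    rw [Tt, ih, Finset.prod_range_succ]
    obtain ⟨p, hp⟩ : ∃ p, p = ∏ j ∈ Finset.range t, (1 - 1 / (4 : ℝ) ^ (j + 1)) := ⟨_, rfl⟩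
    rw [← hp]
    have h4 : (0 : ℝ) < 4 ^ t := by positivity
    have h4' : (1 : ℝ) ≤ 4 ^ t := one_le_pow₀ (by norm_num)
    have h5 : (0 : ℝ) < 4 ^ (t + 1) - 1 := by
      rw [pow_succ]
      linarith
    have h6 : (0 : ℝ) < 1 - 1 / 4 ^ (t + 1) := by
      rw [sub_pos, div_lt_one (by positivity)]
      linarith
    have h7 : (1 : ℝ) - 3 / (4 ^ (t + 1) - 1) = (1 - 1 / 4 ^ t) / (1 - 1 / 4 ^ (t + 1)) := by
      rw [eq_div_iff h6.ne']
      have h8 : (4 : ℝ) ^ (t + 1) - 1 ≠ 0 := h5.ne'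
      rw [pow_succ] at h8 ⊢
      field_simp
      ring
    rw [h7, div_pow]
    rcases Nat.eq_zero_or_pos t with rfl | ht
    · simp
      rw [mul_div_assoc, div_self, mul_one]
      norm_num
    have h9 : (0 : ℝ) < 1 - 1 / 4 ^ t := by
      rw [sub_pos, div_lt_one h4]
      exact one_lt_pow₀ (by norm_num) (by omega)
    have h10 : ((1 : ℝ) - 1 / 4 ^ t) ^ t ≠ 0 := (pow_pos h9 t).ne'
    have h11 : ((1 : ℝ) - 1 / 4 ^ (t + 1)) ^ t ≠ 0 := (pow_pos h6 t).ne'
    rw [pow_succ (1 - 1 / (4 : ℝ) ^ (t + 1)) t]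
    rw [div_mul_div_comm, mul_div_mul_right _ _ h6.ne', mul_comm p, mul_div_mul_left _ _ h10]

lemma multipliable_c : Multipliable fun j : ℕ => (1 - 1 / (4 : ℝ) ^ (j + 1)) := by
  have h : Summable fun j : ℕ => -(1 / (4 : ℝ) ^ (j + 1)) := by
    apply Summable.neg
    have h1 : Summable fun j : ℕ => (1 / (4 : ℝ)) ^ j :=
      summable_geometric_of_lt_one (by norm_num) (by norm_num)
    have h2 := (summable_nat_add_iff 1).2 h1
    refine h2.congr fun j => ?_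
    rw [one_div_pow]
  have h3 := Real.multipliable_one_add_of_summable h
  refine h3.congr fun j => ?_
  ring

lemma tendsto_Tt : Tendsto Tt atTop (𝓝 (∏' j : ℕ, (1 - 1 / (4 : ℝ) ^ (j + 1)))) := by
  have h1 := multipliable_c.hasProd.tendsto_prod_nat
  have h2 : Tendsto (fun t : ℕ => (1 - 1 / (4 : ℝ) ^ t) ^ t) atTop (𝓝 1) := by
    have h3 : Tendsto (fun t : ℕ => 1 - (t : ℝ) * (1 / 4 : ℝ) ^ t) atTop (𝓝 (1 - 0)) :=
      tendsto_const_nhds.sub (tendsto_self_mul_const_pow_of_lt_one (by norm_num) (by norm_num))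
    rw [sub_zero] at h3
    refine tendsto_of_tendsto_of_tendsto_of_le_of_le h3 tendsto_const_nhds ?_ ?_
    · intro t
      have h4 : (1 : ℝ) / 4 ^ t ≤ 1 := by
        rw [div_le_one (by positivity)]
        exact one_le_pow₀ (by norm_num)
      have h5 := one_add_mul_le_pow (a := -(1 / (4 : ℝ) ^ t)) (by linarith) t
      rw [← sub_eq_add_neg] at h5
      simp only [one_div_pow]
      linarith
    · intro t
      have h4 : (1 : ℝ) / 4 ^ t ≤ 1 := by
        rw [div_le_one (by positivity)]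
        exact one_le_pow₀ (by norm_num)
      have h5 : (0 : ℝ) ≤ 1 / 4 ^ t := by positivity
      exact pow_le_one₀ (by linarith) (by linarith)
  have h6 := h1.div h2 one_ne_zero
  rw [div_one] at h6
  refine h6.congr fun t => ?_
  rw [Tt_eq]
  rfl

theorem limsup_bound {ε : ℝ} (hε : 0 < ε) : ∀ᶠ k : ℕ in atTop,
    (Qex (k + k) k : ℝ) ≤ (∏' j : ℕ, (1 - 1 / (4 : ℝ) ^ (j + 1)) + ε) * ((k + k).choose k : ℝ) := by
  obtain ⟨t, ht⟩ := (tendsto_Tt.eventually (gt_mem_nhds (lt_add_of_pos_right _ hε))).exists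
  have h1 : Tendsto (fun k : ℕ => Tt t * (1 + ((t : ℝ) - 1) * (1 / ((k : ℝ) + 1))) ^ t) atTop
      (𝓝 (Tt t * (1 + ((t : ℝ) - 1) * 0) ^ t)) :=
    tendsto_const_nhds.mul ((tendsto_const_nhds.add
      (tendsto_const_nhds.mul tendsto_one_div_add_atTop_nhds_zero_nat)).pow t)
  rw [mul_zero, add_zero, one_pow, mul_one] at h1
  filter_upwards [h1.eventually (gt_mem_nhds ht), eventually_ge_atTop t] with k hk hkt
  have h2 := rec_bound hkt
  have h3 : ((k : ℝ) + 1) ^ t ≤ ((k + t).descFactorial t : ℝ) := by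
    have h4 := Nat.pow_sub_le_descFactorial (k + t) t
    rw [show k + t + 1 - t = k + 1 by omega] at h4
    exact_mod_cast h4
  have hk1 : (0 : ℝ) < (k : ℝ) + 1 := by positivity
  have h5 : ((k : ℝ) + 1) ^ t * (Qex (k + k) k : ℝ) ≤
      Tt t * ((k : ℝ) + t) ^ t * ((k + k).choose k : ℝ) :=
    (mul_le_mul_of_nonneg_right h3 (Nat.cast_nonneg _)).trans h2
  have h6 : ((k : ℝ) + t) ^ t = ((k : ℝ) + 1) ^ t * (1 + ((t : ℝ) - 1) * (1 / ((k : ℝ) + 1))) ^ t := by
    rw [← mul_pow]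
    congr 1
    field_simp
    ring
  rw [h6] at h5
  have h7 : (0 : ℝ) < ((k : ℝ) + 1) ^ t := by positivity
  have h8 : ((k : ℝ) + 1) ^ t * (Qex (k + k) k : ℝ) ≤ ((k : ℝ) + 1) ^ t *
      (Tt t * (1 + ((t : ℝ) - 1) * (1 / ((k : ℝ) + 1))) ^ t * ((k + k).choose k : ℝ)) := by
    refine h5.trans (le_of_eq ?_)
    ring
  have h9 := le_of_mul_le_mul_left h8 h7
  refine h9.trans (mul_le_mul_of_nonneg_right ?_ (Nat.cast_nonneg _))
  exact hk.le

/-- a numerical value -/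
lemma c_le : ∏' j : ℕ, (1 - 1 / (4 : ℝ) ^ (j + 1)) ≤ 0.68856 := by
  have h1 := multipliable_c.hasProd.tendsto_prod_nat
  refine le_of_tendsto h1 ?_
  filter_upwards [eventually_ge_atTop 8] with n hn
  have h2 : ∏ j ∈ Finset.range n, (1 - 1 / (4 : ℝ) ^ (j + 1)) ≤
      ∏ j ∈ Finset.range 8, (1 - 1 / (4 : ℝ) ^ (j + 1)) := by
    have h0 : ∀ j : ℕ, (0 : ℝ) ≤ 1 - 1 / (4 : ℝ) ^ (j + 1) ∧ 1 - 1 / (4 : ℝ) ^ (j + 1) ≤ 1 := by
      intro j
      have h4 : (1 : ℝ) / 4 ^ (j + 1) ≤ 1 := by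
        rw [div_le_one (by positivity)]
        exact one_le_pow₀ (by norm_num)
      have h5 : (0 : ℝ) ≤ 1 / 4 ^ (j + 1) := by positivity
      constructor <;> linarith
    rw [← Finset.prod_range_mul_prod_Ico _ hn]
    refine mul_le_of_le_one_right (Finset.prod_nonneg fun j _ => (h0 j).1) ?_
    exact Finset.prod_le_one (fun j _ => (h0 j).1) fun j _ => (h0 j).2
  refine h2.trans ?_
  simp only [Finset.prod_range_succ, Finset.prod_range_zero]
  norm_num

end Pool.Agent.H155.QX
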