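import Mathlib
import Pool.Agent.H155.QX.RecC

/-!
The limit of the upper bounds, for `n = 2k + c` qubits.
-/

set_option autoImplicit false

open Filter Topology

namespace Pool.Agent.H155.QX

/-- the constants in closed form -/
lemma TtC_eq (c t : ℕ) : TtC c t =
    (∏ j ∈ Finset.range t, (1 - 1 / ((2 : ℝ) ^ c * 4 ^ (j + 1)))) / (1 - 1 / (2 ^ c * 4 ^ t)) ^ t := by
  induction t with
  | zero => simp [TtC]
  | succ t ih =>
    rw [TtC, ih, Finset.prod_range_succ]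
    obtain ⟨p, hp⟩ : ∃ p, p = ∏ j ∈ Finset.range t, (1 - 1 / ((2 : ℝ) ^ c * 4 ^ (j + 1))) :=
      ⟨_, rfl⟩
    rw [← hp]
    obtain ⟨X, hX⟩ : ∃ X : ℝ, X = 2 ^ c * 4 ^ t := ⟨_, rfl⟩
    have hX1 : (2 : ℝ) ^ c * 4 ^ (t + 1) = 4 * X := by rw [hX]; ring
    rw [hX1, ← hX]
    have h4' : (1 : ℝ) ≤ X := by
      rw [hX]
      exact one_le_mul_of_one_le_of_one_le (one_le_pow₀ (by norm_num)) (one_le_pow₀ (by norm_num))
    have h4 : (0 : ℝ) < X := by linarith
    have h5 : (0 : ℝ) < 4 * X - 1 := by linarith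
    have h6 : (0 : ℝ) < 1 - 1 / (4 * X) := by
      rw [sub_pos, div_lt_one (by positivity)]
      linarith
    have h7 : (1 : ℝ) - 3 / (4 * X - 1) = (1 - 1 / X) / (1 - 1 / (4 * X)) := by
      rw [eq_div_iff h6.ne']
      have h8 : (4 : ℝ) * X - 1 ≠ 0 := h5.ne'
      field_simp
      ring
    rw [h7, div_pow]
    rcases Nat.eq_zero_or_pos t with rfl | ht
    · simp only [pow_zero, div_one, mul_one, zero_add, pow_one]
      rw [mul_div_assoc, div_self h6.ne', mul_one]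
    have h9 : (0 : ℝ) < 1 - 1 / X := by
      rw [sub_pos, div_lt_one h4, hX]
      calc (1 : ℝ) < 4 ^ t := one_lt_pow₀ (by norm_num) (by omega)
        _ ≤ 2 ^ c * 4 ^ t := le_mul_of_one_le_left (by positivity) (one_le_pow₀ (by norm_num))
    have h10 : ((1 : ℝ) - 1 / X) ^ t ≠ 0 := (pow_pos h9 t).ne'
    rw [pow_succ (1 - 1 / (4 * X)) t]
    rw [div_mul_div_comm, mul_div_mul_right _ _ h6.ne', mul_comm p, mul_div_mul_left _ _ h10]

lemma multipliable_cC (c : ℕ) : Multipliable fun j : ℕ => (1 - 1 / ((2 : ℝ) ^ c * 4 ^ (j + 1))) := by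
  have h : Summable fun j : ℕ => -(1 / ((2 : ℝ) ^ c * 4 ^ (j + 1))) := by
    apply Summable.neg
    have h1 : Summable fun j : ℕ => (1 / (4 : ℝ)) ^ j :=
      summable_geometric_of_lt_one (by norm_num) (by norm_num)
    have h2 := ((summable_nat_add_iff 1).2 h1).mul_left (1 / (2 : ℝ) ^ c)
    refine h2.congr fun j => ?_
    rw [one_div_pow, one_div_mul_one_div]
  have h3 := Real.multipliable_one_add_of_summable h
  refine h3.congr fun j => ?_
  ring

lemma tendsto_TtC (c : ℕ) : Tendsto (TtC c) atTop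
    (𝓝 (∏' j : ℕ, (1 - 1 / ((2 : ℝ) ^ c * 4 ^ (j + 1))))) := by
  have h1 := (multipliable_cC c).hasProd.tendsto_prod_nat
  have h2 : Tendsto (fun t : ℕ => (1 - 1 / ((2 : ℝ) ^ c * 4 ^ t)) ^ t) atTop (𝓝 1) := by
    have h3 : Tendsto (fun t : ℕ => 1 - (t : ℝ) * (1 / 4 : ℝ) ^ t) atTop (𝓝 (1 - 0)) :=
      tendsto_const_nhds.sub (tendsto_self_mul_const_pow_of_lt_one (by norm_num) (by norm_num))
    rw [sub_zero] at h3
    refine tendsto_of_tendsto_of_tendsto_of_le_of_le h3 tendsto_const_nhds ?_ ?_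
    · intro t
      have h0 : (1 : ℝ) / (2 ^ c * 4 ^ t) ≤ 1 / 4 ^ t := by
        apply one_div_le_one_div_of_le (by positivity)
        exact le_mul_of_one_le_left (by positivity) (one_le_pow₀ (by norm_num))
      have h4 : (1 : ℝ) / 4 ^ t ≤ 1 := by
        rw [div_le_one (by positivity)]
        exact one_le_pow₀ (by norm_num)
      have h5 := one_add_mul_le_pow (a := -(1 / ((2 : ℝ) ^ c * 4 ^ t))) (by linarith) t
      rw [← sub_eq_add_neg] at h5
      have h6 : (t : ℝ) * (1 / (2 ^ c * 4 ^ t)) ≤ t * (1 / 4 ^ t) :=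
        mul_le_mul_of_nonneg_left h0 (Nat.cast_nonneg t)
      simp only [one_div_pow]
      linarith
    · intro t
      have h0 : (1 : ℝ) / (2 ^ c * 4 ^ t) ≤ 1 := by
        rw [div_le_one (by positivity)]
        exact one_le_mul_of_one_le_of_one_le (one_le_pow₀ (by norm_num)) (one_le_pow₀ (by norm_num))
      have h5 : (0 : ℝ) ≤ 1 / (2 ^ c * 4 ^ t) := by positivity
      exact pow_le_one₀ (by linarith) (by linarith)
  have h6 := h1.div h2 one_ne_zero
  rw [div_one] at h6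
  refine h6.congr fun t => ?_
  rw [TtC_eq]
  rfl

theorem limsup_boundC (c : ℕ) {ε : ℝ} (hε : 0 < ε) : ∀ᶠ k : ℕ in atTop,
    (Qex (k + k + c) k : ℝ) ≤ (∏' j : ℕ, (1 - 1 / ((2 : ℝ) ^ c * 4 ^ (j + 1))) + ε) *
      ((k + k + c).choose k : ℝ) := by
  obtain ⟨t, ht⟩ := ((tendsto_TtC c).eventually (gt_mem_nhds (lt_add_of_pos_right _ hε))).exists
  have h0 : Tendsto (fun k : ℕ => 1 / (((k + c : ℕ) : ℝ) + 1)) atTop (𝓝 0) :=
    tendsto_one_div_add_atTop_nhds_zero_nat.comp (tendsto_add_atTop_nat c)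
  have h1 : Tendsto (fun k : ℕ => TtC c t * (1 + ((t : ℝ) - 1) * (1 / (((k + c : ℕ) : ℝ) + 1))) ^ t)
      atTop (𝓝 (TtC c t * (1 + ((t : ℝ) - 1) * 0) ^ t)) :=
    tendsto_const_nhds.mul ((tendsto_const_nhds.add (tendsto_const_nhds.mul h0)).pow t)
  rw [mul_zero, add_zero, one_pow, mul_one] at h1
  filter_upwards [h1.eventually (gt_mem_nhds ht), eventually_ge_atTop t] with k hk hkt
  have h2 := rec_boundC (c := c) hkt
  obtain ⟨s, hs⟩ : ∃ s : ℝ, s = ((k + c : ℕ) : ℝ) := ⟨_, rfl⟩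
  have hs0 : 0 ≤ s := by rw [hs]; exact Nat.cast_nonneg _
  rw [← hs] at hk
  have h3 : (s + 1) ^ t ≤ ((k + c + t).descFactorial t : ℝ) := by
    have h4 := Nat.pow_sub_le_descFactorial (k + c + t) t
    rw [show k + c + t + 1 - t = k + c + 1 by omega] at h4
    rw [hs]
    exact_mod_cast h4
  have h5 : (s + 1) ^ t * (Qex (k + k + c) k : ℝ) ≤
      TtC c t * ((k : ℝ) + c + t) ^ t * ((k + k + c).choose k : ℝ) :=
    (mul_le_mul_of_nonneg_right h3 (Nat.cast_nonneg _)).trans h2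
  have h6 : ((k : ℝ) + c + t) ^ t = (s + 1) ^ t * (1 + ((t : ℝ) - 1) * (1 / (s + 1))) ^ t := by
    rw [← mul_pow]
    congr 1
    have : s = (k : ℝ) + c := by rw [hs]; push_cast; rfl
    rw [← this]
    field_simp
    ring
  rw [h6] at h5
  have h7 : (0 : ℝ) < (s + 1) ^ t := by positivity
  have h8 : (s + 1) ^ t * (Qex (k + k + c) k : ℝ) ≤ (s + 1) ^ t *
      (TtC c t * (1 + ((t : ℝ) - 1) * (1 / (s + 1))) ^ t * ((k + k + c).choose k : ℝ)) := by
    refine h5.trans (le_of_eq ?_)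
    ring
  have h9 := le_of_mul_le_mul_left h8 h7
  refine h9.trans (mul_le_mul_of_nonneg_right ?_ (Nat.cast_nonneg _))
  exact hk.le

/-- a numerical value -/
lemma cC_le : ∏' j : ℕ, (1 - 1 / ((2 : ℝ) ^ 0 * 4 ^ (j + 1))) ≤ 0.68856 := by
  have h1 := (multipliable_cC 0).hasProd.tendsto_prod_nat
  refine le_of_tendsto h1 ?_
  filter_upwards [eventually_ge_atTop 8] with n hn
  have h2 : ∏ j ∈ Finset.range n, (1 - 1 / ((2 : ℝ) ^ 0 * 4 ^ (j + 1))) ≤
      ∏ j ∈ Finset.range 8, (1 - 1 / ((2 : ℝ) ^ 0 * 4 ^ (j + 1))) := by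
    have h0 : ∀ j : ℕ, (0 : ℝ) ≤ 1 - 1 / ((2 : ℝ) ^ 0 * 4 ^ (j + 1)) ∧
        1 - 1 / ((2 : ℝ) ^ 0 * 4 ^ (j + 1)) ≤ 1 := by
      intro j
      have h4 : (1 : ℝ) / (2 ^ 0 * 4 ^ (j + 1)) ≤ 1 := by
        rw [pow_zero, one_mul, div_le_one (by positivity)]
        exact one_le_pow₀ (by norm_num)
      have h5 : (0 : ℝ) ≤ 1 / (2 ^ 0 * 4 ^ (j + 1)) := by positivity
      constructor <;> linarith
    rw [← Finset.prod_range_mul_prod_Ico _ hn]
    refine mul_le_of_le_one_right (Finset.prod_nonneg fun j _ => (h0 j).1) ?_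
    exact Finset.prod_le_one (fun j _ => (h0 j).1) fun j _ => (h0 j).2
  refine h2.trans ?_
  simp only [Finset.prod_range_succ, Finset.prod_range_zero]
  norm_num

end Pool.Agent.H155.QX
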