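import Mathlib
import Pool.Agent.H155.QX.Count

/-!
The lower bound for the quantum extremal numbers, for an even number of qubits.
-/

set_option autoImplicit false

namespace Pool.Agent.H155.QX

open F4

open scoped Classical in
/-- the nonzero code words supported in `A` -/
noncomputable def Bd {m : ℕ} (K : Fin m → Fin m → F4) (A : Finset (Fin (m + m))) :
    Finset (Fin (m + m) → F4) := ((ev A).erase 0).filter fun v => InC K v

lemma mem_Bd {m : ℕ} {K : Fin m → Fin m → F4} (hK : herm K) {A : Finset (Fin (m + m))}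
    {v : Fin (m + m) → F4} : v ∈ Bd K A ↔ (∀ i, i ∉ A → v i = 0) ∧ v ≠ 0 ∧ InC K v := by
  classical
  simp only [Bd, ev, Finset.mem_filter, Finset.mem_erase, mem_sup]
  constructor
  · rintro ⟨⟨h1, h2, -⟩, h3⟩
    exact ⟨h2, h1, h3⟩
  · rintro ⟨h1, h2, h3⟩
    exact ⟨⟨h2, h1, InC_br hK h3⟩, h3⟩

lemma aux5 : ∀ c e : F4, e ≠ 0 → c ≠ 0 → c * e ≠ 0 := by decide

lemma aux6 : ∀ c c' e : F4, e ≠ 0 → c * e = c' * e → c = c' := by decide

lemma three_le {m : ℕ} {K : Fin m → Fin m → F4} (hK : herm K) {A : Finset (Fin (m + m))}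
    (h : Bd K A ≠ ∅) : 3 ≤ (Bd K A).card := by
  obtain ⟨v, hv⟩ := Finset.nonempty_iff_ne_empty.2 h
  rw [mem_Bd hK] at hv
  obtain ⟨h1, h2, h3⟩ := hv
  obtain ⟨i, hi⟩ : ∃ i, v i ≠ 0 := by
    by_contra hcon
    push Not at hcon
    exact h2 (funext hcon)
  have hmem : ∀ c : F4, c ≠ 0 → (fun j => c * v j) ∈ Bd K A := by
    intro c hc
    rw [mem_Bd hK]
    refine ⟨fun j hj => by rw [h1 j hj, mul_zero], ?_, InC_smul c h3⟩
    intro h0
    have h4 := congrFun h0 i
    simp only [Pi.zero_apply] at h4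
    exact aux5 c (v i) hi hc h4
  have hcard : ((Finset.univ : Finset F4).erase 0).card = 3 := by decide
  rw [← hcard]
  refine Finset.card_le_card_of_injOn (fun c j => c * v j) ?_ ?_
  · intro c hc
    rw [Finset.mem_coe, Finset.mem_erase] at hc
    exact hmem c hc.1
  · intro c _ c' _ h0
    have h4 := congrFun h0 i
    exact aux6 c c' (v i) hi h4

open scoped Classical in
/-- the sets on which the state may be not maximally mixed -/
noncomputable def bad {m : ℕ} (k : ℕ) (K : Fin m → Fin m → F4) : Finset (Finset (Fin (m + m))) :=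
  (Finset.powersetCard k Finset.univ).filter fun A => Bd K A ≠ ∅

lemma good_le {m : ℕ} (k : ℕ) {K : Fin m → Fin m → F4} (hK : herm K) :
    (m + m).choose k - (bad k K).card ≤ Qex (m + m) k := by
  classical
  obtain ⟨ψ, h1, h2⟩ := state_of_herm hK
  refine le_trans ?_ (le_csSup (bdd (m + m) k) ⟨ψ, h1, rfl⟩)
  have h3 : (((Finset.powersetCard k Finset.univ \ bad k K : Finset (Finset (Fin (m + m))))) :
      Set (Finset (Fin (m + m)))) ⊆ {A : Finset (Fin (m + m)) | A.card = k ∧ MaxMixed ψ A} := by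
    intro A hA
    rw [Finset.mem_coe, Finset.mem_sdiff] at hA
    have hk := (Finset.mem_powersetCard.1 hA.1).2
    refine ⟨hk, h2 A fun v hv hv0 hC => ?_⟩
    apply hA.2
    unfold bad
    rw [Finset.mem_filter]
    refine ⟨hA.1, ?_⟩
    rw [← Finset.nonempty_iff_ne_empty]
    exact ⟨v, (mem_Bd hK).2 ⟨hv, hv0, hC⟩⟩
  have h4 := Set.ncard_le_ncard h3 (Set.toFinite _)
  rw [Set.ncard_coe_finset] at h4
  refine le_trans ?_ h4
  have h5 : bad k K ⊆ Finset.powersetCard k Finset.univ := Finset.filter_subset _ _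
  rw [Finset.card_sdiff_of_subset h5, Finset.card_powersetCard, Finset.card_univ, Fintype.card_fin]

lemma sum_bad (m k : ℕ) : (3 * 4 ^ m * ∑ K ∈ HM m, ((bad k K).card : ℤ)) ≤
    ((m + m).choose k : ℤ) * (4 ^ k + (-2) ^ k - 2) * (HM m).card := by
  classical
  have h1 : ∀ K ∈ HM m, 3 * ((bad k K).card : ℤ) ≤
      ∑ A ∈ Finset.powersetCard k (Finset.univ : Finset (Fin (m + m))), ((Bd K A).card : ℤ) := by
    intro K hK
    rw [mem_HM] at hK
    calc 3 * ((bad k K).card : ℤ) = ∑ _A ∈ bad k K, 3 := by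
          rw [Finset.sum_const, nsmul_eq_mul, mul_comm]
      _ ≤ ∑ A ∈ bad k K, ((Bd K A).card : ℤ) := Finset.sum_le_sum fun A hA => by
          unfold bad at hA
          rw [Finset.mem_filter] at hA
          exact_mod_cast three_le hK hA.2
      _ ≤ _ := Finset.sum_le_sum_of_subset_of_nonneg (Finset.filter_subset _ _)
          fun A _ _ => by positivity
  have h2 : ∀ A ∈ Finset.powersetCard k (Finset.univ : Finset (Fin (m + m))),
      4 ^ m * ∑ K ∈ HM m, ((Bd K A).card : ℤ) ≤ (4 ^ k + (-2) ^ k - 2) * (HM m).card := by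
    intro A hA
    have hk := (Finset.mem_powersetCard.1 hA).2
    have h3 : ∑ K ∈ HM m, ((Bd K A).card : ℤ) = ∑ v ∈ (ev A).erase 0, ((Fb v).card : ℤ) := by
      have e1 : ∀ K, ((Bd K A).card : ℤ) = ∑ v ∈ (ev A).erase 0, if InC K v then 1 else 0 := by
        intro K
        unfold Bd
        rw [Finset.sum_boole]
      have e2 : ∀ v : Fin (m + m) → F4, ((Fb v).card : ℤ) = ∑ K ∈ HM m, if InC K v then 1 else 0 := by
        intro v
        rw [Finset.sum_boole]
        unfold Fb HM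
        rw [Finset.filter_filter]
      simp only [e1, e2]
      exact Finset.sum_comm
    rw [h3, Finset.mul_sum]
    have h4 : ∀ v ∈ (ev A).erase 0, 4 ^ m * ((Fb v).card : ℤ) ≤ 2 * (HM m).card := by
      intro v hv
      rw [Finset.mem_erase] at hv
      exact_mod_cast fiber hv.1
    refine (Finset.sum_le_sum h4).trans ?_
    rw [Finset.sum_const, nsmul_eq_mul]
    have h5 : (0 : Fin (m + m) → F4) ∈ ev A := by
      unfold ev
      rw [Finset.mem_filter, mem_sup]
      refine ⟨fun _ _ => rfl, ?_⟩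
      unfold br
      simp
    have h6 : ((((ev A).erase 0).card : ℕ) : ℤ) * 2 = 4 ^ k + (-2) ^ k - 2 := by
      have h7 := card_ev A
      rw [hk] at h7
      have h8 : ((ev A).erase 0).card + 1 = (ev A).card := Finset.card_erase_add_one h5
      have h9 : (((ev A).erase 0).card : ℤ) + 1 = (ev A).card := by exact_mod_cast h8
      linarith
    rw [← h6]
    exact le_of_eq (by ring)
  calc (3 * 4 ^ m * ∑ K ∈ HM m, ((bad k K).card : ℤ))
      = 4 ^ m * ∑ K ∈ HM m, (3 * ((bad k K).card : ℤ)) := by rw [← Finset.mul_sum]; ring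
    _ ≤ 4 ^ m * ∑ K ∈ HM m, ∑ A ∈ Finset.powersetCard k (Finset.univ : Finset (Fin (m + m))),
          ((Bd K A).card : ℤ) := by
        apply mul_le_mul_of_nonneg_left (Finset.sum_le_sum h1) (by positivity)
    _ = ∑ A ∈ Finset.powersetCard k (Finset.univ : Finset (Fin (m + m))),
          (4 ^ m * ∑ K ∈ HM m, ((Bd K A).card : ℤ)) := by rw [Finset.sum_comm, Finset.mul_sum]
    _ ≤ ∑ _A ∈ Finset.powersetCard k (Finset.univ : Finset (Fin (m + m))),
          ((4 ^ k + (-2) ^ k - 2) * (HM m).card : ℤ) := Finset.sum_le_sum h2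
    _ = _ := by
        rw [Finset.sum_const, Finset.card_powersetCard, Finset.card_univ, Fintype.card_fin,
          nsmul_eq_mul, mul_assoc]

/-- the lower bound -/
theorem lower (m k : ℕ) : ((3 * 4 ^ m - (4 ^ k + (-2) ^ k - 2) : ℤ)) * ((m + m).choose k : ℤ) ≤
    3 * 4 ^ m * (Qex (m + m) k : ℤ) := by
  obtain ⟨K, hK, hle⟩ : ∃ K ∈ HM m, 3 * 4 ^ m * ((bad k K).card : ℤ) ≤
      ((m + m).choose k : ℤ) * (4 ^ k + (-2) ^ k - 2) := by
    apply Finset.exists_le_of_sum_le ⟨_, zero_mem_HM m⟩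
    rw [← Finset.mul_sum, Finset.sum_const, nsmul_eq_mul]
    have := sum_bad m k
    linarith
  rw [mem_HM] at hK
  have h1 := good_le k hK
  have h2 : ((m + m).choose k : ℤ) - (bad k K).card ≤ Qex (m + m) k := by omega
  have h3 : (0 : ℤ) < 3 * 4 ^ m := by positivity
  nlinarith [mul_le_mul_of_nonneg_left h2 h3.le]

end Pool.Agent.H155.QX
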